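import Pool.Agent.H73.DU.Basic

/-! # Burnside: finite sets with an action are determined by their marks

PLAN. Strong induction on `Nat.card X` (= `Nat.card Y`, the mark at `⊥`). If `X` is empty so is `Y`.
Otherwise the finite set of stabilizers of the points of `X` and `Y` is nonempty; choose a
maximal one, `U` (with respect to inclusion); say `U = stabilizer x`, `x : X` (or symmetric). The points fixed
by `U` (in `X` or in `Y`) have stabilizer `≥ U`, hence `= U` by maximality. `fx X U` contains `x`,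
so `fx Y U` is nonempty by equality of the marks: there is `y : Y` with `stabilizer y = U`. The
orbits of `x` and `y` are both isomorphic to `Γ ⧸ U`. Remove them: `X' = X - orbit x`,
`Y' = Y - orbit y` (`SubMulAction` with carrier the complement of the orbit) have equal marks
(`fx X V = fx X' V ⊔ fx (orbit x) V`, and the marks of the two orbits agree), smaller
cardinality; so there is an equivariant bijection `X' ≃ Y'`; glue. -/

namespace Pool.Agent.H73.AL

open Pool.Agent.H73.DU MulAction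

section

variable {Γ : Type} [Group Γ]

/-- the orbit as a set with action -/
private def orbS {X : Type} [MulAction Γ X] (x : X) : SubMulAction Γ X where
  carrier := orbit Γ x
  smul_mem' g _ hz := (smul_mem_orbit_iff_aux g hz)
where
  smul_mem_orbit_iff_aux (g : Γ) {z : X} (hz : z ∈ orbit Γ x) : g • z ∈ orbit Γ x := by
    obtain ⟨a, rfl⟩ := hz
    exact ⟨g * a, mul_smul g a x⟩

private theorem mem_orbS {X : Type} [MulAction Γ X] {x z : X} : z ∈ orbS (Γ := Γ) x ↔
    ∃ g : Γ, g • x = z := Iff.rfl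

/-- the complement of the orbit -/
private def orbC {X : Type} [MulAction Γ X] (x : X) : SubMulAction Γ X where
  carrier := {z | z ∉ orbS (Γ := Γ) x}
  smul_mem' g z hz h := by
    apply hz
    have := (orbS (Γ := Γ) x).smul_mem g⁻¹ h
    rwa [inv_smul_smul] at this

private theorem mem_orbC {X : Type} [MulAction Γ X] {x z : X} : z ∈ orbC (Γ := Γ) x ↔
    z ∉ orbS (Γ := Γ) x := Iff.rfl

private theorem mem_fx_sub {X : Type} [MulAction Γ X] (A : SubMulAction Γ X) (U : Subgroup Γ)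
    (a : A) : a ∈ fx A U ↔ (a : X) ∈ fx X U := by
  rw [mem_fx, mem_fx]
  refine forall₂_congr fun u _ => ?_
  rw [Subtype.ext_iff]
  rfl

private theorem mk_split {X : Type} [MulAction Γ X] [Finite X] (x : X) (U : Subgroup Γ) :
    pch Γ X U = pch Γ (orbS (Γ := Γ) x) U + pch Γ (orbC (Γ := Γ) x) U := by
  classical
  unfold pch
  rw [← Nat.cast_add, ← Nat.card_sum]
  congr 1
  refine Nat.card_congr ⟨fun z => if hz : z.1 ∈ orbS (Γ := Γ) x then
      Sum.inl ⟨⟨z.1, hz⟩, (mem_fx_sub _ _ _).2 z.2⟩ else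
      Sum.inr ⟨⟨z.1, hz⟩, (mem_fx_sub _ _ _).2 z.2⟩,
    fun w => Sum.elim (fun b => ⟨b.1.1, (mem_fx_sub _ _ _).1 b.2⟩)
        (fun b => ⟨b.1.1, (mem_fx_sub _ _ _).1 b.2⟩) w, ?_, ?_⟩
  · intro z
    by_cases hz : z.1 ∈ orbS (Γ := Γ) x
    · simp [hz]
    · simp [hz]
  · rintro (b | b)
    · have : b.1.1 ∈ orbS (Γ := Γ) x := b.1.2
      simp [this]
    · have : b.1.1 ∉ orbS (Γ := Γ) x := b.1.2
      simp [this]

private theorem orb_iso {X Y : Type} [MulAction Γ X] [MulAction Γ Y] {x : X} {y : Y}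
    (h : stabilizer Γ x = stabilizer Γ y) :
    ∃ e : orbS (Γ := Γ) x ≃ orbS (Γ := Γ) y, ∀ (g : Γ) (z : orbS (Γ := Γ) x),
      e (g • z) = g • e z := by
  classical
  have key : ∀ g g' : Γ, g • x = g' • x ↔ g • y = g' • y := by
    intro g g'
    have h1 : g⁻¹ * g' ∈ stabilizer Γ x ↔ g⁻¹ * g' ∈ stabilizer Γ y := by rw [h]
    rw [mem_stabilizer_iff, mem_stabilizer_iff, mul_smul, mul_smul, inv_smul_eq_iff,
      inv_smul_eq_iff] at h1
    rw [eq_comm, h1, eq_comm]
  choose c hc using fun z : orbS (Γ := Γ) x => mem_orbS.1 z.2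
  have hf : ∀ (g : Γ) (hg : g • x ∈ orbS (Γ := Γ) x), c ⟨g • x, hg⟩ • y = g • y := by
    intro g hg
    exact (key _ _).1 (hc ⟨g • x, hg⟩)
  refine ⟨Equiv.ofBijective (fun z => ⟨c z • y, mem_orbS.2 ⟨c z, rfl⟩⟩) ⟨?_, ?_⟩, ?_⟩
  · intro z z' hz
    have h1 : c z • y = c z' • y := congrArg Subtype.val hz
    have h2 := (key _ _).2 h1
    rw [hc, hc] at h2
    exact Subtype.ext h2
  · rintro ⟨w, hw⟩
    obtain ⟨g, rfl⟩ := mem_orbS.1 hw
    exact ⟨⟨g • x, mem_orbS.2 ⟨g, rfl⟩⟩, Subtype.ext (hf g _)⟩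
  · intro g z
    apply Subtype.ext
    change c (g • z) • y = g • c z • y
    rw [← mul_smul]
    apply (key _ _).1
    rw [hc, mul_smul, hc]
    rfl

private theorem exists_pair {X Y : Type} [MulAction Γ X] [MulAction Γ Y] [Finite X] [Finite Y]
    (h : ∀ U : Subgroup Γ, pch Γ X U = pch Γ Y U) (x0 : X) :
    ∃ (x : X) (y : Y), stabilizer Γ x = stabilizer Γ y := by
  classical
  set S : Set (Subgroup Γ) := Set.range (fun x : X => stabilizer Γ x) ∪
    Set.range (fun y : Y => stabilizer Γ y) with hS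
  have hfin : S.Finite := (Set.finite_range _).union (Set.finite_range _)
  obtain ⟨U, hU⟩ := hfin.exists_maximal ⟨_, Or.inl ⟨x0, rfl⟩⟩
  have hle : ∀ {Z : Type} [MulAction Γ Z] (z : Z), z ∈ fx Z U → U ≤ stabilizer Γ z := by
    intro Z _ z hz u hu
    exact hz u hu
  have hmem : ∀ {Z : Type} [MulAction Γ Z] (z : Z), stabilizer Γ z = U → z ∈ fx Z U := by
    intro Z _ z hz u hu
    rw [← hz] at hu
    exact hu
  have hpos : ∀ {Z : Type} [MulAction Γ Z] [Finite Z], (fx Z U).Nonempty → 0 < pch Γ Z U := by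
    intro Z _ _ hne
    unfold pch
    have : Nonempty (fx Z U) := hne.to_subtype
    exact_mod_cast Nat.card_pos
  have hne : ∀ {Z : Type} [MulAction Γ Z] [Finite Z], 0 < pch Γ Z U → (fx Z U).Nonempty := by
    intro Z _ _ hp
    unfold pch at hp
    have h1 : 0 < Nat.card (fx Z U) := by exact_mod_cast hp
    have h2 := (Nat.card_pos_iff.1 h1).1
    exact Set.nonempty_coe_sort.1 h2
  rcases hU.1 with ⟨x, hx⟩ | ⟨y, hy⟩
  · obtain ⟨y, hy⟩ := hne (Z := Y) (by rw [← h]; exact hpos ⟨x, hmem x hx⟩)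
    refine ⟨x, y, ?_⟩
    have h1 := hle y hy
    have h2 := hU.2 (Or.inr ⟨y, rfl⟩) h1
    rw [show stabilizer Γ x = U from hx]
    exact le_antisymm h1 h2
  · obtain ⟨x, hx⟩ := hne (Z := X) (by rw [h]; exact hpos ⟨y, hmem y hy⟩)
    refine ⟨x, y, ?_⟩
    have h1 := hle x hx
    have h2 := hU.2 (Or.inl ⟨x, rfl⟩) h1
    rw [show stabilizer Γ y = U from hy]
    exact le_antisymm h2 h1

private theorem glue {X Y : Type} [MulAction Γ X] [MulAction Γ Y] {x : X} {y : Y}
    (e0 : orbS (Γ := Γ) x ≃ orbS (Γ := Γ) y)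
    (h0 : ∀ (g : Γ) (z : orbS (Γ := Γ) x), e0 (g • z) = g • e0 z)
    (e1 : orbC (Γ := Γ) x ≃ orbC (Γ := Γ) y)
    (h1 : ∀ (g : Γ) (z : orbC (Γ := Γ) x), e1 (g • z) = g • e1 z) :
    ∃ e : X ≃ Y, ∀ (g : Γ) (x : X), e (g • x) = g • e x := by
  classical
  set f : X → Y := fun z => if hz : z ∈ orbS (Γ := Γ) x then (e0 ⟨z, hz⟩ : Y) else
    (e1 ⟨z, hz⟩ : Y) with hf
  have f0 : ∀ z (hz : z ∈ orbS (Γ := Γ) x), f z = e0 ⟨z, hz⟩ := fun z hz => by
    simp [hf, hz]
  have f1 : ∀ z (hz : z ∉ orbS (Γ := Γ) x), f z = e1 ⟨z, hz⟩ := fun z hz => by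
    simp [hf, hz]
  have m0 : ∀ z : orbS (Γ := Γ) x, (e0 z : Y) ∈ orbS (Γ := Γ) y := fun z => (e0 z).2
  have m1 : ∀ z : orbC (Γ := Γ) x, (e1 z : Y) ∉ orbS (Γ := Γ) y := fun z => (e1 z).2
  refine ⟨Equiv.ofBijective f ⟨?_, ?_⟩, ?_⟩
  · intro z z' hzz
    by_cases hz : z ∈ orbS (Γ := Γ) x
    · by_cases hz' : z' ∈ orbS (Γ := Γ) x
      · rw [f0 z hz, f0 z' hz'] at hzz
        exact congrArg Subtype.val (e0.injective (Subtype.ext hzz))
      · rw [f0 z hz, f1 z' hz'] at hzz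
        exact absurd (hzz ▸ m0 _) (m1 _)
    · by_cases hz' : z' ∈ orbS (Γ := Γ) x
      · rw [f1 z hz, f0 z' hz'] at hzz
        exact absurd (hzz ▸ m0 _) (m1 _)
      · rw [f1 z hz, f1 z' hz'] at hzz
        exact congrArg Subtype.val (e1.injective (Subtype.ext hzz))
  · intro w
    by_cases hw : w ∈ orbS (Γ := Γ) y
    · obtain ⟨z, hz⟩ := e0.surjective ⟨w, hw⟩
      refine ⟨z.1, ?_⟩
      rw [f0 z.1 z.2]
      exact congrArg Subtype.val hz
    · obtain ⟨z, hz⟩ := e1.surjective ⟨w, hw⟩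
      refine ⟨z.1, ?_⟩
      rw [f1 z.1 z.2]
      exact congrArg Subtype.val hz
  · intro g z
    change f (g • z) = g • f z
    by_cases hz : z ∈ orbS (Γ := Γ) x
    · rw [f0 z hz, f0 _ ((orbS (Γ := Γ) x).smul_mem g hz)]
      exact congrArg Subtype.val (h0 g ⟨z, hz⟩)
    · have hz' : g • z ∉ orbS (Γ := Γ) x := (orbC (Γ := Γ) x).smul_mem g (mem_orbC.2 hz)
      rw [f1 z hz, f1 _ hz']
      exact congrArg Subtype.val (h1 g ⟨z, hz⟩)

private theorem marks_aux (n : ℕ) : ∀ (X Y : Type) [MulAction Γ X] [MulAction Γ Y] [Finite X]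
    [Finite Y], (∀ U : Subgroup Γ, pch Γ X U = pch Γ Y U) → Nat.card X ≤ n →
    ∃ e : X ≃ Y, ∀ (g : Γ) (x : X), e (g • x) = g • e x := by
  induction n with
  | zero =>
    intro X Y _ _ _ _ h hn
    have hX : Nat.card X = 0 := by omega
    have hY : Nat.card Y = 0 := by
      have := h ⊥
      rw [pch_bot, pch_bot, hX] at this
      exact_mod_cast this.symm
    have eX : IsEmpty X := (Finite.card_eq_zero_iff).1 hX
    have eY : IsEmpty Y := (Finite.card_eq_zero_iff).1 hY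
    exact ⟨Equiv.equivOfIsEmpty X Y, fun g x => (IsEmpty.false x).elim⟩
  | succ n ih =>
    intro X Y _ _ _ _ h hn
    rcases isEmpty_or_nonempty X with eX | ⟨⟨x0⟩⟩
    · have hX : Nat.card X = 0 := Nat.card_of_isEmpty
      exact ih X Y h (by omega)
    · obtain ⟨x, y, hxy⟩ := exists_pair h x0
      obtain ⟨e0, h0⟩ := orb_iso hxy
      have hm : ∀ U : Subgroup Γ, pch Γ (orbC (Γ := Γ) x) U = pch Γ (orbC (Γ := Γ) y) U := by
        intro U
        have h1 := h U
        rw [mk_split x U, mk_split y U, pch_congr e0 h0] at h1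
        linarith
      have hcard : Nat.card (orbC (Γ := Γ) x) ≤ n := by
        have h1 := mk_split (Γ := Γ) x ⊥
        rw [pch_bot, pch_bot, pch_bot] at h1
        have h2 : Nonempty (orbS (Γ := Γ) x) := ⟨⟨x, mem_orbS.2 ⟨1, one_smul _ _⟩⟩⟩
        have h3 : 0 < Nat.card (orbS (Γ := Γ) x) := Nat.card_pos
        have h4 : Nat.card X = Nat.card (orbS (Γ := Γ) x) + Nat.card (orbC (Γ := Γ) x) := by
          exact_mod_cast h1
        omega
      obtain ⟨e1, h1⟩ := ih _ _ hm hcard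
      exact glue e0 h0 e1 h1

end

theorem marks_iso {Γ : Type} [Group Γ] (X Y : Type) [MulAction Γ X] [MulAction Γ Y] [Finite X]
    [Finite Y] (h : ∀ U : Subgroup Γ, pch Γ X U = pch Γ Y U) :
    ∃ e : X ≃ Y, ∀ (g : Γ) (x : X), e (g • x) = g • e x :=
  marks_aux (Nat.card X) X Y h le_rfl

end Pool.Agent.H73.AL
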