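import Pool.Agent.H73.AL.GroAlg
import Pool.Agent.H73.AL.Marks

/-! # Multiplicative functions of the local algebras on related lists -/

namespace Pool.Agent.H73.AL

open Pool.Agent.H73.DU

open scoped TensorProduct

/-- the marks of a disjoint sum -/
theorem pch_sum {G : Type} [Group G] (X Y : Type) [MulAction G X] [MulAction G Y] [Finite X]
    [Finite Y] (U : Subgroup G) : pch G (X ⊕ Y) U = pch G X U + pch G Y U := by
  unfold pch
  rw [← Nat.cast_add, ← Nat.card_sum]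
  congr 1
  refine Nat.card_congr ⟨fun z => match z with
    | ⟨Sum.inl x, h⟩ => Sum.inl ⟨x, fun u hu => Sum.inl_injective (h u hu)⟩
    | ⟨Sum.inr y, h⟩ => Sum.inr ⟨y, fun u hu => Sum.inr_injective (h u hu)⟩,
    fun z => match z with
    | Sum.inl x => ⟨Sum.inl x.1, fun u hu => congrArg Sum.inl (x.2 u hu)⟩
    | Sum.inr y => ⟨Sum.inr y.1, fun u hu => congrArg Sum.inr (y.2 u hu)⟩, ?_, ?_⟩
  · rintro ⟨x | y, h⟩ <;> rfl
  · rintro (x | y) <;> rfl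

/-- the set attached to a list -/
theorem list_set (l : ℕ) [Fact l.Prime] {W : Type} [CommMonoid W]
    (Ψ : ∀ (R : Type) [CommRing R] [Algebra ℚ_[l] R], W)
    (hiso : ∀ (R R' : Type) [CommRing R] [Algebra ℚ_[l] R] [CommRing R'] [Algebra ℚ_[l] R']
      [Module.Finite ℚ_[l] R] [Module.Finite ℚ_[l] R'], Nonempty (R ≃ₐ[ℚ_[l]] R') → Ψ R = Ψ R')
    (hprod : ∀ (R R' : Type) [CommRing R] [Algebra ℚ_[l] R] [CommRing R'] [Algebra ℚ_[l] R']
      [Module.Finite ℚ_[l] R] [Module.Finite ℚ_[l] R'], Ψ (R × R') = Ψ R * Ψ R')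
    (hone : Ψ PUnit = 1) (A : List NF) :
    ∃ (X : Type) (_ : MulAction (AlgebraicClosure ℚ_[l] ≃ₐ[ℚ_[l]] AlgebraicClosure ℚ_[l]) X),
      Finite X ∧ (∀ U : Subgroup (AlgebraicClosure ℚ_[l] ≃ₐ[ℚ_[l]] AlgebraicClosure ℚ_[l]),
        pch _ X U = (A.map fun F => pch _ (F.F →+* AlgebraicClosure ℚ_[l]) U).sum) ∧
      Module.Finite ℚ_[l] (gro ℚ_[l] (AlgebraicClosure ℚ_[l]) X) ∧
      Ψ (gro ℚ_[l] (AlgebraicClosure ℚ_[l]) X) = (A.map fun F => Ψ (ℚ_[l] ⊗[ℚ] F.F)).prod := by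
  induction A with
  | nil =>
    let inst : MulAction (AlgebraicClosure ℚ_[l] ≃ₐ[ℚ_[l]] AlgebraicClosure ℚ_[l]) Empty :=
      { smul := fun _ x => x
        one_smul := fun x => x.elim
        mul_smul := fun _ _ x => x.elim }
    have e := gro_empty ℚ_[l] (AlgebraicClosure ℚ_[l]) Empty
    have hp : Module.Finite ℚ_[l] PUnit := inferInstance
    have hf : Module.Finite ℚ_[l] (gro ℚ_[l] (AlgebraicClosure ℚ_[l]) Empty) :=
      Module.Finite.equiv e.some.symm.toLinearEquiv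
    refine ⟨Empty, inst, inferInstance, fun U => ?_, hf, ?_⟩
    · unfold pch
      have : IsEmpty (fx Empty U) := ⟨fun x => x.1.elim⟩
      simp
    · rw [List.map_nil, List.prod_nil, ← hone]
      exact hiso _ _ e
  | cons F A ih =>
    obtain ⟨X, hX, hXf, hXU, hXF, hXΨ⟩ := ih
    have e1 := gro_field ℚ_[l] F.F
    have hf1 : Module.Finite ℚ_[l]
        (gro ℚ_[l] (AlgebraicClosure ℚ_[l]) (F.F →+* AlgebraicClosure ℚ_[l])) :=
      Module.Finite.equiv e1.some.toLinearEquiv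
    have e2 := gro_sum ℚ_[l] (AlgebraicClosure ℚ_[l]) (F.F →+* AlgebraicClosure ℚ_[l]) X
    have hf2 : Module.Finite ℚ_[l]
        (gro ℚ_[l] (AlgebraicClosure ℚ_[l]) ((F.F →+* AlgebraicClosure ℚ_[l]) ⊕ X)) :=
      Module.Finite.equiv e2.some.symm.toLinearEquiv
    refine ⟨(F.F →+* AlgebraicClosure ℚ_[l]) ⊕ X, inferInstance, inferInstance, fun U => ?_,
      hf2, ?_⟩
    · rw [pch_sum, hXU, List.map_cons, List.sum_cons]
    · rw [List.map_cons, List.prod_cons, ← hXΨ, hiso _ _ e2, hprod, hiso _ _ e1]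

theorem rel_loc {T : Finset ℕ} {A B : List NF} (h : Rel T A B) (l : ℕ) [Fact l.Prime]
    (hl : l ∈ T) {W : Type} [CommMonoid W]
    (Ψ : ∀ (R : Type) [CommRing R] [Algebra ℚ_[l] R], W)
    (hiso : ∀ (R R' : Type) [CommRing R] [Algebra ℚ_[l] R] [CommRing R'] [Algebra ℚ_[l] R']
      [Module.Finite ℚ_[l] R] [Module.Finite ℚ_[l] R'], Nonempty (R ≃ₐ[ℚ_[l]] R') → Ψ R = Ψ R')
    (hprod : ∀ (R R' : Type) [CommRing R] [Algebra ℚ_[l] R] [CommRing R'] [Algebra ℚ_[l] R']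
      [Module.Finite ℚ_[l] R] [Module.Finite ℚ_[l] R'], Ψ (R × R') = Ψ R * Ψ R')
    (hone : Ψ PUnit = 1) :
    (A.map fun F => Ψ (ℚ_[l] ⊗[ℚ] F.F)).prod = (B.map fun F => Ψ (ℚ_[l] ⊗[ℚ] F.F)).prod := by
  obtain ⟨X, hX, hXf, hXU, hXF, hXΨ⟩ := list_set l Ψ hiso hprod hone A
  obtain ⟨Y, hY, hYf, hYU, hYF, hYΨ⟩ := list_set l Ψ hiso hprod hone B
  rw [← hXΨ, ← hYΨ]
  obtain ⟨e, he⟩ := marks_iso X Y (fun U => by
    obtain ⟨U', hU', hm⟩ := loc_mark (T := T) l hl U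
    rw [hXU, hYU]
    have h1 := h U' hU'
    simp only [← hm] at h1
    exact h1)
  exact hiso _ _ (gro_iso e he)

end Pool.Agent.H73.AL
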