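import Pool.Agent.H73.AL.MonoGen

/-! # The different of a Galois extension is the product of the ideals generated by the differences

PLAN. To show `I ≤ J` for two ideals it is enough to find for each maximal ideal `Q` an
element `s ∉ Q` with `s I ⊆ J` (`J.colon I` is not contained in any maximal ideal). Let `Q` be
maximal (`≠ ⊥`, since `𝓞 L` is not a field) and take `x`, `s` from `exists_mono`; `s ∈ ℤ[x] ⊆ (𝓞 F)[x]`
and `s * y ∈ (𝓞 F)[x]` for all `y`, that is `s ∈ conductor (𝓞 F) x`; `x` generates `L` over `F`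
(`Algebra.adjoin F {x} = ⊤`, since `s * y ∈ (𝓞 F)[x]`, `s ≠ 0`). Mathlib:
`conductor_mul_differentIdeal (𝓞 F) F L x`:
`conductor * different = span {f'(x)}`, `f = minpoly (𝓞 F) x`, and `f = ∏ σ, (X - σ x)` (Galois),
`f'(x) = ∏_{σ ≠ 1} (x - σ x)`.
(1) `s * different ⊆ span {∏ (x - σ x)} ≤ ∏ Jd σ`.
(2) for `σ ≠ 1`: `s * (σ y - y) ∈ span {σ x - x}` for all `y : 𝓞 L`: write `s y = g(x)`, `s = h(x)` with
`g, h ∈ ℤ[X]`; `σ(s) σ(y) - s y = g(σ x) - g(x)` is divisible by `σ x - x`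
(`Polynomial.sub_dvd_eval_sub`), so is `σ(s) - s`, and
`s (σ y - y) = (σ(s) σ(y) - s y) - (σ(s) - s) σ(y)`. So `s • Jd σ ≤ span {σ x - x}` and
`s ^ m * ∏ Jd σ ≤ span {f'(x)} = conductor * different ≤ different` (`m` the number of factors). -/

namespace Pool.Agent.H73.AL

open NumberField

/-- the ideal generated by the differences `σ x - x` -/
noncomputable def Jd (L : Type) [Field L] [NumberField L] (σ : L ≃ₐ[ℚ] L) : Ideal (𝓞 L) :=
  Ideal.span {z | ∃ x : 𝓞 L, z = RingOfIntegers.mapRingHom (σ : L →+* L) x - x}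

theorem Jd_conj (L : Type) [Field L] [NumberField L] (σ g : L ≃ₐ[ℚ] L) :
    Ideal.absNorm (Jd L (g * σ * g⁻¹)) = Ideal.absNorm (Jd L σ) := by
  let e : 𝓞 L ≃+* 𝓞 L := RingOfIntegers.mapRingEquiv (g : L ≃+* L)
  have hmap : Jd L (g * σ * g⁻¹) = (Jd L σ).map (e : 𝓞 L →+* 𝓞 L) := by
    unfold Jd
    rw [Ideal.map_span]
    congr 1
    ext z
    simp only [Set.mem_ofPred_eq, Set.mem_image]
    constructor
    · rintro ⟨x, rfl⟩
      refine ⟨_, ⟨e.symm x, rfl⟩, ?_⟩
      apply RingOfIntegers.ext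
      rw [map_sub]
      simp [e]
    · rintro ⟨_, ⟨x, rfl⟩, rfl⟩
      refine ⟨e x, ?_⟩
      apply RingOfIntegers.ext
      rw [map_sub]
      simp [e]
  rw [Ideal.absNorm_apply, Ideal.absNorm_apply, Submodule.cardQuot_apply, Submodule.cardQuot_apply]
  exact (Nat.card_congr (Ideal.quotientEquiv _ _ e hmap).toEquiv).symm

theorem Jd_ne_bot (L : Type) [Field L] [NumberField L] (σ : L ≃ₐ[ℚ] L) (h : σ ≠ 1) :
    Jd L σ ≠ ⊥ := by
  intro hb
  apply h
  have h1 : ∀ x : 𝓞 L, σ (x : L) = (x : L) := by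
    intro x
    have h2 : RingOfIntegers.mapRingHom (σ : L →+* L) x - x ∈ Jd L σ :=
      Ideal.subset_span ⟨x, rfl⟩
    rw [hb, Ideal.mem_bot] at h2
    have h3 := congrArg (fun z : 𝓞 L => (z : L)) (sub_eq_zero.mp h2)
    simpa using h3
  ext y
  obtain ⟨a, b, hb0, rfl⟩ := IsFractionRing.div_surjective (A := 𝓞 L) y
  rw [map_div₀]
  simp only [AlgEquiv.one_apply]
  rw [h1 a, h1 b]

/-- the action of a Galois automorphism on the integers -/
private noncomputable def ta {F L : Type} [Field F] [NumberField F] [Field L] [NumberField L]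
    [Algebra F L] (σ : L ≃ₐ[F] L) : 𝓞 L →+* 𝓞 L :=
  RingOfIntegers.mapRingHom ((σ.restrictScalars ℚ : L ≃ₐ[ℚ] L) : L →+* L)

private theorem ta_coe {F L : Type} [Field F] [NumberField F] [Field L] [NumberField L]
    [Algebra F L] (σ : L ≃ₐ[F] L) (x : 𝓞 L) : ((ta σ x : 𝓞 L) : L) = σ (x : L) := rfl

/-- ideals are compared locally -/
private theorem le_of_local {R : Type} [CommRing R] (I J : Ideal R)
    (h : ∀ Q : Ideal R, Q.IsMaximal → ∃ s : R, s ∉ Q ∧ ∀ a ∈ I, s * a ∈ J) : I ≤ J := by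
  intro a ha
  let C : Ideal R := Submodule.comap (LinearMap.toSpanSingleton R R a) J
  have hC : C = ⊤ := by
    by_contra hne
    obtain ⟨Q, hQ, hCQ⟩ := Ideal.exists_le_maximal C hne
    obtain ⟨s, hs, hsa⟩ := h Q hQ
    apply hs
    apply hCQ
    change (LinearMap.toSpanSingleton R R a) s ∈ J
    rw [LinearMap.toSpanSingleton_apply, smul_eq_mul]
    exact hsa a ha
  have h1 : (1 : R) ∈ C := by rw [hC]; trivial
  have h2 : (LinearMap.toSpanSingleton R R a) 1 ∈ J := h1
  rwa [LinearMap.toSpanSingleton_apply, one_smul] at h2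

private theorem prod_mono {R ι : Type} [CommRing R] (S : Finset ι) (I J : ι → Ideal R)
    (h : ∀ i ∈ S, I i ≤ J i) : ∏ i ∈ S, I i ≤ ∏ i ∈ S, J i := by
  classical
  induction S using Finset.induction_on with
  | empty => simp
  | insert a S ha ih =>
    rw [Finset.prod_insert ha, Finset.prod_insert ha]
    exact Ideal.mul_mono (h a (Finset.mem_insert_self a S))
      (ih fun i hi => h i (Finset.mem_insert_of_mem hi))

section gen

variable {F L : Type} [Field F] [NumberField F] [Field L] [NumberField L] [Algebra F L]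

omit [NumberField F] [NumberField L] in
private theorem adjoin_le (x : 𝓞 L) {z : 𝓞 L} (hz : z ∈ Algebra.adjoin ℤ ({x} : Set (𝓞 L))) :
    z ∈ Algebra.adjoin (𝓞 F) ({x} : Set (𝓞 L)) := by
  rw [Algebra.adjoin_singleton_eq_range_aeval] at hz
  obtain ⟨g, rfl⟩ := hz
  change Polynomial.aeval x g ∈ _
  rw [Polynomial.aeval_eq_sum_range]
  refine Subalgebra.sum_mem _ fun i _ => ?_
  rw [zsmul_eq_mul]
  refine Subalgebra.mul_mem _ (intCast_mem _ _) (Subalgebra.pow_mem _ ?_ _)
  exact Algebra.subset_adjoin rfl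

omit [NumberField F] [NumberField L] in
private theorem adjoin_le' (x : 𝓞 L) {z : 𝓞 L} (hz : z ∈ Algebra.adjoin ℤ ({x} : Set (𝓞 L))) :
    algebraMap (𝓞 L) L z ∈ Algebra.adjoin F ({algebraMap (𝓞 L) L x} : Set L) := by
  rw [Algebra.adjoin_singleton_eq_range_aeval] at hz
  obtain ⟨g, rfl⟩ := hz
  change algebraMap (𝓞 L) L (Polynomial.aeval x g) ∈ _
  rw [Polynomial.aeval_eq_sum_range, map_sum]
  refine Subalgebra.sum_mem _ fun i _ => ?_
  rw [zsmul_eq_mul, map_mul, map_pow, map_intCast]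
  refine Subalgebra.mul_mem _ (intCast_mem _ _) (Subalgebra.pow_mem _ ?_ _)
  exact Algebra.subset_adjoin rfl

private theorem adjoin_top {x s : 𝓞 L} (hs0 : s ≠ 0)
    (hs : ∀ y : 𝓞 L, s * y ∈ Algebra.adjoin ℤ ({x} : Set (𝓞 L))) :
    Algebra.adjoin F ({algebraMap (𝓞 L) L x} : Set L) = ⊤ := by
  rw [eq_top_iff]
  intro z _
  obtain ⟨a, b, hb0, rfl⟩ := IsFractionRing.div_surjective (A := 𝓞 L) z
  have hb0' : b ≠ 0 := nonZeroDivisors.ne_zero hb0
  have h1 := adjoin_le' (F := F) x (hs a)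
  have h2 := adjoin_le' (F := F) x (hs b)
  have h3 : (algebraMap (𝓞 L) L (s * b))⁻¹ ∈
      Algebra.adjoin F ({algebraMap (𝓞 L) L x} : Set L) :=
    Subalgebra.inv_mem_of_algebraic _ (x := ⟨_, h2⟩)
      (Algebra.IsAlgebraic.isAlgebraic (R := F) (algebraMap (𝓞 L) L (s * b)))
  have h4 := Subalgebra.mul_mem _ h1 h3
  have hs' : algebraMap (𝓞 L) L s ≠ 0 := by
    intro h
    exact hs0 (RingOfIntegers.coe_eq_zero_iff.mp h)
  have hb' : algebraMap (𝓞 L) L b ≠ 0 := by
    intro h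
    exact hb0' (RingOfIntegers.coe_eq_zero_iff.mp h)
  have h5 : algebraMap (𝓞 L) L (s * a) * (algebraMap (𝓞 L) L (s * b))⁻¹ =
      algebraMap (𝓞 L) L a / algebraMap (𝓞 L) L b := by
    rw [map_mul, map_mul]
    field_simp
  rw [← h5]
  exact h4

open Polynomial in
/-- the minimal polynomial of a generator -/
private theorem minpoly_prod [IsGalois F L] {x : L}
    (hx : Algebra.adjoin F ({x} : Set L) = ⊤) :
    (minpoly F x).map (algebraMap F L) = ∏ σ : L ≃ₐ[F] L, (X - C (σ x)) := by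
  classical
  have hxi : IsIntegral F x := Algebra.IsIntegral.isIntegral x
  have hinj : Function.Injective (fun σ : L ≃ₐ[F] L => σ x) := by
    intro σ τ h
    have h1 : (σ : L →ₐ[F] L) = (τ : L →ₐ[F] L) := by
      apply AlgHom.ext_of_adjoin_eq_top hx
      intro y hy
      rw [Set.mem_singleton_iff] at hy
      rw [hy]
      exact h
    exact AlgEquiv.coe_toAlgHom_injective h1
  have hdvd : ∏ σ : L ≃ₐ[F] L, (X - C (σ x)) ∣ (minpoly F x).map (algebraMap F L) := by
    apply Finset.prod_dvd_of_coprime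
    · intro σ _ τ _ hne
      apply pairwise_coprime_X_sub_C hinj hne
    · intro σ _
      rw [dvd_iff_isRoot, IsRoot.def, eval_map, ← aeval_def]
      rw [← AlgEquiv.coe_toAlgHom, aeval_algHom_apply, minpoly.aeval, map_zero]
  apply eq_of_monic_of_dvd_of_natDegree_le _ ((minpoly.monic hxi).map _) hdvd
  · rw [natDegree_map]
    rw [natDegree_prod_of_monic _ _ (fun σ _ => monic_X_sub_C _)]
    simp only [natDegree_X_sub_C, Finset.sum_const, smul_eq_mul, mul_one, Finset.card_univ]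
    rw [← Nat.card_eq_fintype_card, IsGalois.card_aut_eq_finrank]
    exact minpoly.natDegree_le x
  · exact monic_prod_of_monic _ _ (fun σ _ => monic_X_sub_C _)

open Polynomial in
private theorem aeval_deriv [IsGalois F L] [DecidableEq (L ≃ₐ[F] L)] {x : 𝓞 L}
    (hx : Algebra.adjoin F ({algebraMap (𝓞 L) L x} : Set L) = ⊤) :
    aeval x (derivative (minpoly (𝓞 F) x)) =
      ∏ σ ∈ (Finset.univ : Finset (L ≃ₐ[F] L)).erase 1, (x - ta σ x) := by
  apply RingOfIntegers.coe_injective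
  have hint : IsIntegral (𝓞 F) x := Algebra.IsIntegral.isIntegral x
  have h1 : minpoly F (algebraMap (𝓞 L) L x) = (minpoly (𝓞 F) x).map (algebraMap (𝓞 F) F) :=
    minpoly.isIntegrallyClosed_eq_field_fractions F L hint
  have h2 := minpoly_prod hx
  rw [h1, map_map] at h2
  have h3 : algebraMap (𝓞 L) L (aeval x (derivative (minpoly (𝓞 F) x))) =
      eval (algebraMap (𝓞 L) L x)
        (derivative ((minpoly (𝓞 F) x).map ((algebraMap F L).comp (algebraMap (𝓞 F) F)))) := by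
    rw [derivative_map, eval_map, ← aeval_algebraMap_apply, aeval_def]
    congr 1
  rw [h3, h2, ← Finset.mul_prod_erase Finset.univ _ (Finset.mem_univ (1 : L ≃ₐ[F] L)),
    derivative_mul, eval_add, eval_mul, eval_mul]
  simp only [AlgEquiv.one_apply, derivative_sub, derivative_X, derivative_C, sub_zero, eval_one,
    one_mul, eval_sub, eval_X, eval_C, sub_self, zero_mul, add_zero]
  rw [eval_prod, map_prod]
  refine Finset.prod_congr rfl fun σ _ => ?_
  rw [eval_sub, eval_X, eval_C, map_sub]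
  rfl

private theorem Jd_le {x s : 𝓞 L}
    (hs : ∀ y : 𝓞 L, s * y ∈ Algebra.adjoin ℤ ({x} : Set (𝓞 L))) (σ : L ≃ₐ[F] L) :
    Ideal.span {s} * Jd L (σ.restrictScalars ℚ) ≤ Ideal.span {x - ta σ x} := by
  rw [Ideal.span_singleton_mul_le_iff]
  have key : ∀ z ∈ Algebra.adjoin ℤ ({x} : Set (𝓞 L)), x - ta σ x ∣ z - ta σ z := by
    intro z hz
    rw [Algebra.adjoin_singleton_eq_range_aeval] at hz
    obtain ⟨g, rfl⟩ := hz
    change _ ∣ Polynomial.aeval x g - ta σ (Polynomial.aeval x g)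
    have h1 : ta σ (Polynomial.aeval x g) = Polynomial.aeval (ta σ x) g := by
      have := Polynomial.map_aeval_eq_aeval_map (φ := RingHom.id ℤ) (ψ := ta σ) (by
        apply RingHom.ext_int) g x
      rw [this, Polynomial.map_id]
    rw [h1]
    rw [← Polynomial.eval_map_algebraMap, ← Polynomial.eval_map_algebraMap]
    exact Polynomial.sub_dvd_eval_sub _ _ _
  intro z hz
  unfold Jd at hz
  induction hz using Submodule.span_induction with
  | mem z hz =>
    obtain ⟨y, rfl⟩ := hz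
    change s * (ta σ y - y) ∈ _
    rw [Ideal.mem_span_singleton]
    have h1 := key (s * y) (hs y)
    have h2 := key s (by simpa using hs 1)
    have h3 : s * (ta σ y - y) = (s - ta σ s) * ta σ y - (s * y - ta σ (s * y)) := by
      rw [map_mul]
      ring
    rw [h3]
    exact dvd_sub (Dvd.dvd.mul_right h2 _) h1
  | zero => rw [mul_zero]; exact Ideal.zero_mem _
  | add a b _ _ ha hb => rw [mul_add]; exact Ideal.add_mem _ ha hb
  | smul c a _ ha =>
    rw [smul_eq_mul, mul_left_comm]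
    exact Ideal.mul_mem_left _ _ ha

end gen

theorem diff_gal (F L : Type) [Field F] [NumberField F] [Field L] [NumberField L] [Algebra F L]
    [IsGalois F L] [DecidableEq (L ≃ₐ[F] L)] :
    differentIdeal (𝓞 F) (𝓞 L) =
      ∏ σ ∈ (Finset.univ : Finset (L ≃ₐ[F] L)).erase 1, Jd L (σ.restrictScalars ℚ) := by
  have hloc : ∀ Q : Ideal (𝓞 L), Q.IsMaximal → ∃ x s : 𝓞 L, s ∉ Q ∧ s ≠ 0 ∧
      ∀ y : 𝓞 L, s * y ∈ Algebra.adjoin ℤ ({x} : Set (𝓞 L)) := by
    intro Q hQ
    have hQ0 : Q ≠ ⊥ := Ring.ne_bot_of_isMaximal_of_not_isField hQ (RingOfIntegers.not_isField L)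
    obtain ⟨x, s, hs, h⟩ := exists_mono L Q hQ.isPrime hQ0
    refine ⟨x, s, hs, ?_, h⟩
    rintro rfl
    exact hs Q.zero_mem
  have hcond : ∀ x s : 𝓞 L, (∀ y : 𝓞 L, s * y ∈ Algebra.adjoin ℤ ({x} : Set (𝓞 L))) →
      s ∈ conductor (𝓞 F) x := by
    intro x s hs
    rw [mem_conductor_iff]
    exact fun b => adjoin_le x (hs b)
  apply le_antisymm
  · apply le_of_local
    intro Q hQ
    obtain ⟨x, s, hsQ, hs0, hs⟩ := hloc Q hQ
    refine ⟨s, hsQ, fun a ha => ?_⟩
    have h1 : s * a ∈ conductor (𝓞 F) x * differentIdeal (𝓞 F) (𝓞 L) :=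
      Ideal.mul_mem_mul (hcond x s hs) ha
    have hx := adjoin_top (F := F) hs0 hs
    rw [conductor_mul_differentIdeal (𝓞 F) F L x hx, aeval_deriv hx] at h1
    refine (Ideal.span_le.mpr ?_) h1
    rw [Set.singleton_subset_iff]
    apply Ideal.prod_mem_prod
    intro σ _
    rw [← neg_mem_iff, neg_sub]
    exact Ideal.subset_span ⟨x, rfl⟩
  · apply le_of_local
    intro Q hQ
    obtain ⟨x, s, hsQ, hs0, hs⟩ := hloc Q hQ
    set S := (Finset.univ : Finset (L ≃ₐ[F] L)).erase 1 with hS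
    refine ⟨s ^ S.card, fun h => hsQ (hQ.isPrime.mem_of_pow_mem _ h), fun a ha => ?_⟩
    have hx := adjoin_top (F := F) hs0 hs
    have h1 : s ^ S.card * a ∈ Ideal.span {s} ^ S.card * ∏ σ ∈ S, Jd L (σ.restrictScalars ℚ) :=
      Ideal.mul_mem_mul (Ideal.pow_mem_pow (Ideal.mem_span_singleton_self s) _) ha
    have h2 : Ideal.span {s} ^ S.card * ∏ σ ∈ S, Jd L (σ.restrictScalars ℚ) =
        ∏ σ ∈ S, (Ideal.span {s} * Jd L (σ.restrictScalars ℚ)) := by
      rw [Finset.prod_mul_distrib, Finset.prod_const]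
    have h3 : ∏ σ ∈ S, (Ideal.span {s} * Jd L (σ.restrictScalars ℚ)) ≤
        ∏ σ ∈ S, Ideal.span {x - ta σ x} := prod_mono _ _ _ fun σ _ => Jd_le hs σ
    rw [h2] at h1
    have h4 := h3 h1
    rw [Ideal.prod_span_singleton, ← aeval_deriv hx,
      ← conductor_mul_differentIdeal (𝓞 F) F L x hx] at h4
    exact Ideal.mul_le_right h4

end Pool.Agent.H73.AL
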