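import Pool.Agent.H73.AL.RelFin
import Pool.Agent.H73.AL.DiffGal

/-! # The discriminant is multiplicative in the marks

`disc_fix`: for EVERY embedding `φ : F →+* L` (`L` made an `F`-algebra by `φ`), the formula
`|disc L| = absNorm (different) * |disc F| ^ [L : F]` and `diff_gal`. Sum over all `φ`. -/

namespace Pool.Agent.H73.AL

open NumberField

private theorem card_emb (F L : Type) [Field F] [NumberField F] [Field L] [NumberField L]
    [IsGalois ℚ L] (hne : Nonempty (F →+* L)) :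
    Nat.card (F →+* L) = Module.finrank ℚ F := by
  obtain ⟨φ⟩ := hne
  let ψ : F →ₐ[ℚ] L := RingHom.equivRatAlgHom F L φ
  let pb := Field.powerBasisOfFiniteOfSeparable ℚ F
  have h1 : Nat.card (F →ₐ[ℚ] L) = pb.dim := by
    refine AlgHom.natCard_of_powerBasis pb (Algebra.IsSeparable.isSeparable ℚ pb.gen) ?_
    have h2 : minpoly ℚ (ψ pb.gen) = minpoly ℚ pb.gen := minpoly.algHom_eq ψ ψ.injective pb.gen
    rw [← h2]
    exact Normal.splits inferInstance (ψ pb.gen)
  rw [Nat.card_congr (RingHom.equivRatAlgHom F L), h1, pb.finrank]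

private theorem disc_fix (F L : Type) [Field F] [NumberField F] [Field L] [NumberField L]
    [IsGalois ℚ L] [DecidableEq (L ≃ₐ[ℚ] L)] (φ : F →+* L)
    [DecidablePred fun σ : L ≃ₐ[ℚ] L => ∀ x, σ (φ x) = φ x] :
    (Module.finrank ℚ F : ℝ) * ∑ σ ∈ ((Finset.univ : Finset (L ≃ₐ[ℚ] L)).erase 1).filter
        (fun σ => ∀ x, σ (φ x) = φ x), Real.log (Ideal.absNorm (Jd L σ) : ℝ) =
      (Module.finrank ℚ F : ℝ) * Real.log |(discr L : ℝ)| -
        (Nat.card (L ≃ₐ[ℚ] L) : ℝ) * Real.log |(discr F : ℝ)| := by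
  classical
  let _ : Algebra F L := φ.toAlgebra
  have : IsGalois F L := IsGalois.tower_top_of_isGalois ℚ F L
  have hd := natAbs_discr_eq_absNorm_differentIdeal_mul_natAbs_discr_pow F (𝓞 F) L (𝓞 L)
  rw [diff_gal F L, map_prod] at hd
  have hnz : ∀ σ : L ≃ₐ[F] L, σ ∈ (Finset.univ : Finset (L ≃ₐ[F] L)).erase 1 →
      ((Ideal.absNorm (Jd L (σ.restrictScalars ℚ)) : ℕ) : ℝ) ≠ 0 := by
    intro σ hσ
    have h1 : σ.restrictScalars ℚ ≠ 1 := by
      intro h
      refine (Finset.mem_erase.1 hσ).1 ?_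
      ext x
      exact DFunLike.congr_fun h x
    have h2 := Jd_ne_bot L (σ.restrictScalars ℚ) h1
    have h3 : Ideal.absNorm (Jd L (σ.restrictScalars ℚ)) ≠ 0 := by
      rw [Ne, Ideal.absNorm_eq_zero_iff]
      exact h2
    exact_mod_cast h3
  have hF0 : ((discr F).natAbs : ℝ) ≠ 0 := by
    exact_mod_cast (Int.natAbs_ne_zero.2 (discr_ne_zero F))
  have hlog : Real.log ((discr L).natAbs : ℝ) =
      ∑ σ ∈ (Finset.univ : Finset (L ≃ₐ[F] L)).erase 1,
        Real.log (Ideal.absNorm (Jd L (σ.restrictScalars ℚ)) : ℝ) +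
      (Module.finrank F L : ℝ) * Real.log ((discr F).natAbs : ℝ) := by
    rw [hd]
    push_cast
    rw [Real.log_mul (Finset.prod_ne_zero_iff.2 hnz) (pow_ne_zero _ hF0), Real.log_prod hnz,
      Real.log_pow]
  have eL : |(discr L : ℝ)| = ((discr L).natAbs : ℝ) := by
    rw [Nat.cast_natAbs, Int.cast_abs]
  have eF : |(discr F : ℝ)| = ((discr F).natAbs : ℝ) := by
    rw [Nat.cast_natAbs, Int.cast_abs]
  have hsum : ∑ σ ∈ ((Finset.univ : Finset (L ≃ₐ[ℚ] L)).erase 1).filter
        (fun σ => ∀ x, σ (φ x) = φ x), Real.log (Ideal.absNorm (Jd L σ) : ℝ) =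
      ∑ σ ∈ (Finset.univ : Finset (L ≃ₐ[F] L)).erase 1,
        Real.log (Ideal.absNorm (Jd L (σ.restrictScalars ℚ)) : ℝ) := by
    symm
    refine Finset.sum_bij (fun σ _ => σ.restrictScalars ℚ) ?_ ?_ ?_ ?_
    · intro σ hσ
      rw [Finset.mem_filter, Finset.mem_erase]
      refine ⟨⟨?_, Finset.mem_univ _⟩, fun x => ?_⟩
      · intro h
        refine (Finset.mem_erase.1 hσ).1 ?_
        ext x
        exact DFunLike.congr_fun h x
      · exact σ.commutes x
    · intro σ _ τ _ h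
      ext x
      exact DFunLike.congr_fun h x
    · intro σ hσ
      rw [Finset.mem_filter, Finset.mem_erase] at hσ
      refine ⟨AlgEquiv.ofRingEquiv (f := (σ : L ≃+* L)) (fun x => hσ.2 x), ?_, ?_⟩
      · rw [Finset.mem_erase]
        refine ⟨?_, Finset.mem_univ _⟩
        intro h
        refine hσ.1.1 ?_
        ext x
        exact DFunLike.congr_fun h x
      · ext x
        rfl
    · intro σ _
      rfl
  have hdeg : (Nat.card (L ≃ₐ[ℚ] L) : ℝ) = (Module.finrank ℚ F : ℝ) * (Module.finrank F L : ℝ) := by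
    rw [IsGalois.card_aut_eq_finrank, ← Nat.cast_mul, Module.finrank_mul_finrank]
  rw [hsum, eL, eF, hlog, hdeg]
  ring

theorem disc_formula (F L : Type) [Field F] [NumberField F] [Field L] [NumberField L]
    [IsGalois ℚ L] [DecidableEq (L ≃ₐ[ℚ] L)] (hne : Nonempty (F →+* L)) :
    (Nat.card (L ≃ₐ[ℚ] L) : ℝ) * Real.log |(discr F : ℝ)| =
      markL F L 1 * Real.log |(discr L : ℝ)| -
        ∑ σ ∈ (Finset.univ : Finset (L ≃ₐ[ℚ] L)).erase 1,
          markL F L σ * Real.log (Ideal.absNorm (Jd L σ) : ℝ) := by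
  classical
  have hcard := card_emb F L hne
  have h1 : ∀ σ : L ≃ₐ[ℚ] L, ((markL F L σ : ℤ) : ℝ) =
      ∑ φ : F →+* L, if ∀ x, σ (φ x) = φ x then (1 : ℝ) else 0 := by
    intro σ
    unfold markL
    rw [Finset.sum_boole, Nat.card_eq_fintype_card, Fintype.card_subtype]
    push_cast
    rfl
  have hd0 : (0 : ℝ) < Module.finrank ℚ F := by exact_mod_cast Module.finrank_pos
  have hm1 : ((markL F L 1 : ℤ) : ℝ) = (Module.finrank ℚ F : ℝ) := by
    rw [h1 1, Finset.sum_boole, ← hcard, Nat.card_eq_fintype_card, Finset.filter_true_of_mem]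
    · rfl
    · intro φ _ x
      rfl
  have hsw : ∑ σ ∈ (Finset.univ : Finset (L ≃ₐ[ℚ] L)).erase 1,
        ((markL F L σ : ℤ) : ℝ) * Real.log (Ideal.absNorm (Jd L σ) : ℝ) =
      ∑ φ : F →+* L, ∑ σ ∈ ((Finset.univ : Finset (L ≃ₐ[ℚ] L)).erase 1).filter
        (fun σ => ∀ x, σ (φ x) = φ x), Real.log (Ideal.absNorm (Jd L σ) : ℝ) := by
    simp_rw [h1, Finset.sum_mul, Finset.sum_filter]
    rw [Finset.sum_comm]
    refine Finset.sum_congr rfl fun φ _ => Finset.sum_congr rfl fun σ _ => ?_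
    split_ifs <;> simp
  have hall : ∀ φ : F →+* L, ∑ σ ∈ ((Finset.univ : Finset (L ≃ₐ[ℚ] L)).erase 1).filter
        (fun σ => ∀ x, σ (φ x) = φ x), Real.log (Ideal.absNorm (Jd L σ) : ℝ) =
      Real.log |(discr L : ℝ)| -
        (Nat.card (L ≃ₐ[ℚ] L) : ℝ) * Real.log |(discr F : ℝ)| / (Module.finrank ℚ F : ℝ) := by
    intro φ
    have := disc_fix F L φ
    field_simp
    linarith
  rw [hsw, Finset.sum_congr rfl fun φ _ => hall φ, Finset.sum_const, Finset.card_univ, nsmul_eq_mul,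
    ← Nat.card_eq_fintype_card, hcard, hm1]
  field_simp
  ring

theorem rel_disc {T : Finset ℕ} {A B : List NF} (h : Rel T A B) :
    (A.map fun F => |(discr F.F : ℝ)|).prod = (B.map fun F => |(discr F.F : ℝ)|).prod := by
  classical
  obtain ⟨L, _, _, _, hemb, hmark⟩ := rel_fin h
  have hpos : ∀ A : List NF, 0 < (A.map fun F => |(discr F.F : ℝ)|).prod := by
    intro A
    induction A with
    | nil => simp
    | cons F A ih =>
      rw [List.map_cons, List.prod_cons]
      have : (discr F.F : ℝ) ≠ 0 := by exact_mod_cast discr_ne_zero F.F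
      positivity
  have hsum : ∀ A : List NF, (∀ F ∈ A, Nonempty (F.F →+* L)) →
      (Nat.card (L ≃ₐ[ℚ] L) : ℝ) * Real.log ((A.map fun F => |(discr F.F : ℝ)|).prod) =
        (((A.map fun F => markL F.F L 1).sum : ℤ) : ℝ) * Real.log |(discr L : ℝ)| -
        ∑ σ ∈ (Finset.univ : Finset (L ≃ₐ[ℚ] L)).erase 1,
          (((A.map fun F => markL F.F L σ).sum : ℤ) : ℝ) *
            Real.log (Ideal.absNorm (Jd L σ) : ℝ) := by
    intro A
    induction A with
    | nil => simp
    | cons F A ih =>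
      intro hA
      have h1 : (discr F.F : ℝ) ≠ 0 := by exact_mod_cast discr_ne_zero F.F
      have h2 := ih fun G hG => hA G (List.mem_cons_of_mem _ hG)
      have h3 := disc_formula F.F L (hA F List.mem_cons_self)
      simp only [List.map_cons, List.prod_cons, List.sum_cons]
      rw [Real.log_mul (abs_ne_zero.2 h1) (hpos A).ne', mul_add, h2, h3]
      push_cast
      simp_rw [add_mul]
      rw [Finset.sum_add_distrib]
      ring
  have hA := hsum A fun F hF => hemb F (List.mem_append_left _ hF)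
  have hB := hsum B fun F hF => hemb F (List.mem_append_right _ hF)
  simp_rw [hmark] at hA
  rw [← hB] at hA
  have hn : (Nat.card (L ≃ₐ[ℚ] L) : ℝ) ≠ 0 := by exact_mod_cast Nat.card_pos.ne'
  exact Real.log_injOn_pos (hpos A) (hpos B) (mul_left_cancel₀ hn hA)

end Pool.Agent.H73.AL
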