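import Pool.Agent.H73.AL.Count
import Pool.Agent.HWR.HolProd
import Pool.Agent.HWR.SumNrm
import Pool.Agent.HWR.MainAux

/-! # Euler products of related lists; analytic facts about `LT`

PLAN. `Away F T v` depends only on the norm: `p ∈ v` iff `p ∣ absNorm v` for primes `p` (`p ∈ v` iff
the norm is a power of `p`; all elements of `T` are primes here). The places away from `T`
of norm `q` are all places of norm `q`, if `q` is prime to all `p ∈ T`, otherwise none. So
`LT F a T s = ∏' q : {q : ℕ // q ≠ 0 ∧ ∀ p ∈ T, ¬ p ∣ q}, efac a q s ^ cnt F q`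
(`Multipliable.tprod_sigma'` over the norm map, as in `HWR/LTExtA.lean`; finite fibres
`finite_cnt`). `rel_LT`: the exponents satisfy `rel_count`; a product over a list of convergent
infinite products is the infinite product of the products (`Multipliable.tprod_mul`, induction on
the list: first prove that for every list `∏_{F ∈ A} LT F = ∏' q, efac a q s ^ (∑_{F ∈ A} cnt F q)`).
`LT_ne`, `LT_lower`: as `tprod_mloc_ne` in `HWR/HolProd.lean`, with `efac` instead of `mloc`:
`(efac a q s)⁻¹ = 1 - a q * q ^ (-s) + q ^ (1 - 2 * s)`, and `∏' efac * ∏' efac⁻¹ = 1`;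
the product of the inverses is bounded on `Re s = 3`. -/

namespace Pool.Agent.H73.AL

open NumberField IsDedekindDomain Pool.Agent.HWR

private theorem eu_dvd {F : Type} [Field F] [NumberField F] (v : HeightOneSpectrum (𝓞 F)) (p : ℕ)
    (h : ((p : ℕ) : 𝓞 F) ∈ v.asIdeal) : nrm v ∣ p ^ Module.finrank ℤ (𝓞 F) := by
  unfold nrm
  have h1 : Ideal.span {((p : ℕ) : 𝓞 F)} ≤ v.asIdeal := by
    rw [Ideal.span_le, Set.singleton_subset_iff]
    exact h
  have h2 := Ideal.absNorm_dvd_absNorm_of_le h1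
  rw [Ideal.absNorm_span_singleton] at h2
  have h3 : ((p : ℕ) : 𝓞 F) = algebraMap ℤ (𝓞 F) (p : ℤ) := by simp
  rw [h3, Algebra.norm_algebraMap, Int.natAbs_pow, Int.natAbs_natCast] at h2
  exact h2

private theorem eu_away {F : Type} [Field F] [NumberField F] {T : Finset ℕ}
    (hTp : ∀ p ∈ T, p.Prime) (v : HeightOneSpectrum (𝓞 F)) :
    Away F T v ↔ ∀ p ∈ T, ¬ p ∣ nrm v := by
  have key : ∀ p : ℕ, p.Prime → (((p : ℕ) : 𝓞 F) ∈ v.asIdeal ↔ p ∣ nrm v) := by
    intro p hp
    constructor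
    · intro h
      obtain ⟨k, _, hk⟩ := (Nat.dvd_prime_pow hp).1 (eu_dvd v p h)
      rw [hk]
      refine dvd_pow_self p ?_
      rintro rfl
      exact nrm_ne_one v (by rw [hk, pow_zero])
    · intro h
      obtain ⟨l, hl, _, hmem⟩ := exists_prime_mem v (nrm v) (nrm_ne_zero v) (Ideal.absNorm_mem _)
      have h2 : p ∣ l := hp.dvd_of_dvd_pow (h.trans (eu_dvd v l hmem))
      rw [(Nat.prime_dvd_prime_iff_eq hp hl).1 h2]
      exact hmem
  unfold Away
  constructor
  · intro h p hp hd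
    exact h p hp ((key p (hTp p hp)).2 hd)
  · intro h p hp hd
    exact h p hp ((key p (hTp p hp)).1 hd)

/-- number of places of norm `n` away from `T` -/
private noncomputable def euc (F : Type) [Field F] [NumberField F] (T : Finset ℕ) (n : ℕ) : ℕ :=
  Nat.card {v : {v : HeightOneSpectrum (𝓞 F) // Away F T v} // nrm v.1 = n}

private theorem euc_good (F : Type) [Field F] [NumberField F] {T : Finset ℕ}
    (hTp : ∀ p ∈ T, p.Prime) {n : ℕ} (hn : ∀ p ∈ T, ¬ p ∣ n) : euc F T n = cnt F n := by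
  unfold euc cnt
  refine Nat.card_congr
    { toFun := fun v => ⟨v.1.1, v.2⟩
      invFun := fun v => ⟨⟨v.1, (eu_away hTp v.1).2 (by
        have h : nrm v.1 = n := v.2
        rw [h]
        exact hn)⟩, v.2⟩
      left_inv := fun v => rfl
      right_inv := fun v => rfl }

private theorem euc_bad (F : Type) [Field F] [NumberField F] {T : Finset ℕ}
    (hTp : ∀ p ∈ T, p.Prime) {n : ℕ} (hn : ¬ ∀ p ∈ T, ¬ p ∣ n) : euc F T n = 0 := by
  unfold euc
  have : IsEmpty {v : {v : HeightOneSpectrum (𝓞 F) // Away F T v} // nrm v.1 = n} := by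
    refine ⟨fun v => hn ?_⟩
    rw [← v.2]
    exact (eu_away hTp v.1.1).1 v.1.2
  exact Nat.card_of_isEmpty

private theorem euc_zero (F : Type) [Field F] [NumberField F] (T : Finset ℕ) : euc F T 0 = 0 := by
  unfold euc
  have : IsEmpty {v : {v : HeightOneSpectrum (𝓞 F) // Away F T v} // nrm v.1 = 0} :=
    ⟨fun v => nrm_ne_zero v.1.1 v.2⟩
  exact Nat.card_of_isEmpty

private theorem euc_finite (F : Type) [Field F] [NumberField F] (T : Finset ℕ) (n : ℕ) :
    Finite {v : {v : HeightOneSpectrum (𝓞 F) // Away F T v} // nrm v.1 = n} := by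
  rcases eq_or_ne n 0 with rfl | hn
  · have : IsEmpty {v : {v : HeightOneSpectrum (𝓞 F) // Away F T v} // nrm v.1 = 0} :=
      ⟨fun v => nrm_ne_zero v.1.1 v.2⟩
    infer_instance
  · have := finite_cnt F hn
    refine Finite.of_injective
      (fun v : {v : {v : HeightOneSpectrum (𝓞 F) // Away F T v} // nrm v.1 = n} =>
        (⟨v.1.1, v.2⟩ : {v : HeightOneSpectrum (𝓞 F) // Ideal.absNorm v.asIdeal = n})) ?_
    intro v w h
    apply Subtype.ext
    apply Subtype.ext
    exact congrArg (fun u : {v : HeightOneSpectrum (𝓞 F) // Ideal.absNorm v.asIdeal = n} => u.1) h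

private theorem eu_sum (F : Type) [Field F] [NumberField F] (T : Finset ℕ) {x : ℝ} (hx : 1 < x) :
    Summable fun v : {v : HeightOneSpectrum (𝓞 F) // Away F T v} => (nrm v.1 : ℝ) ^ (-x) :=
  (summable_nrm F hx).comp_injective (Subtype.val_injective (p := fun w => Away F T w))

private theorem eu_hasProd (F : Type) [Field F] [NumberField F] {a : ℕ → ℝ}
    (ha : ∀ q : ℕ, |a q| ≤ 2 * Real.sqrt q) {T : Finset ℕ}
    (hT : ∀ p : ℕ, p.Prime → p < 101 → p ∈ T) {s : ℂ} (hs : 3 / 2 < s.re) :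
    HasProd (fun n : ℕ => efac a n s ^ euc F T n) (LT F a T s) := by
  have h1 : HasProd (fun v : {v : HeightOneSpectrum (𝓞 F) // Away F T v} =>
      efac a (nrm v.1) s) (LT F a T s) :=
    (mult_efac ha (fun v : {v : HeightOneSpectrum (𝓞 F) // Away F T v} =>
      nrm_ge F T hT v.1 v.2) (fun x hx => eu_sum F T hx) hs).hasProd
  have h2 := (Equiv.sigmaFiberEquiv
    (fun v : {v : HeightOneSpectrum (𝓞 F) // Away F T v} => nrm v.1)).hasProd_iff.2 h1
  refine HasProd.sigma h2 fun n => ?_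
  haveI := euc_finite F T n
  haveI := Fintype.ofFinite {v : {v : HeightOneSpectrum (𝓞 F) // Away F T v} // nrm v.1 = n}
  have h3 := hasProd_fintype
    (fun v : {v : {v : HeightOneSpectrum (𝓞 F) // Away F T v} // nrm v.1 = n} =>
      efac a (nrm v.1.1) s)
  have h4 : ∏ v : {v : {v : HeightOneSpectrum (𝓞 F) // Away F T v} // nrm v.1 = n},
      efac a (nrm v.1.1) s = efac a n s ^ euc F T n := by
    rw [Finset.prod_congr rfl (fun v _ => by rw [v.2] :
      ∀ v ∈ (Finset.univ : Finset {v : {v : HeightOneSpectrum (𝓞 F) // Away F T v} //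
        nrm v.1 = n}), efac a (nrm v.1.1) s = efac a n s), Finset.prod_const, Finset.card_univ,
      ← Nat.card_eq_fintype_card]
    rfl
  rw [h4] at h3
  exact h3

private theorem eu_list (A : List NF) {a : ℕ → ℝ}
    (ha : ∀ q : ℕ, |a q| ≤ 2 * Real.sqrt q) {T : Finset ℕ}
    (hT : ∀ p : ℕ, p.Prime → p < 101 → p ∈ T) {s : ℂ} (hs : 3 / 2 < s.re) :
    HasProd (fun n : ℕ => efac a n s ^ (A.map fun F => euc F.F T n).sum)
      (A.map fun F => LT F.F a T s).prod := by
  induction A with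
  | nil => simpa using (hasProd_one : HasProd (fun _ : ℕ => (1 : ℂ)) 1)
  | cons F A ih =>
    simp only [List.map_cons, List.sum_cons, List.prod_cons, pow_add]
    exact (eu_hasProd F.F ha hT hs).mul ih

theorem rel_LT {T : Finset ℕ} {A B : List NF} (h : Rel T A B) {a : ℕ → ℝ}
    (ha : ∀ q : ℕ, |a q| ≤ 2 * Real.sqrt q) (hTp : ∀ p ∈ T, p.Prime)
    (hT : ∀ p : ℕ, p.Prime → p < 101 → p ∈ T) {s : ℂ} (hs : 3 / 2 < s.re) :
    (A.map fun F => LT F.F a T s).prod = (B.map fun F => LT F.F a T s).prod := by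
  have hc : ∀ n : ℕ, (A.map fun F => euc F.F T n).sum = (B.map fun F => euc F.F T n).sum := by
    intro n
    rcases eq_or_ne n 0 with rfl | hn
    · simp only [euc_zero]
      simp
    · by_cases hg : ∀ p ∈ T, ¬ p ∣ n
      · simp only [euc_good _ hTp hg]
        exact rel_count h n hn
      · simp only [euc_bad _ hTp hg]
        simp
  have h1 := eu_list A ha hT hs
  have h2 := eu_list B ha hT hs
  simp only [hc] at h1
  exact h1.unique h2

theorem LT_ne (F : Type) [Field F] [NumberField F] {a : ℕ → ℝ}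
    (ha : ∀ q : ℕ, |a q| ≤ 2 * Real.sqrt q) {T : Finset ℕ}
    (hT : ∀ p : ℕ, p.Prime → p < 101 → p ∈ T) {s : ℂ} (hs : 3 / 2 < s.re) : LT F a T s ≠ 0 := by
  have h1 : Summable fun v : {v : HeightOneSpectrum (𝓞 F) // Away F T v} =>
      ‖efac a (nrm v.1) s - 1‖ := by
    have h2 := (eu_sum F T (x := s.re - 1 / 2) (by linarith)).mul_left 3
    refine Summable.of_nonneg_of_le (fun _ => norm_nonneg _) (fun w => ?_) h2
    have h3 := efac_sub_one ha (nrm_ge F T hT w.1 w.2) (by linarith : 1 ≤ s.re)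
    refine h3.trans (le_of_eq ?_)
    have h4 : (1 / 2 - s.re : ℝ) = -(s.re - 1 / 2) := by ring
    rw [h4]
  have h := tprod_one_add_ne_zero_of_summable
    (f := fun v : {v : HeightOneSpectrum (𝓞 F) // Away F T v} => efac a (nrm v.1) s - 1)
    (fun v => by
      rw [add_sub_cancel]
      exact efac_ne ha (nrm_ge F T hT v.1 v.2) (by linarith)) h1
  unfold Pool.Agent.HWR.LT
  simpa only [add_sub_cancel] using h

theorem LT_lower (F : Type) [Field F] [NumberField F] {a : ℕ → ℝ}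
    (ha : ∀ q : ℕ, |a q| ≤ 2 * Real.sqrt q) {T : Finset ℕ}
    (hT : ∀ p : ℕ, p.Prime → p < 101 → p ∈ T) :
    ∃ c : ℝ, 0 < c ∧ ∀ s : ℂ, s.re = 3 → c ≤ ‖LT F a T s‖ := by
  have hsum : Summable fun v : {v : HeightOneSpectrum (𝓞 F) // Away F T v} =>
      3 * (nrm v.1 : ℝ) ^ (-(5 / 2) : ℝ) := (eu_sum F T (by norm_num)).mul_left 3
  set C : ℝ := ∑' v : {v : HeightOneSpectrum (𝓞 F) // Away F T v},
    3 * (nrm v.1 : ℝ) ^ (-(5 / 2) : ℝ) with hC
  refine ⟨Real.exp (-C), Real.exp_pos _, fun s hs => ?_⟩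
  have hs1 : 3 / 2 < s.re := by rw [hs]; norm_num
  have hw : ∀ v : {v : HeightOneSpectrum (𝓞 F) // Away F T v},
      ‖-LEst.ww a (nrm v.1) s‖ ≤ 3 * (nrm v.1 : ℝ) ^ (-(5 / 2) : ℝ) := by
    intro v
    have hq := nrm_ge F T hT v.1 v.2
    rw [norm_neg]
    have h1 := LEst.norm_ww ha hq s
    have h2 := LEst.y_bound hq (by linarith : (1 : ℝ) ≤ s.re)
    rw [hs] at h1 h2
    have h3 : (1 / 2 - 3 : ℝ) = -(5 / 2) := by norm_num
    rw [h3] at h1 h2
    have h4 : (0 : ℝ) ≤ (nrm v.1 : ℝ) ^ (-(5 / 2) : ℝ) := by positivity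
    nlinarith
  have hsw : Summable fun v : {v : HeightOneSpectrum (𝓞 F) // Away F T v} =>
      ‖-LEst.ww a (nrm v.1) s‖ := Summable.of_nonneg_of_le (fun _ => norm_nonneg _) hw hsum
  have hm := multipliable_one_add_of_summable hsw
  have he : Multipliable fun v : {v : HeightOneSpectrum (𝓞 F) // Away F T v} =>
      efac a (nrm v.1) s :=
    mult_efac ha (fun v : {v : HeightOneSpectrum (𝓞 F) // Away F T v} =>
      nrm_ge F T hT v.1 v.2) (fun x hx => eu_sum F T hx) hs1
  have hone : LT F a T s * ∏' v : {v : HeightOneSpectrum (𝓞 F) // Away F T v},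
      (1 + -LEst.ww a (nrm v.1) s) = 1 := by
    unfold Pool.Agent.HWR.LT
    rw [← he.tprod_mul hm]
    refine (tprod_congr fun v => ?_).trans
      (tprod_one (α := ℂ) (β := {v : HeightOneSpectrum (𝓞 F) // Away F T v}))
    have hne : efac a (nrm v.1) s ≠ 0 := efac_ne ha (nrm_ge F T hT v.1 v.2) (by linarith)
    rw [LEst.efac_eq] at hne ⊢
    have h5 : 1 - LEst.ww a (nrm v.1) s ≠ 0 := fun h6 => hne (by rw [h6, inv_zero])
    rw [← sub_eq_add_neg, inv_mul_cancel₀ h5]
  have hbd : ‖∏' v : {v : HeightOneSpectrum (𝓞 F) // Away F T v},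
      (1 + -LEst.ww a (nrm v.1) s)‖ ≤ Real.exp C := by
    refine le_of_tendsto' hm.hasProd.norm fun t => ?_
    have h2 := Finset.norm_prod_one_add_sub_one_le t
      (fun v : {v : HeightOneSpectrum (𝓞 F) // Away F T v} => -LEst.ww a (nrm v.1) s)
    have h3 : ∑ v ∈ t, ‖-LEst.ww a (nrm v.1) s‖ ≤ C :=
      (Finset.sum_le_sum fun v _ => hw v).trans
        (hsum.sum_le_tsum _ fun v _ => (norm_nonneg _).trans (hw v))
    have h4 := norm_le_norm_sub_add (∏ v ∈ t, (1 + -LEst.ww a (nrm v.1) s)) 1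
    rw [norm_one] at h4
    have h5 := Real.exp_le_exp.2 h3
    change ∏ v ∈ t, ‖1 + -LEst.ww a (nrm v.1) s‖ ≤ _
    rw [← _root_.norm_prod]
    linarith
  have h6 := congrArg norm hone
  rw [norm_mul, norm_one] at h6
  have h7 : 1 ≤ ‖LT F a T s‖ * Real.exp C := by
    rw [← h6]
    exact mul_le_mul_of_nonneg_left hbd (norm_nonneg _)
  have h8 : Real.exp (-C) * 1 ≤ Real.exp (-C) * (‖LT F a T s‖ * Real.exp C) :=
    mul_le_mul_of_nonneg_left h7 (Real.exp_pos _).le
  have h9 : Real.exp (-C) * (‖LT F a T s‖ * Real.exp C) = ‖LT F a T s‖ := by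
    have h10 : Real.exp (-C) * Real.exp C = 1 := by
      rw [← Real.exp_add]
      simp
    calc Real.exp (-C) * (‖LT F a T s‖ * Real.exp C)
        = ‖LT F a T s‖ * (Real.exp (-C) * Real.exp C) := by ring
      _ = ‖LT F a T s‖ := by rw [h10, mul_one]
  rw [h9, mul_one] at h8
  exact h8

end Pool.Agent.H73.AL
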