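import Pool.Agent.HWR.Defs

/-! # Lower bound for `(2 pi)^(-s) Gamma(s)` on `Re s = 3`

PLAN. `‖(2 π)^(-s)‖ = (2 π)^(-3)` on `Re s = 3`. With `s = 3 + i t`:
`Γ(3 + it) = (2 + it)(1 + it) Γ(1 + it)`, so `‖Γ(3 + it)‖ ≥ 2 ‖Γ(1 + it)‖`. For `t ≠ 0`:
`Γ(1 + it) Γ(1 - it) = it Γ(it) Γ(1 - it) = it π / sin(π i t)` (`Complex.Gamma_mul_Gamma_one_sub`),
`Γ(1 - it) = conj Γ(1 + it)` (`Complex.Gamma_conj`), so `‖Γ(1 + it)‖² = π t / sinh(π t) ≥
exp(-π |t|)` (as `sinh y ≤ y exp y` for `y ≥ 0`). So `‖Γ(3 + it)‖ ≥ exp(-π |t| / 2)`, also for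
`t = 0`. -/
namespace Pool.Agent.H73.AL

open Pool.Agent.HWR

private theorem gl_sinh {y : ℝ} (hy : 0 ≤ y) : Real.sinh y ≤ y * Real.exp y := by
  have h1 : 1 - 2 * y ≤ Real.exp (-(2 * y)) := by
    have := Real.add_one_le_exp (-(2 * y))
    linarith
  have h2 : Real.exp (-y) = Real.exp y * Real.exp (-(2 * y)) := by
    rw [← Real.exp_add]
    congr 1
    ring
  rw [Real.sinh_eq, h2]
  have h3 := Real.exp_pos y
  nlinarith [mul_le_mul_of_nonneg_left h1 h3.le]

private theorem gl_one {t : ℝ} (ht : t ≠ 0) :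
    Real.exp (-(2 * |t|)) ≤ ‖Complex.Gamma ((t : ℂ) * Complex.I + 1)‖ := by
  set z : ℂ := (t : ℂ) * Complex.I with hz
  have hz0 : z ≠ 0 := by
    rw [hz]
    exact mul_ne_zero (by exact_mod_cast ht) Complex.I_ne_zero
  set a : ℝ := ‖Complex.Gamma (z + 1)‖ with ha
  have h1 : Complex.Gamma (z + 1) = z * Complex.Gamma z := Complex.Gamma_add_one z hz0
  have h2 := Complex.Gamma_mul_Gamma_one_sub z
  have h3 : Complex.Gamma (1 - z) = (starRingEnd ℂ) (Complex.Gamma (z + 1)) := by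
    rw [← Complex.Gamma_conj]
    congr 1
    rw [hz]
    simp
    ring
  have h4 : Complex.sin (Real.pi * z) = Complex.sinh ((Real.pi * t : ℝ) : ℂ) * Complex.I := by
    rw [← Complex.sin_mul_I, hz]
    congr 1
    push_cast
    ring
  have h5 : a ^ 2 = |t| * (Real.pi / |Real.sinh (Real.pi * t)|) := by
    have h6 : Complex.Gamma (z + 1) * Complex.Gamma (1 - z) =
        z * (Real.pi / Complex.sin (Real.pi * z)) := by
      rw [h1, mul_assoc, h2]
    have hsin : ‖Complex.sin (Real.pi * z)‖ = |Real.sinh (Real.pi * t)| := by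
      rw [h4, norm_mul, Complex.norm_I, mul_one, ← Complex.ofReal_sinh, Complex.norm_real,
        Real.norm_eq_abs]
    have h8 : ‖z‖ = |t| := by
      rw [hz, norm_mul, Complex.norm_I, mul_one, Complex.norm_real, Real.norm_eq_abs]
    have h7 := congrArg norm h6
    rw [norm_mul, norm_mul, norm_div, h8, hsin, h3, Complex.norm_conj, Complex.norm_real,
      Real.norm_eq_abs, abs_of_pos Real.pi_pos] at h7
    rw [pow_two]
    exact h7
  have htp : 0 < |t| := abs_pos.2 ht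
  have hy : 0 < Real.pi * |t| := mul_pos Real.pi_pos htp
  have h9 : |Real.sinh (Real.pi * t)| = Real.sinh (Real.pi * |t|) := by
    rw [Real.abs_sinh, abs_mul, abs_of_pos Real.pi_pos]
  have h10 : 0 < Real.sinh (Real.pi * |t|) := Real.sinh_pos_iff.2 hy
  have h11 : Real.exp (-(Real.pi * |t|)) ≤ a ^ 2 := by
    rw [h5, h9, ← mul_div_assoc, le_div_iff₀ h10]
    have h12 := gl_sinh hy.le
    have h13 := Real.exp_pos (-(Real.pi * |t|))
    calc Real.exp (-(Real.pi * |t|)) * Real.sinh (Real.pi * |t|)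
        ≤ Real.exp (-(Real.pi * |t|)) * (Real.pi * |t| * Real.exp (Real.pi * |t|)) :=
          mul_le_mul_of_nonneg_left h12 h13.le
      _ = Real.pi * |t| * (Real.exp (-(Real.pi * |t|)) * Real.exp (Real.pi * |t|)) := by ring
      _ = |t| * Real.pi := by
          rw [← Real.exp_add, neg_add_cancel, Real.exp_zero]
          ring
  have h14 : Real.exp (-(2 * |t|)) ^ 2 ≤ a ^ 2 := by
    refine le_trans ?_ h11
    rw [← Real.exp_nat_mul, Real.exp_le_exp]
    have := Real.pi_le_four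
    push_cast
    nlinarith
  exact le_of_sq_le_sq h14 (norm_nonneg _)

theorem gam1_lower : ∃ c : ℝ, 0 < c ∧ ∀ s : ℂ, s.re = 3 →
    c * Real.exp (-(2 * |s.im|)) ≤ ‖gam1 s‖ := by
  refine ⟨(2 * Real.pi) ^ (-3 : ℝ), by positivity, fun s hs => ?_⟩
  unfold gam1
  have h1 : ‖((2 * Real.pi : ℂ)) ^ (-s)‖ = (2 * Real.pi) ^ (-3 : ℝ) := by
    have h2 : (2 * Real.pi : ℂ) = ((2 * Real.pi : ℝ) : ℂ) := by push_cast; ring
    rw [h2, Complex.norm_cpow_eq_rpow_re_of_pos (by positivity), Complex.neg_re, hs]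
  rw [norm_mul, h1]
  refine mul_le_mul_of_nonneg_left ?_ (by positivity)
  set t := s.im with ht
  have hs2 : s = (t : ℂ) * Complex.I + 3 := by
    apply Complex.ext
    · simp [hs]
    · simp [ht]
  by_cases h0 : t = 0
  · rw [hs2, h0]
    have h3 : Complex.Gamma (((0 : ℝ) : ℂ) * Complex.I + 3) = 2 := by
      have := Complex.Gamma_nat_eq_factorial 2
      have h4 : (((0 : ℝ) : ℂ) * Complex.I + 3) = ((2 : ℕ) : ℂ) + 1 := by
        push_cast
        ring
      rw [h4, this]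
      norm_num
    rw [h3]
    simp
  · have h5 := gl_one h0
    have hne1 : (t : ℂ) * Complex.I + 1 ≠ 0 := by
      intro h
      have := congrArg Complex.re h
      simp at this
    have hne2 : (t : ℂ) * Complex.I + 2 ≠ 0 := by
      intro h
      have := congrArg Complex.re h
      simp at this
    have h6 : Complex.Gamma s = ((t : ℂ) * Complex.I + 2) * (((t : ℂ) * Complex.I + 1) *
        Complex.Gamma ((t : ℂ) * Complex.I + 1)) := by
      rw [← Complex.Gamma_add_one _ hne1]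
      have e : (t : ℂ) * Complex.I + 1 + 1 = (t : ℂ) * Complex.I + 2 := by ring
      rw [e, ← Complex.Gamma_add_one _ hne2, hs2]
      congr 1
      ring
    rw [h6, norm_mul, norm_mul]
    have h7 : 1 ≤ ‖(t : ℂ) * Complex.I + 2‖ := by
      have := Complex.abs_re_le_norm ((t : ℂ) * Complex.I + 2)
      simp at this
      linarith
    have h8 : 1 ≤ ‖(t : ℂ) * Complex.I + 1‖ := by
      have := Complex.abs_re_le_norm ((t : ℂ) * Complex.I + 1)
      simp at this
      linarith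
    have h9 := norm_nonneg (Complex.Gamma ((t : ℂ) * Complex.I + 1))
    have h10 : ‖Complex.Gamma ((t : ℂ) * Complex.I + 1)‖ ≤
        ‖(t : ℂ) * Complex.I + 1‖ * ‖Complex.Gamma ((t : ℂ) * Complex.I + 1)‖ :=
      le_mul_of_one_le_left h9 h8
    have h11 : ‖(t : ℂ) * Complex.I + 1‖ * ‖Complex.Gamma ((t : ℂ) * Complex.I + 1)‖ ≤
        ‖(t : ℂ) * Complex.I + 2‖ *
          (‖(t : ℂ) * Complex.I + 1‖ * ‖Complex.Gamma ((t : ℂ) * Complex.I + 1)‖) :=
      le_mul_of_one_le_left (by positivity) h7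
    linarith

end Pool.Agent.H73.AL
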