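import Pool.Agent.H73.AL.Defs

/-! # Degrees and real places of related lists

PLAN. `rel_finrank`: `mark F ⊥ = Nat.card (F →+* AlgebraicClosure ℚ) = [F : ℚ]` (`DU.pch_bot`,
`NumberField.Embeddings.card`), `⊥ ∈ famT T` (cyclic).
`rel_real`: let `i : AlgebraicClosure ℚ →+* ℂ` be an embedding (`IsAlgClosed.lift`, as
in `DU.emb`) and `c : GQ` with `i (c x) = conj (i x)` (the image of `i` is the field of algebraic
numbers, stable under conjugation, or `AlgEquiv`/`Normal` restriction; or: `conj ∘ i` is
another embedding and embeddings of `AlgebraicClosure ℚ` in `ℂ` differ by an automorphism).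
Composition with `i` is a bijection from `F →+* AlgebraicClosure ℚ` to `F →+* ℂ` (finite sets of the
same cardinality, or injective and surjective) and `c • φ = φ` iff `i ∘ φ` is real
(`ComplexEmbedding.IsReal`). So `mark F (zpowers c) = #{real embeddings} = nrRealPlaces F`
(`InfinitePlace.card_real_embeddings`-type lemma; `ComplexEmbedding`).
`rel_complex`: `nrRealPlaces + 2 * nrComplexPlaces = finrank` (`card_add_two_mul_card_eq_rank`). -/

namespace Pool.Agent.H73.AL

open NumberField

open Pool.Agent.H73.DU

private theorem alg_cl (inst : Algebra ℚ (AlgebraicClosure ℚ)) :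
    IsAlgClosure ℚ (AlgebraicClosure ℚ) := by
  have h : inst = AlgebraicClosure.instAlgebra ℚ := Subsingleton.elim _ _
  subst h
  infer_instance

private theorem sum_cast (A : List NF) (m : NF → ℕ) (U : Subgroup GQ)
    (hm : ∀ F : NF, mark F.F U = (m F : ℤ)) :
    (A.map fun F => mark F.F U).sum = (((A.map m).sum : ℕ) : ℤ) := by
  induction A with
  | nil => simp
  | cons F A ih =>
    rw [List.map_cons, List.sum_cons, List.map_cons, List.sum_cons, ih, hm]
    push_cast
    rfl

private theorem rel_cast {T : Finset ℕ} {A B : List NF} (h : Rel T A B) (m : NF → ℕ)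
    (c : GQ) (hm : ∀ F : NF, mark F.F (Subgroup.zpowers c) = (m F : ℤ)) :
    (A.map m).sum = (B.map m).sum := by
  have h1 := h (Subgroup.zpowers c) (Or.inl ⟨c, rfl⟩)
  rw [sum_cast A m _ hm, sum_cast B m _ hm] at h1
  exact_mod_cast h1

private theorem card_emb (F : Type) [Field F] [NumberField F] :
    Nat.card (F →+* AlgebraicClosure ℚ) = Module.finrank ℚ F := by
  rw [Nat.card_eq_fintype_card]
  exact NumberField.Embeddings.card F (AlgebraicClosure ℚ)

theorem rel_finrank {T : Finset ℕ} {A B : List NF} (h : Rel T A B) :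
    (A.map fun F => Module.finrank ℚ F.F).sum = (B.map fun F => Module.finrank ℚ F.F).sum := by
  refine rel_cast h (fun F => Module.finrank ℚ F.F) 1 ?_
  intro F
  rw [Subgroup.zpowers_one_eq_bot]
  unfold mark
  rw [pch_bot, card_emb]

private theorem exists_conj : ∃ (i : AlgebraicClosure ℚ →+* ℂ) (c : GQ),
    ∀ x, i (c x) = starRingEnd ℂ (i x) := by
  have h1 : IsAlgClosure ℚ (AlgebraicClosure ℚ) := alg_cl inferInstance
  have h2 : Algebra.IsAlgebraic ℚ (AlgebraicClosure ℚ) := h1.isAlgebraic
  have h3 : Normal ℚ (AlgebraicClosure ℚ) := IsAlgClosure.normal ℚ _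
  let i : AlgebraicClosure ℚ →ₐ[ℚ] ℂ := IsAlgClosed.lift
  let _ : Algebra (AlgebraicClosure ℚ) ℂ := i.toRingHom.toAlgebra
  have : IsScalarTower ℚ (AlgebraicClosure ℚ) ℂ :=
    IsScalarTower.of_algebraMap_eq fun x => (i.commutes x).symm
  let χ : ℂ ≃ₐ[ℚ] ℂ := AlgEquiv.ofRingEquiv (f := starRingAut) (fun r => by simp)
  refine ⟨i.toRingHom, χ.restrictNormal (AlgebraicClosure ℚ), ?_⟩
  intro x
  exact AlgEquiv.restrictNormal_commutes χ (AlgebraicClosure ℚ) x

private theorem mark_real (i : AlgebraicClosure ℚ →+* ℂ) (c : GQ)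
    (hc : ∀ x, i (c x) = starRingEnd ℂ (i x)) (F : Type) [Field F] [NumberField F] :
    mark F (Subgroup.zpowers c) = (InfinitePlace.nrRealPlaces F : ℤ) := by
  unfold mark pch
  classical
  rw [← InfinitePlace.card_real_embeddings (K := F), ← Nat.card_eq_fintype_card]
  congr 1
  have hinj : Function.Injective (fun φ : F →+* AlgebraicClosure ℚ => i.comp φ) := by
    intro φ ψ h
    ext x
    have := RingHom.congr_fun h x
    exact i.injective this
  have hbij : Function.Bijective (fun φ : F →+* AlgebraicClosure ℚ => i.comp φ) := by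
    rw [Fintype.bijective_iff_injective_and_card]
    refine ⟨hinj, ?_⟩
    rw [NumberField.Embeddings.card F (AlgebraicClosure ℚ), NumberField.Embeddings.card F ℂ]
  have hiff : ∀ φ : F →+* AlgebraicClosure ℚ,
      φ ∈ fx (F →+* AlgebraicClosure ℚ) (Subgroup.zpowers c) ↔
        ComplexEmbedding.IsReal (i.comp φ) := by
    intro φ
    rw [fx_zpowers, ComplexEmbedding.isReal_iff]
    constructor
    · intro h
      ext x
      have h1 : c (φ x) = φ x := by
        rw [← smul_emb, h]
      show starRingEnd ℂ (i (φ x)) = i (φ x)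
      rw [← hc, h1]
    · intro h
      ext x
      rw [smul_emb]
      apply i.injective
      rw [hc]
      exact RingHom.congr_fun h x
  exact Nat.card_congr ((Equiv.ofBijective _ hbij).subtypeEquiv hiff)

theorem rel_real {T : Finset ℕ} {A B : List NF} (h : Rel T A B) :
    (A.map fun F => InfinitePlace.nrRealPlaces F.F).sum =
      (B.map fun F => InfinitePlace.nrRealPlaces F.F).sum := by
  obtain ⟨i, c, hc⟩ := exists_conj
  exact rel_cast h (fun F => InfinitePlace.nrRealPlaces F.F) c fun F => mark_real i c hc F.F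

private theorem sum_places (A : List NF) :
    (A.map fun F => InfinitePlace.nrRealPlaces F.F).sum +
      2 * (A.map fun F => InfinitePlace.nrComplexPlaces F.F).sum =
      (A.map fun F => Module.finrank ℚ F.F).sum := by
  induction A with
  | nil => simp
  | cons F A ih =>
    rw [List.map_cons, List.sum_cons, List.map_cons, List.sum_cons, List.map_cons, List.sum_cons,
      ← ih, ← InfinitePlace.card_add_two_mul_card_eq_rank F.F]
    ring

theorem rel_complex {T : Finset ℕ} {A B : List NF} (h : Rel T A B) :
    (A.map fun F => InfinitePlace.nrComplexPlaces F.F).sum =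
      (B.map fun F => InfinitePlace.nrComplexPlaces F.F).sum := by
  have h1 := sum_places A
  have h2 := sum_places B
  have h3 := rel_real h
  have h4 := rel_finrank h
  omega

end Pool.Agent.H73.AL
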