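import Pool.Agent.H73.AL.Extract
import Pool.Agent.H73.AL.AlgRel
import Pool.Agent.H73.AL.Real
import Pool.Agent.H73.AL.DiscRel
import Pool.Agent.H73.AL.Euler
import Pool.Agent.H73.AL.GamLow
import Pool.Agent.QD.KDefs

/-! # Meromorphic Hasse-Weil for all fields from the fields of degree divisible by `M` -/

namespace Pool.Agent.H73.AL

open NumberField IsDedekindDomain Pool.Agent.HWR Pool.Agent.QD Pool.Agent.H73.DU

open scoped TensorProduct

variable {T : Finset ℕ} (D : LocData T)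

theorem punit_iso (k : Type) [Field k] : Nonempty ((PUnit × PUnit) ≃ₐ[k] PUnit) := by
  refine ⟨AlgEquiv.ofRingEquiv (f := RingEquiv.ofBijective
      ({ toFun := fun _ => PUnit.unit, map_one' := rfl, map_mul' := fun _ _ => rfl,
         map_zero' := rfl, map_add' := fun _ _ => rfl } : PUnit × PUnit →+* PUnit)
      ⟨?_, fun _ => ⟨(PUnit.unit, PUnit.unit), rfl⟩⟩) fun _ => rfl⟩
  rintro ⟨⟨⟩, ⟨⟩⟩ ⟨⟨⟩, ⟨⟩⟩ _
  rfl

theorem sgn_punit (p : ℕ) [Fact p.Prime] : D.sgn p PUnit = 1 := by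
  have h1 : D.sgn p (PUnit × PUnit) = D.sgn p PUnit :=
    D.sgn_iso p _ _ (punit_iso _)
  rw [D.sgn_prod] at h1
  rcases D.sgn_sq p PUnit with h | h
  · exact h
  · rw [h] at h1
    norm_num at h1

theorem cond_punit (p : ℕ) [Fact p.Prime] : D.cond p PUnit = 1 := by
  have h1 : D.cond p (PUnit × PUnit) = D.cond p PUnit :=
    D.cond_iso p _ _ (punit_iso _)
  rw [D.cond_prod] at h1
  have h2 := D.cond_pos p PUnit
  exact mul_left_cancel₀ h2.ne' (by rw [h1, mul_one])

theorem pol_punit (p : ℕ) [Fact p.Prime] : D.pol p PUnit = 1 := by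
  have h1 : D.pol p (PUnit × PUnit) = D.pol p PUnit :=
    D.pol_iso p _ _ (punit_iso _)
  rw [D.pol_prod] at h1
  have h2 : D.pol p PUnit ≠ 0 := by
    intro h
    have := D.pol_zero p PUnit
    rw [h] at this
    simp at this
  exact mul_left_cancel₀ h2 (by rw [h1, mul_one])

/-- a product over the primes of `T` is multiplicative on related lists -/
theorem rel_T {W : Type} [CommMonoid W] {A B : List NF}
    (Φ : NF → ℕ → W) (hΦ : ∀ p ∈ T, (A.map fun F => Φ F p).prod =
      (B.map fun F => Φ F p).prod) :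
    (A.map fun F => ∏ p ∈ T, Φ F p).prod = (B.map fun F => ∏ p ∈ T, Φ F p).prod := by
  have key : ∀ C : List NF, (C.map fun F => ∏ p ∈ T, Φ F p).prod =
      ∏ p ∈ T, (C.map fun F => Φ F p).prod := by
    intro C
    induction C with
    | nil => simp
    | cons F C ih =>
      rw [List.map_cons, List.prod_cons, ih, ← Finset.prod_mul_distrib]
      exact Finset.prod_congr rfl fun p _ => by rw [List.map_cons, List.prod_cons]
  rw [key, key]
  exact Finset.prod_congr rfl hΦ

theorem rel_sg {A B : List NF} (h : Rel T A B) :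
    (A.map fun F => D.sg F.F).prod = (B.map fun F => D.sg F.F).prod := by
  classical
  unfold LocData.sg
  refine rel_T _ fun p hp => ?_
  by_cases hpp : p.Prime
  · haveI := Fact.mk hpp
    simp only [hpp, dif_pos]
    exact rel_loc h p hp (fun R _ _ => D.sgn p R) (fun R R' _ _ _ _ _ _ e => D.sgn_iso p R R' e)
      (fun R R' _ _ _ _ _ _ => D.sgn_prod p R R') (sgn_punit D p)
  · simp [hpp]

theorem rel_cd {A B : List NF} (h : Rel T A B) :
    (A.map fun F => D.cd F.F).prod = (B.map fun F => D.cd F.F).prod := by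
  classical
  unfold LocData.cd
  refine rel_T _ fun p hp => ?_
  by_cases hpp : p.Prime
  · haveI := Fact.mk hpp
    simp only [hpp, dif_pos]
    exact rel_loc h p hp (fun R _ _ => D.cond p R) (fun R R' _ _ _ _ _ _ e => D.cond_iso p R R' e)
      (fun R R' _ _ _ _ _ _ => D.cond_prod p R R') (cond_punit D p)
  · simp [hpp]

theorem rel_pl {A B : List NF} (h : Rel T A B) (s : ℂ) :
    (A.map fun F => D.pl F.F s).prod = (B.map fun F => D.pl F.F s).prod := by
  classical
  unfold LocData.pl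
  refine rel_T _ fun p hp => ?_
  by_cases hpp : p.Prime
  · haveI := Fact.mk hpp
    simp only [hpp, dif_pos]
    refine rel_loc h p hp (fun R _ _ => (D.pol p R).eval ((p : ℂ) ^ (-s)))
      (fun R R' _ _ _ _ _ _ e => by rw [D.pol_iso p R R' e])
      (fun R R' _ _ _ _ _ _ => by rw [D.pol_prod p R R', Polynomial.eval_mul]) ?_
    rw [pol_punit, Polynomial.eval_one]
  · simp [hpp]

theorem cd_pos (F : Type) [Field F] [NumberField F] : 0 < D.cd F := by
  classical
  unfold LocData.cd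
  refine Finset.prod_pos fun p _ => ?_
  by_cases hpp : p.Prime
  · haveI := Fact.mk hpp
    simp only [hpp, dif_pos]
    exact D.cond_pos p _
  · simp [hpp]

theorem A_pos (F : Type) [Field F] [NumberField F] : 0 < D.A F := by
  unfold LocData.A
  refine mul_pos ?_ (cd_pos D F)
  have : (discr F : ℝ) ≠ 0 := by exact_mod_cast discr_ne_zero F
  positivity

theorem rel_A {A B : List NF} (h : Rel T A B) :
    (A.map fun F => D.A F.F).prod = (B.map fun F => D.A F.F).prod := by
  have key : ∀ C : List NF, (C.map fun F => D.A F.F).prod =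
      (C.map fun F => |(discr F.F : ℝ)|).prod ^ 2 * (C.map fun F => D.cd F.F).prod := by
    intro C
    induction C with
    | nil => simp
    | cons F C ih =>
      simp only [List.map_cons, List.prod_cons, ih]
      unfold LocData.A
      rw [← sq_abs (discr F.F : ℝ)]
      ring
  rw [key, key, rel_disc h, rel_cd D h]

theorem rel_w {A B : List NF} (h : Rel T A B) :
    (A.map fun F => D.w F.F).prod = (B.map fun F => D.w F.F).prod := by
  have key : ∀ C : List NF, (C.map fun F => D.w F.F).prod =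
      (-1) ^ ((C.map fun F => InfinitePlace.nrRealPlaces F.F).sum +
        (C.map fun F => InfinitePlace.nrComplexPlaces F.F).sum) *
        (((C.map fun F => D.sg F.F).prod : ℤ) : ℂ) := by
    intro C
    induction C with
    | nil => simp
    | cons F C ih =>
      simp only [List.map_cons, List.prod_cons, List.sum_cons, ih]
      unfold LocData.w
      push_cast
      simp only [pow_add]
      ring
  rw [key, key, rel_real h, rel_complex h, rel_sg D h]

theorem pl_ne (hTp : ∀ p ∈ T, p.Prime) (F : Type) [Field F] [NumberField F] {s : ℂ}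
    (hs : 1 / 2 < s.re) : D.pl F s ≠ 0 := by
  classical
  unfold LocData.pl
  refine Finset.prod_ne_zero_iff.2 fun p hp => ?_
  have hpp := hTp p hp
  haveI := Fact.mk hpp
  simp only [hpp, dif_pos]
  intro h
  have h1 := D.pol_root p _ _ h
  rw [Complex.norm_natCast_cpow_of_pos hpp.pos, Complex.neg_re] at h1
  have h2 : (1 : ℝ) < p := by exact_mod_cast hpp.one_lt
  have h3 := (Real.rpow_lt_rpow_left_iff h2).2 (show -s.re < -(1 / 2) by linarith)
  linarith

theorem w_sq (F : Type) [Field F] [NumberField F] : D.w F = 1 ∨ D.w F = -1 := by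
  classical
  have h1 : D.sg F = 1 ∨ D.sg F = -1 := by
    unfold LocData.sg
    have : ∀ S : Finset ℕ, (∏ p ∈ S, if h : p.Prime then haveI := Fact.mk h;
        D.sgn p (ℚ_[p] ⊗[ℚ] F) else 1) = 1 ∨ (∏ p ∈ S, if h : p.Prime then haveI := Fact.mk h;
        D.sgn p (ℚ_[p] ⊗[ℚ] F) else 1) = -1 := by
      intro S
      induction S using Finset.induction_on with
      | empty => left; simp
      | insert p S hp ih =>
        rw [Finset.prod_insert hp]
        have h2 : (if h : p.Prime then haveI := Fact.mk h;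
          D.sgn p (ℚ_[p] ⊗[ℚ] F) else 1) = 1 ∨ (if h : p.Prime then haveI := Fact.mk h;
          D.sgn p (ℚ_[p] ⊗[ℚ] F) else 1) = -1 := by
          by_cases hpp : p.Prime
          · haveI := Fact.mk hpp
            simp only [hpp, dif_pos]
            exact D.sgn_sq p _
          · left; simp [hpp]
        rcases h2 with h2 | h2 <;> rcases ih with h3 | h3 <;> rw [h2, h3] <;> simp
    exact this T
  unfold LocData.w
  rcases neg_one_pow_eq_or ℂ (InfinitePlace.nrRealPlaces F + InfinitePlace.nrComplexPlaces F) with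
    h2 | h2 <;> rcases h1 with h3 | h3 <;> rw [h2, h3] <;> simp

/-- the product of the completed functions -/
theorem rel_Lam (hTp : ∀ p ∈ T, p.Prime) (hT : ∀ p : ℕ, p.Prime → p < 101 → p ∈ T) {a : ℕ → ℝ}
    (ha : ∀ q : ℕ, |a q| ≤ 2 * Real.sqrt q) {A B : List NF} (h : Rel T A B) {s : ℂ}
    (hs : 3 / 2 < s.re) :
    (A.map fun F => D.Lam a F.F s).prod = (B.map fun F => D.Lam a F.F s).prod := by
  have key : ∀ C : List NF, (C.map fun F => D.Lam a F.F s).prod =
      ((((C.map fun F => D.A F.F).prod : ℝ)) : ℂ) ^ (s / 2) *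
        gam1 s ^ (C.map fun F => Module.finrank ℚ F.F).sum *
        ((C.map fun F => LT F.F a T s).prod / (C.map fun F => D.pl F.F s).prod) := by
    intro C
    induction C with
    | nil => simp
    | cons F C ih =>
      simp only [List.map_cons, List.prod_cons, List.sum_cons, ih]
      unfold LocData.Lam
      have hpos : 0 ≤ (C.map fun F => D.A F.F).prod := by
        apply List.prod_nonneg
        intro x hx
        obtain ⟨F', _, rfl⟩ := List.mem_map.1 hx
        exact (A_pos D F'.F).le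
      rw [Complex.ofReal_mul, Complex.mul_cpow_ofReal_nonneg (A_pos D F.F).le hpos, pow_add,
        mul_div_mul_comm]
      ring
  rw [key, key, rel_A D h, rel_finrank h, rel_LT h ha hTp hT hs, rel_pl D h]

/-- finite order is multiplicative -/
theorem finOrd_mul {f g : ℂ → ℂ} (hf : FinOrd f) (hg : FinOrd g) : FinOrd fun s => f s * g s := by
  intro a b
  obtain ⟨A1, C1, h1⟩ := hf a b
  obtain ⟨A2, C2, h2⟩ := hg a b
  refine ⟨max A1 A2, |C1| + |C2|, fun s hs1 hs2 => ?_⟩
  have h3 : (1 : ℝ) ≤ 1 + |s.im| := by linarith [abs_nonneg s.im]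
  rw [norm_mul, add_mul, Real.exp_add]
  have h4 : C1 * (1 + |s.im|) ^ A1 ≤ |C1| * (1 + |s.im|) ^ (max A1 A2) :=
    mul_le_mul (le_abs_self _) (Real.rpow_le_rpow_of_exponent_le h3 (le_max_left _ _))
      (by positivity) (abs_nonneg _)
  have h5 : C2 * (1 + |s.im|) ^ A2 ≤ |C2| * (1 + |s.im|) ^ (max A1 A2) :=
    mul_le_mul (le_abs_self _) (Real.rpow_le_rpow_of_exponent_le h3 (le_max_right _ _))
      (by positivity) (abs_nonneg _)
  exact mul_le_mul ((h1 s hs1 hs2).trans (Real.exp_le_exp.2 h4))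
    ((h2 s hs1 hs2).trans (Real.exp_le_exp.2 h5)) (norm_nonneg _) (Real.exp_nonneg _)

theorem finOrd_one : FinOrd fun _ => 1 := by
  intro a b
  refine ⟨0, 0, fun s _ _ => ?_⟩
  simp

/-- bound for the local polynomials -/
theorem pl_upper (hTp : ∀ p ∈ T, p.Prime) (F : Type) [Field F] [NumberField F] :
    ∃ C : ℝ, 0 < C ∧ ∀ s : ℂ, s.re = 3 → ‖D.pl F s‖ ≤ C := by
  classical
  unfold LocData.pl
  have key : ∀ S : Finset ℕ, (∀ p ∈ S, p.Prime) → ∃ C : ℝ, 0 < C ∧ ∀ s : ℂ, s.re = 3 →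
      ‖∏ p ∈ S, (if h : p.Prime then haveI := Fact.mk h;
        (D.pol p (ℚ_[p] ⊗[ℚ] F)).eval ((p : ℂ) ^ (-s)) else 1)‖ ≤ C := by
    intro S
    induction S using Finset.induction_on with
    | empty => exact fun _ => ⟨1, one_pos, fun s _ => by simp⟩
    | insert p S hp ih =>
      intro hS
      obtain ⟨C, hC, h1⟩ := ih fun q hq => hS q (Finset.mem_insert_of_mem hq)
      have hpp := hS p (Finset.mem_insert_self _ _)
      haveI := Fact.mk hpp
      obtain ⟨C', hC'⟩ := (isCompact_closedBall (0 : ℂ) 1).exists_bound_of_continuousOn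
        (f := fun z => (D.pol p (ℚ_[p] ⊗[ℚ] F)).eval z)
        (Polynomial.continuous _).continuousOn
      refine ⟨(|C'| + 1) * C, by positivity, fun s hs => ?_⟩
      rw [Finset.prod_insert hp, norm_mul]
      refine mul_le_mul ?_ (h1 s hs) (norm_nonneg _) (by positivity)
      simp only [hpp, dif_pos]
      refine (hC' _ ?_).trans ((le_abs_self _).trans (by linarith))
      rw [mem_closedBall_zero_iff, Complex.norm_natCast_cpow_of_pos hpp.pos, Complex.neg_re, hs]
      exact Real.rpow_le_one_of_one_le_of_nonpos (by exact_mod_cast hpp.one_lt.le) (by norm_num)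
  exact key T hTp

/-- nonvanishing and lower bound for the completed function -/
theorem Lam_ne (hTp : ∀ p ∈ T, p.Prime) (hT : ∀ p : ℕ, p.Prime → p < 101 → p ∈ T) {a : ℕ → ℝ}
    (ha : ∀ q : ℕ, |a q| ≤ 2 * Real.sqrt q) (F : Type) [Field F] [NumberField F] {s : ℂ}
    (hs : 3 / 2 < s.re) : D.Lam a F s ≠ 0 := by
  unfold LocData.Lam
  refine mul_ne_zero (mul_ne_zero ?_ (pow_ne_zero _ (gam1_ne (by linarith))))
    (div_ne_zero (LT_ne F ha hT hs) (pl_ne D hTp F (by linarith)))
  rw [Ne, Complex.cpow_eq_zero_iff]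
  intro h
  exact (A_pos D F).ne' (by exact_mod_cast h.1)

theorem Lam_lower (hTp : ∀ p ∈ T, p.Prime) (hT : ∀ p : ℕ, p.Prime → p < 101 → p ∈ T) {a : ℕ → ℝ}
    (ha : ∀ q : ℕ, |a q| ≤ 2 * Real.sqrt q) (F : Type) [Field F] [NumberField F] :
    ∃ c : ℝ, 0 < c ∧ ∃ N : ℝ, 0 ≤ N ∧ ∀ s : ℂ, s.re = 3 →
      c * Real.exp (-(N * |s.im|)) ≤ ‖D.Lam a F s‖ := by
  obtain ⟨c1, hc1, h1⟩ := gam1_lower
  obtain ⟨c2, hc2, h2⟩ := LT_lower F ha hT
  obtain ⟨C3, hC3, h3⟩ := pl_upper D hTp F
  set n := Module.finrank ℚ F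
  refine ⟨(D.A F) ^ (3 / 2 : ℝ) * c1 ^ n * (c2 / C3), by have := A_pos D F; positivity,
    2 * n, by positivity, fun s hs => ?_⟩
  unfold LocData.Lam
  rw [norm_mul, norm_mul, norm_div, norm_pow, Complex.norm_cpow_eq_rpow_re_of_pos (A_pos D F)]
  have h4 : (s / 2).re = 3 / 2 := by
    rw [Complex.div_ofNat_re, hs]
  rw [h4]
  have h5 : Real.exp (-(2 * n * |s.im|)) = Real.exp (-(2 * |s.im|)) ^ n := by
    rw [← Real.exp_nat_mul]
    congr 1
    ring
  have h6 : c1 ^ n * Real.exp (-(2 * n * |s.im|)) ≤ ‖gam1 s‖ ^ n := by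
    rw [h5, ← mul_pow]
    exact pow_le_pow_left₀ (by positivity) (h1 s hs) n
  have h7 : c2 / C3 ≤ ‖LT F a T s‖ / ‖D.pl F s‖ :=
    div_le_div₀ (norm_nonneg _) (h2 s hs)
      (norm_pos_iff.2 (pl_ne D hTp F (by rw [hs]; norm_num))) (h3 s hs)
  have h8 : 0 ≤ (D.A F) ^ (3 / 2 : ℝ) := Real.rpow_nonneg (A_pos D F).le _
  calc (D.A F) ^ (3 / 2 : ℝ) * c1 ^ n * (c2 / C3) * Real.exp (-(2 * n * |s.im|))
      = (D.A F) ^ (3 / 2 : ℝ) * (c1 ^ n * Real.exp (-(2 * n * |s.im|))) * (c2 / C3) := by ring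
    _ ≤ _ := mul_le_mul (mul_le_mul_of_nonneg_left h6 h8) h7 (by positivity) (by positivity)

/-- the product over a list of fields satisfying Hasse-Weil -/
theorem list_HW (hTp : ∀ p ∈ T, p.Prime) (hT : ∀ p : ℕ, p.Prime → p < 101 → p ∈ T) {a : ℕ → ℝ}
    (ha : ∀ q : ℕ, |a q| ≤ 2 * Real.sqrt q) (C : List NF) (hC : ∀ F ∈ C, D.HW a F.F) :
    ∃ P : ℂ → ℂ, Differentiable ℂ P ∧ FinOrd P ∧
      (∀ s, P s = (C.map fun F => D.w F.F).prod * P (2 - s)) ∧
      (∀ s : ℂ, 3 / 2 < s.re → P s = (C.map fun F => D.Lam a F.F s).prod) ∧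
      ∃ c : ℝ, 0 < c ∧ ∃ N : ℝ, 0 ≤ N ∧ ∀ s : ℂ, s.re = 3 →
        c * Real.exp (-(N * |s.im|)) ≤ ‖P s‖ := by
  induction C with
  | nil =>
    refine ⟨fun _ => 1, differentiable_const _, finOrd_one, fun s => by simp,
      fun s _ => by simp, 1, one_pos, 0, le_rfl, fun s _ => by simp⟩
  | cons F C ih =>
    obtain ⟨P, h1, h2, h3, h4, c, hc, N, hN, h5⟩ := ih fun F' hF' => hC F' (List.mem_cons_of_mem _ hF')
    obtain ⟨Q, g1, g2, g3, g4⟩ := hC F List.mem_cons_self
    obtain ⟨c', hc', N', hN', g5⟩ := Lam_lower D hTp hT ha F.F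
    refine ⟨fun s => Q s * P s, g1.mul h1, finOrd_mul g2 h2, fun s => ?_, fun s hs => ?_,
      c' * c, by positivity, N' + N, by positivity, fun s hs => ?_⟩
    · change Q s * P s = _ * (Q (2 - s) * P (2 - s))
      rw [List.map_cons, List.prod_cons, g3 s, h3 s]
      ring
    · change Q s * P s = _
      rw [List.map_cons, List.prod_cons, g4 s hs, h4 s hs]
    · change _ ≤ ‖Q s * P s‖
      rw [norm_mul]
      have h6 := g5 s hs
      rw [← g4 s (by rw [hs]; norm_num)] at h6
      have h7 : Real.exp (-((N' + N) * |s.im|)) = Real.exp (-(N' * |s.im|)) *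
          Real.exp (-(N * |s.im|)) := by
        rw [← Real.exp_add]
        congr 1
        ring
      rw [h7]
      calc c' * c * (Real.exp (-(N' * |s.im|)) * Real.exp (-(N * |s.im|)))
          = (c' * Real.exp (-(N' * |s.im|))) * (c * Real.exp (-(N * |s.im|))) := by ring
        _ ≤ _ := mul_le_mul h6 (h5 s hs) (by positivity) (norm_nonneg _)

theorem w_list (C : List NF) : (C.map fun F => D.w F.F).prod ^ 2 = 1 := by
  induction C with
  | nil => simp
  | cons F C ih =>
    rw [List.map_cons, List.prod_cons, mul_pow, ih]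
    rcases w_sq D F.F with h | h <;> rw [h] <;> norm_num

/-- MER from a relation -/
theorem MER_of_rel (hTp : ∀ p ∈ T, p.Prime) (hT : ∀ p : ℕ, p.Prime → p < 101 → p ∈ T) {a : ℕ → ℝ}
    (ha : ∀ q : ℕ, |a q| ≤ 2 * Real.sqrt q) (K : NF) {A B : List NF} (h : Rel T (K :: A) B)
    (hA : ∀ F ∈ A, D.HW a F.F) (hB : ∀ F ∈ B, D.HW a F.F) : D.MER a K.F := by
  obtain ⟨g, g1, g2, g3, g4, c, hc, N, hN, g5⟩ := list_HW D hTp hT ha A hA
  obtain ⟨f, f1, f2, f3, f4, -⟩ := list_HW D hTp hT ha B hB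
  refine ⟨f, g, f1, g1, f2, g2, fun s hs => ?_, ⟨c * Real.exp (-N ^ 2), by positivity, 2,
    fun s hs => ?_⟩, fun s hs => ?_, fun s => ?_⟩
  · rw [g4 s hs]
    apply List.prod_ne_zero
    intro h0
    obtain ⟨F, _, hF⟩ := List.mem_map.1 h0
    exact Lam_ne D hTp hT ha F.F hs hF
  · refine le_trans ?_ (g5 s hs)
    rw [mul_assoc, ← Real.exp_add]
    refine mul_le_mul_of_nonneg_left (Real.exp_le_exp.2 ?_) hc.le
    have h1 := abs_nonneg s.im
    nlinarith [sq_nonneg (|s.im| - N / 2), sq_nonneg N]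
  · have h1 := rel_Lam D hTp hT ha h hs
    rw [List.map_cons, List.prod_cons, ← g4 s hs, ← f4 s hs] at h1
    rw [mul_comm]
    exact h1
  · have h1 := rel_w D h
    rw [List.map_cons, List.prod_cons] at h1
    rw [f3 s, g3 s, ← h1]
    ring

/-- If Hasse-Weil holds for `ℚ` and for all number fields of degree divisible by `M`, then the
meromorphic form holds for all number fields. -/
theorem alg_MER (hTp : ∀ p ∈ T, p.Prime) (hT : ∀ p : ℕ, p.Prime → p < 101 → p ∈ T) {a : ℕ → ℝ}
    (ha : ∀ q : ℕ, |a q| ≤ 2 * Real.sqrt q) (M : ℕ) (hM : M ≠ 0)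
    (H : ∀ (F : Type) [Field F] [NumberField F],
      Module.finrank ℚ F = 1 ∨ M ∣ Module.finrank ℚ F → D.HW a F)
    (K : Type) [Field K] [NumberField K] : D.MER a K := by
  obtain ⟨A, B, hAB, hrel⟩ := alg_marks T ⟨K⟩ M hM
  exact MER_of_rel D hTp hT ha ⟨K⟩ hrel
    (fun F hF => H F.F (hAB F (List.mem_append.2 (Or.inl hF))))
    (fun F hF => H F.F (hAB F (List.mem_append.2 (Or.inr hF))))

/-- the marks of a field of degree one -/
theorem mark_one (F : Type) [Field F] [NumberField F] (h : Module.finrank ℚ F = 1)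
    (U : Subgroup GQ) : mark F U = 1 := by
  have hc : Fintype.card (F →+* AlgebraicClosure ℚ) = 1 := by rw [Embeddings.card, h]
  obtain ⟨φ, hφ⟩ := Fintype.card_eq_one_iff.1 hc
  unfold mark pch
  have h1 : Nat.card (fx (F →+* AlgebraicClosure ℚ) U) = 1 := by
    rw [Nat.card_eq_one_iff_unique]
    refine ⟨⟨fun a b => Subtype.ext ((hφ a.1).trans (hφ b.1).symm)⟩, ⟨⟨φ, fun u _ => ?_⟩⟩⟩
    exact hφ _
  rw [h1]
  rfl

theorem rel_one (T : Finset ℕ) (F : Type) [Field F] [NumberField F]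
    (h : Module.finrank ℚ F = 1) : Rel T [⟨F⟩] [⟨ℚ⟩] := by
  intro U _
  simp only [List.map_cons, List.map_nil, List.sum_cons, List.sum_nil, add_zero]
  rw [mark_one F h, mark_one ℚ (Module.finrank_self ℚ)]

/-- Hasse-Weil for `ℚ` gives Hasse-Weil for every field of degree one -/
theorem HW_one (hTp : ∀ p ∈ T, p.Prime) (hT : ∀ p : ℕ, p.Prime → p < 101 → p ∈ T) {a : ℕ → ℝ}
    (ha : ∀ q : ℕ, |a q| ≤ 2 * Real.sqrt q) (H : D.HW a ℚ) (F : Type) [Field F] [NumberField F]
    (h : Module.finrank ℚ F = 1) : D.HW a F := by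
  have hr := rel_one T F h
  have hw : D.w F = D.w ℚ := by simpa using rel_w D hr
  obtain ⟨L, h1, h2, h3, h4⟩ := H
  refine ⟨L, h1, h2, fun s => by rw [hw, h3 s], fun s hs => ?_⟩
  have h5 : D.Lam a F s = D.Lam a ℚ s := by simpa using rel_Lam D hTp hT ha hr hs
  rw [h5, h4 s hs]

/-- If Hasse-Weil holds for `ℚ` and for all number fields of degree divisible by `M`, then the
meromorphic form holds for all number fields. -/
theorem alg_MER' (hTp : ∀ p ∈ T, p.Prime) (hT : ∀ p : ℕ, p.Prime → p < 101 → p ∈ T) {a : ℕ → ℝ}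
    (ha : ∀ q : ℕ, |a q| ≤ 2 * Real.sqrt q) (M : ℕ) (hM : M ≠ 0) (HQ : D.HW a ℚ)
    (H : ∀ (F : Type) [Field F] [NumberField F], M ∣ Module.finrank ℚ F → D.HW a F)
    (K : Type) [Field K] [NumberField K] : D.MER a K :=
  alg_MER D hTp hT ha M hM (fun F _ _ h => h.elim (HW_one D hTp hT ha HQ F) (H F)) K

end Pool.Agent.H73.AL
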