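import Pool.Agent.H73.AL.Defs
import Pool.Agent.H73.DU.EStep

/-! # Every number field is related to fields of degree divisible by `M` -/

namespace Pool.Agent.H73.AL

open Pool.Agent.H73.DU

/-- membership in `P`, made explicit -/
theorem P_lists {G : Type} [Group G] [TopologicalSpace G] {𝒰 : Set (Subgroup G)} {m : ℕ}
    {f : Subgroup G → ℤ} (hf : f ∈ P 𝒰 m) :
    ∃ A B : List (Subgroup G), (∀ J ∈ A ++ B, IsOpen (J : Set G) ∧ m ∣ J.index) ∧
      ∀ U ∈ 𝒰, f U + (A.map fun J => pc J U).sum = (B.map fun J => pc J U).sum := by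
  unfold P at hf
  induction hf using AddSubgroup.closure_induction with
  | mem f hf =>
    rcases hf with ⟨H, hH, hm, rfl⟩ | hf
    · refine ⟨[], [H], ?_, ?_⟩
      · intro J hJ
        simp only [List.nil_append, List.mem_singleton] at hJ
        rw [hJ]
        exact ⟨hH, hm⟩
      · intro U _
        simp
    · refine ⟨[], [], ?_, ?_⟩
      · intro J hJ
        simp at hJ
      · intro U hU
        simp [hf U hU]
  | zero =>
    refine ⟨[], [], ?_, ?_⟩
    · intro J hJ
      simp at hJ
    · intro U _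
      simp
  | add f f' _ _ h h' =>
    obtain ⟨A, B, h1, h2⟩ := h
    obtain ⟨A', B', h1', h2'⟩ := h'
    refine ⟨A ++ A', B ++ B', ?_, ?_⟩
    · intro J hJ
      simp only [List.mem_append] at hJ h1 h1'
      rcases hJ with (h | h) | (h | h)
      · exact h1 J (Or.inl h)
      · exact h1' J (Or.inl h)
      · exact h1 J (Or.inr h)
      · exact h1' J (Or.inr h)
    · intro U hU
      rw [List.map_append, List.sum_append, List.map_append, List.sum_append, Pi.add_apply,
        ← h2 U hU, ← h2' U hU]
      ring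
  | neg f _ h =>
    obtain ⟨A, B, h1, h2⟩ := h
    refine ⟨B, A, ?_, ?_⟩
    · intro J hJ
      simp only [List.mem_append] at hJ h1
      exact h1 J hJ.symm
    · intro U hU
      rw [Pi.neg_apply, ← h2 U hU]
      ring

section fields

private theorem alg_cl (inst : Algebra ℚ (AlgebraicClosure ℚ)) :
    IsAlgClosure ℚ (AlgebraicClosure ℚ) := by
  have h : inst = AlgebraicClosure.instAlgebra ℚ := Subsingleton.elim _ _
  subst h
  infer_instance

private theorem isGal : IsGalois ℚ (AlgebraicClosure ℚ) := by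
  have : IsAlgClosure ℚ (AlgebraicClosure ℚ) := alg_cl inferInstance
  have : Normal ℚ (AlgebraicClosure ℚ) := IsAlgClosure.normal ℚ _
  exact {}

/-- the absolute Galois group acts transitively on the embeddings -/
theorem trans_emb (F : Type) [Field F] [NumberField F] (φ ψ : F →+* AlgebraicClosure ℚ) :
    ∃ g : GQ, g • φ = ψ := by
  have := isGal
  let φ' : F →ₐ[ℚ] AlgebraicClosure ℚ := φ.toRatAlgHom
  let ψ' : F →ₐ[ℚ] AlgebraicClosure ℚ := ψ.toRatAlgHom
  let e1 : F ≃ₐ[ℚ] φ'.fieldRange := AlgEquiv.ofInjectiveField φ'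
  let e2 : F ≃ₐ[ℚ] ψ'.fieldRange := AlgEquiv.ofInjectiveField ψ'
  let χ : φ'.fieldRange ≃ₐ[ℚ] ψ'.fieldRange := e1.symm.trans e2
  refine ⟨χ.liftNormal (AlgebraicClosure ℚ), ?_⟩
  ext x
  have h1 := AlgEquiv.liftNormal_commutes χ (AlgebraicClosure ℚ) (e1 x)
  have h2 : χ (e1 x) = e2 x := by
    change e2 (e1.symm (e1 x)) = e2 x
    rw [AlgEquiv.symm_apply_apply]
  rw [h2] at h1
  exact h1

/-- the marks of a field through a point stabilizer -/
theorem mark_eq_pc (F : Type) [Field F] [NumberField F] (φ : F →+* AlgebraicClosure ℚ) :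
    mark F = pc (MulAction.stabilizer GQ φ) := by
  unfold mark pc
  symm
  refine pch_congr (Equiv.ofBijective (MulAction.ofQuotientStabilizer GQ φ)
    ⟨MulAction.injective_ofQuotientStabilizer GQ φ, fun ψ => ?_⟩) fun g x => ?_
  · obtain ⟨g, hg⟩ := trans_emb F φ ψ
    exact ⟨(g : GQ ⧸ MulAction.stabilizer GQ φ), hg⟩
  · exact MulAction.ofQuotientStabilizer_smul GQ φ g x

/-- stabilizers of embeddings are open -/
theorem stab_open (F : Type) [Field F] [NumberField F] (φ : F →+* AlgebraicClosure ℚ) :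
    IsOpen (MulAction.stabilizer GQ φ : Set GQ) := by
  let φ' : F →ₐ[ℚ] AlgebraicClosure ℚ := φ.toRatAlgHom
  have : FiniteDimensional ℚ φ'.fieldRange :=
    (AlgEquiv.ofInjectiveField φ').toLinearEquiv.finiteDimensional
  refine Subgroup.isOpen_mono ?_ (IntermediateField.fixingSubgroup_isOpen φ'.fieldRange)
  intro g hg
  rw [MulAction.mem_stabilizer_iff]
  ext x
  exact (IntermediateField.mem_fixingSubgroup_iff _ g).1 hg _ ⟨x, rfl⟩

/-- every open subgroup comes from a number field -/
theorem exists_field (J : Subgroup GQ) (hJ : IsOpen (J : Set GQ)) :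
    ∃ F : NF, mark F.F = pc J ∧ Module.finrank ℚ F.F = J.index := by
  have := isGal
  let F : IntermediateField ℚ (AlgebraicClosure ℚ) := IntermediateField.fixedField J
  have hfd : FiniteDimensional ℚ F := by
    obtain ⟨E, hE, hEN⟩ := (krullTopology_mem_nhds_one_iff ℚ (AlgebraicClosure ℚ) (J : Set _)).1
      (hJ.mem_nhds J.one_mem)
    have h1 : F ≤ E := by
      rw [← InfiniteGalois.fixedField_fixingSubgroup E]
      exact IntermediateField.fixedField_antitone hEN
    have := hE
    exact Submodule.finiteDimensional_of_le (S₁ := Subalgebra.toSubmodule F.toSubalgebra)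
      (S₂ := Subalgebra.toSubmodule E.toSubalgebra) h1
  have hnf : NumberField F := {}
  have hmark : mark F = pc J := by
    rw [mark_eq_pc F (algebraMap F (AlgebraicClosure ℚ))]
    congr 1
    have h2 : F.fixingSubgroup = J := by
      have := InfiniteGalois.fixingSubgroup_fixedField
        (⟨J, J.isClosed_of_isOpen hJ⟩ : ClosedSubgroup GQ)
      exact this
    rw [← h2]
    ext g
    rw [MulAction.mem_stabilizer_iff, IntermediateField.mem_fixingSubgroup_iff]
    constructor
    · intro h x hx
      exact RingHom.congr_fun h ⟨x, hx⟩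
    · intro h
      ext x
      exact h _ x.2
  refine ⟨⟨F⟩, hmark, ?_⟩
  have h3 := congrFun hmark ⊥
  rw [pc_bot, mark, pch_bot] at h3
  have h4 := NumberField.Embeddings.card F (AlgebraicClosure ℚ)
  rw [← Nat.card_eq_fintype_card] at h4
  rw [h4] at h3
  exact_mod_cast h3

end fields

theorem alg_marks (T : Finset ℕ) (K : NF) (M : ℕ) (hM : M ≠ 0) :
    ∃ A B : List NF, (∀ F ∈ A ++ B, Module.finrank ℚ F.F = 1 ∨ M ∣ Module.finrank ℚ F.F) ∧
      Rel T (K :: A) B := by
  classical
  obtain ⟨φ⟩ : Nonempty (K.F →+* AlgebraicClosure ℚ) := inferInstance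
  set H := MulAction.stabilizer GQ φ with hH
  have hHo : IsOpen (H : Set GQ) := stab_open K.F φ
  have h1 := main (nice_rat T) hHo M hM
  obtain ⟨A, B, hAB, h2⟩ := P_lists h1
  -- realise the subgroups by fields
  have hreal : ∀ J : {J // J ∈ A ++ B}, ∃ F : NF, mark F.F = pc J.1 ∧
      Module.finrank ℚ F.F = J.1.index := fun J => exists_field J.1 (hAB J.1 J.2).1
  obtain ⟨Q, hQ, hQ1⟩ := exists_field ⊤ isOpen_univ
  have hlist : ∀ C : List (Subgroup GQ), (∀ J ∈ C, IsOpen (J : Set GQ) ∧ M ∣ J.index) →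
      ∃ C' : List NF, (∀ F ∈ C', M ∣ Module.finrank ℚ F.F) ∧
        ∀ U, (C'.map fun F => mark F.F U).sum = (C.map fun J => pc J U).sum := by
    intro C
    induction C with
    | nil => exact fun _ => ⟨[], by simp, fun U => rfl⟩
    | cons J C ih =>
      intro hC
      obtain ⟨C', h3, h4⟩ := ih fun J' hJ' => hC J' (List.mem_cons_of_mem _ hJ')
      obtain ⟨F, hF, hF1⟩ := exists_field J (hC J List.mem_cons_self).1
      refine ⟨F :: C', ?_, fun U => ?_⟩
      · intro F' hF'
        rcases List.mem_cons.1 hF' with rfl | h5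
        · rw [hF1]; exact (hC J List.mem_cons_self).2
        · exact h3 F' h5
      · rw [List.map_cons, List.map_cons, List.sum_cons, List.sum_cons, h4, hF]
  obtain ⟨A', hA', hA''⟩ := hlist A fun J hJ => hAB J (List.mem_append.2 (Or.inl hJ))
  obtain ⟨B', hB', hB''⟩ := hlist B fun J hJ => hAB J (List.mem_append.2 (Or.inr hJ))
  refine ⟨A', List.replicate H.index Q ++ B', ?_, ?_⟩
  · intro F hF
    simp only [List.mem_append] at hF
    rcases hF with h | h | h
    · exact Or.inr (hA' F h)
    · left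
      rw [(List.mem_replicate.1 h).2, hQ1, Subgroup.index_top]
    · exact Or.inr (hB' F h)
  · intro U hU
    rw [List.map_cons, List.sum_cons, hA'', List.map_append, List.sum_append, hB'', ← h2 U hU,
      List.map_replicate, List.sum_replicate, hQ, pc_top, mark_eq_pc K.F φ]
    simp only [Pi.sub_apply, Pi.smul_apply, Pi.one_apply, smul_eq_mul, mul_one, nsmul_eq_mul]
    ring

end Pool.Agent.H73.AL
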