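import Mathlib

/-! # Burnside: counting invariant orbits of a normalized subgroup

PLAN. `∑ τ ∈ I, #{x | (d * τ) • x = x} = ∑ x, #{τ ∈ I | τ • x = d⁻¹ • x}`. For given `x`: if
`σ (π x) = π x` then `π (d⁻¹ • x) = π x` (from `π (d • y) = σ (π y)` with `y = d⁻¹ • x` we get
`π x = σ (π (d⁻¹ • x))`; `σ` is injective on the image of `π` because fibres are `I`-orbits and `I`
is normalized by `d`: if `σ (π y) = σ (π y')` then `d • y' = τ • d • y`, `y' = (d⁻¹ τ d) • y`), so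
`d⁻¹ • x = τ0 • x` for some `τ0 ∈ I` and the set is a coset of `I ∩ stabilizer x`; if
`σ (π x) ≠ π x` the set is empty. Summing `#(I ∩ stabilizer x)` over one fibre of `π` (an
`I`-orbit) gives `#I` (orbit-stabilizer). -/

namespace Pool.Agent.H73.AL

theorem burnside {Γ X Y : Type} [Group Γ] [Finite Γ] [MulAction Γ X] [Finite X]
    (I : Subgroup Γ) (d : Γ) (hd : ∀ τ ∈ I, d⁻¹ * τ * d ∈ I) (hd' : ∀ τ ∈ I, d * τ * d⁻¹ ∈ I)
    (π : X → Y) (hπ : Function.Surjective π)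
    (hfib : ∀ x x', π x = π x' ↔ ∃ τ ∈ I, x' = τ • x)
    (σ : Y → Y) (hσ : ∀ x, π (d • x) = σ (π x)) :
    Nat.card I * Nat.card {y // σ y = y} =
      ∑ᶠ τ : I, Nat.card {x : X // (d * (τ : Γ)) • x = x} := by
  classical
  have hI : ∀ (τ : I) (x : X), π (τ • x) = π x := fun τ x =>
    ((hfib x (τ • x)).2 ⟨τ, τ.2, rfl⟩).symm
  -- the points over fixed points of `σ`
  let X' : SubMulAction I X :=
    { carrier := {x | σ (π x) = π x}
      smul_mem' := by
        intro τ x hx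
        show σ (π (τ • x)) = π (τ • x)
        rw [hI]
        exact hx }
  have hX' : ∀ x, x ∈ X' ↔ σ (π x) = π x := fun x => Iff.rfl
  have h0 : ∀ x : X', ∃ τ : I, (d * (τ : Γ)) • (x : X) = x := by
    rintro ⟨x, hx⟩
    have h1 : π (d • x) = π x := by rw [hσ, hx]
    obtain ⟨τ, hτ, h2⟩ := (hfib _ _).1 h1
    refine ⟨⟨d⁻¹ * τ * d, hd τ hτ⟩, ?_⟩
    show (d * (d⁻¹ * τ * d)) • x = x
    have h3 : d * (d⁻¹ * τ * d) = τ * d := by group
    rw [h3, mul_smul]
    exact h2.symm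
  choose τ₀ hτ₀ using h0
  have hmem : ∀ (τ : I) (x : X), (d * (τ : Γ)) • x = x → x ∈ X' := by
    intro τ x h
    rw [hX']
    have h1 : π ((d * (τ : Γ)) • x) = σ (π x) := by
      rw [mul_smul, hσ]
      exact congrArg σ (hI τ x)
    rw [h] at h1
    exact h1.symm
  have key : ∀ (τ : I) (x : X'), (d * (τ : Γ)) • (x : X) = x ↔
      ((τ₀ x)⁻¹ * τ) • x = x := by
    intro τ x
    have h1 : (((τ₀ x)⁻¹ * τ) • x = x) ↔ ((τ : Γ) • (x : X) = (τ₀ x : Γ) • (x : X)) := by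
      rw [mul_smul, inv_smul_eq_iff, Subtype.ext_iff]
      exact Iff.rfl
    rw [h1]
    constructor
    · intro h
      have h2 : (d * (τ : Γ)) • (x : X) = (d * (τ₀ x : Γ)) • (x : X) := by rw [h, hτ₀]
      rw [mul_smul, mul_smul] at h2
      exact smul_left_cancel d h2
    · intro h
      rw [mul_smul, h, ← mul_smul]
      exact hτ₀ x
  let e1 : (Σ τ : I, {x : X // (d * (τ : Γ)) • x = x}) ≃ (Σ τ : I, MulAction.fixedBy X' τ) :=
    { toFun := fun p => ⟨(τ₀ ⟨p.2.1, hmem p.1 p.2.1 p.2.2⟩)⁻¹ * p.1,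
        ⟨⟨p.2.1, hmem p.1 p.2.1 p.2.2⟩, (key p.1 ⟨p.2.1, hmem p.1 p.2.1 p.2.2⟩).1 p.2.2⟩⟩
      invFun := fun p => ⟨τ₀ p.2.1 * p.1, ⟨p.2.1, (key _ _).2 (by
        rw [inv_mul_cancel_left]
        exact p.2.2)⟩⟩
      left_inv := by
        rintro ⟨τ, x, hx⟩
        exact Sigma.subtype_ext (mul_inv_cancel_left _ _) rfl
      right_inv := by
        rintro ⟨τ, ⟨x, hx'⟩, hx⟩
        exact Sigma.subtype_ext (inv_mul_cancel_left _ _) rfl }
  let e2 := MulAction.sigmaFixedByEquivOrbitsProdGroup I X'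
  let f : Quotient (MulAction.orbitRel I X') → {y // σ y = y} :=
    Quotient.lift (fun x => ⟨π x.1, x.2⟩) (by
      rintro a b ⟨τ, rfl⟩
      exact Subtype.ext (hI τ b.1))
  have hf : Function.Bijective f := by
    constructor
    · intro a b
      induction a using Quotient.inductionOn
      induction b using Quotient.inductionOn
      rename_i a b
      intro h
      have h1 : π a.1 = π b.1 := congrArg Subtype.val h
      obtain ⟨τ, hτ, h2⟩ := (hfib _ _).1 h1
      refine (Quotient.sound (s := MulAction.orbitRel I X') (a := b) (b := a)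
        ⟨⟨τ, hτ⟩, Subtype.ext ?_⟩).symm
      exact h2.symm
    · rintro ⟨y, hy⟩
      obtain ⟨x, rfl⟩ := hπ y
      exact ⟨Quotient.mk _ ⟨x, hy⟩, rfl⟩
  have : Fintype I := Fintype.ofFinite I
  rw [finsum_eq_sum_of_fintype, ← Nat.card_sigma, Nat.card_congr e1, Nat.card_congr e2,
    Nat.card_prod, Nat.card_congr (Equiv.ofBijective f hf), mul_comm]

end Pool.Agent.H73.AL
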