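import Mathlib

/-! # Counting the homomorphisms from a ring of integers to a finite field

PLAN. A ring homomorphism `χ : 𝓞 F →+* κ` is the same as a nonzero prime `v = ker χ` (nonzero
because `κ` is finite) and an embedding of the finite field `𝓞 F ⧸ v` in `κ`. All values satisfy
`y ^ (p ^ k) = y` iff this holds on `𝓞 F ⧸ v`, a field with `p ^ f` elements, iff
`f ∣ k` (a generator of the multiplicative group has order `p ^ f - 1`; `p ^ f - 1 ∣ p ^ k - 1`
iff `f ∣ k`: `Nat.pow_sub_one_...`, or the fixed field of Frobenius `^ k`). The number of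
embeddings of a field with `p ^ f` elements in `κ` is `f` if there is one (hypothesis `h`):
they form a torsor under the Galois group, cyclic of order `f` (`FiniteField`,
`GaloisField`, `card_algHom`...), also if `f ∤ [κ : F_p]` then there is none, which `h` excludes.
The places `v` with `nrm v = p ^ f`: the sum on the right is finite (finitely many places over
`p`; `Ideal.finite_setOf_absNorm_eq`). -/

namespace Pool.Agent.H73.AL

open NumberField IsDedekindDomain

/-- number of places of norm `q` -/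
noncomputable def cnt (F : Type) [Field F] [NumberField F] (q : ℕ) : ℕ :=
  Nat.card {v : HeightOneSpectrum (𝓞 F) // Ideal.absNorm v.asIdeal = q}

private theorem hc_homs {L κ : Type} [Field L] [Finite L] [Field κ] [Finite κ] (p : ℕ)
    [Fact p.Prime] [CharP L p] [CharP κ p] (f : ℕ) (hL : Nat.card L = p ^ f)
    (h : Nonempty (L →+* κ)) : Nat.card (L →+* κ) = f := by
  obtain ⟨e₀⟩ := h
  let _ : Algebra (ZMod p) L := ZMod.algebra L p
  let _ : Algebra (ZMod p) κ := ZMod.algebra κ p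
  let _ : Algebra L κ := e₀.toAlgebra
  have : IsScalarTower (ZMod p) L κ := IsScalarTower.of_algebraMap_eq' (Subsingleton.elim _ _)
  have e0 : ∀ (g : L →+* κ) (a : ZMod p), g (algebraMap (ZMod p) L a) = algebraMap (ZMod p) κ a :=
    fun g a => RingHom.congr_fun (Subsingleton.elim (g.comp (algebraMap (ZMod p) L))
      (algebraMap (ZMod p) κ)) a
  have e1 : (L →+* κ) ≃ (L →ₐ[ZMod p] κ) :=
    { toFun := fun g => { g with commutes' := e0 g }
      invFun := fun g => (g : L →+* κ)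
      left_inv := fun g => rfl
      right_inv := fun g => rfl }
  rw [Nat.card_congr e1, Nat.card_congr (Normal.algHomEquivAut (F := ZMod p) (E := L) (K₁ := κ)),
    IsGalois.card_aut_eq_finrank]
  have h1 : Nat.card L = p ^ Module.finrank (ZMod p) L := by
    rw [Module.natCard_eq_pow_finrank (K := ZMod p) (V := L), Nat.card_zmod]
  exact Nat.pow_right_injective (Fact.out : p.Prime).two_le (h1.symm.trans hL)

private theorem hc_pow {L : Type} [Field L] [Finite L] (p : ℕ)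
    [Fact p.Prime] [CharP L p] (f : ℕ) (hL : Nat.card L = p ^ f) (k : ℕ) :
    (∀ y : L, y ^ (p ^ k) = y) ↔ f ∣ k := by
  let _ : Algebra (ZMod p) L := ZMod.algebra L p
  have h1 : Nat.card L = p ^ Module.finrank (ZMod p) L := by
    rw [Module.natCard_eq_pow_finrank (K := ZMod p) (V := L), Nat.card_zmod]
  have h2 : Module.finrank (ZMod p) L = f :=
    Nat.pow_right_injective (Fact.out : p.Prime).two_le (h1.symm.trans hL)
  rw [← h2, ← FiniteField.orderOf_frobeniusAlgHom (ZMod p) L, orderOf_dvd_iff_pow_eq_one]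
  have h3 : ∀ y : L, (FiniteField.frobeniusAlgHom (ZMod p) L ^ k) y = y ^ (p ^ k) := by
    intro y
    rw [AlgHom.coe_pow, FiniteField.coe_frobeniusAlgHom, pow_iterate, ZMod.card]
  constructor
  · intro h
    ext y
    rw [h3, h y]
    rfl
  · intro h y
    rw [← h3, h]
    rfl

theorem finite_cnt (F : Type) [Field F] [NumberField F] {q : ℕ} (hq : q ≠ 0) :
    Finite {v : HeightOneSpectrum (𝓞 F) // Ideal.absNorm v.asIdeal = q} := by
  have h1 : {I : Ideal (𝓞 F) | Ideal.absNorm I = q}.Finite :=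
    Ideal.finite_setOfPred_absNorm_eq q
  have h2 : Finite {I : Ideal (𝓞 F) // Ideal.absNorm I = q} := h1
  refine Finite.of_injective (fun v : {v : HeightOneSpectrum (𝓞 F) //
    Ideal.absNorm v.asIdeal = q} => (⟨v.1.asIdeal, v.2⟩ : {I : Ideal (𝓞 F) //
      Ideal.absNorm I = q})) ?_
  intro v w hvw
  apply Subtype.ext
  apply HeightOneSpectrum.ext
  exact congrArg Subtype.val hvw

private theorem hc_place {F : Type} [Field F] [NumberField F] (p : ℕ) [Fact p.Prime]
    (v : HeightOneSpectrum (𝓞 F)) (hv : ((p : ℕ) : 𝓞 F) ∈ v.asIdeal) :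
    Finite (𝓞 F ⧸ v.asIdeal) ∧ CharP (𝓞 F ⧸ v.asIdeal) p := by
  have h1 : Finite (𝓞 F ⧸ v.asIdeal) := Ideal.finiteQuotientOfFreeOfNeBot _ v.ne_bot
  refine ⟨h1, ?_⟩
  have hm : v.asIdeal.IsMaximal := v.isMaximal
  let _ : Field (𝓞 F ⧸ v.asIdeal) := Ideal.Quotient.field _
  have h2 : ((p : ℕ) : 𝓞 F ⧸ v.asIdeal) = 0 := by
    have h3 := Ideal.Quotient.eq_zero_iff_mem.2 hv
    rw [map_natCast] at h3
    exact h3
  exact (CharP.charP_iff_prime_eq_zero (Fact.out : p.Prime)).2 h2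

theorem hom_count {F κ : Type} [Field F] [NumberField F] [Field κ] [Finite κ] (p : ℕ)
    [Fact p.Prime] [CharP κ p]
    (h : ∀ v : HeightOneSpectrum (𝓞 F), ((p : ℕ) : 𝓞 F) ∈ v.asIdeal →
      Nonempty (𝓞 F ⧸ v.asIdeal →+* κ)) (k : ℕ) (hk : 0 < k) :
    Nat.card {χ : 𝓞 F →+* κ // ∀ x, χ x ^ (p ^ k) = χ x} =
      ∑ f ∈ Nat.divisors k, f * cnt F (p ^ f) := by
  have hp : p.Prime := Fact.out
  have hf0 : ∀ f : ↥(Nat.divisors k), 0 < (f : ℕ) := fun f =>
    Nat.pos_of_mem_divisors f.2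
  have hmem : ∀ (f : ↥(Nat.divisors k))
      (v : {v : HeightOneSpectrum (𝓞 F) // Ideal.absNorm v.asIdeal = p ^ (f : ℕ)}),
      ((p : ℕ) : 𝓞 F) ∈ v.1.asIdeal := by
    intro f v
    have h1 := Ideal.absNorm_mem v.1.asIdeal
    rw [v.2, Nat.cast_pow] at h1
    exact v.1.isPrime.mem_of_pow_mem _ h1
  have hcard : ∀ v : HeightOneSpectrum (𝓞 F), Nat.card (𝓞 F ⧸ v.asIdeal) =
      Ideal.absNorm v.asIdeal := by
    intro v
    rw [Ideal.absNorm_apply]
    rfl
  obtain ⟨Φ, hΦ⟩ : ∃ Φ : (Σ f : ↥(Nat.divisors k),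
      Σ v : {v : HeightOneSpectrum (𝓞 F) // Ideal.absNorm v.asIdeal = p ^ (f : ℕ)},
        (𝓞 F ⧸ v.1.asIdeal →+* κ)) → {χ : 𝓞 F →+* κ // ∀ x, χ x ^ (p ^ k) = χ x},
      ∀ a, (Φ a : 𝓞 F →+* κ) = a.2.2.comp (Ideal.Quotient.mk a.2.1.1.asIdeal) := by
    refine ⟨fun a => ⟨a.2.2.comp (Ideal.Quotient.mk a.2.1.1.asIdeal), ?_⟩, fun a => rfl⟩
    intro x
    obtain ⟨hfin, hchar⟩ := hc_place p a.2.1.1 (hmem a.1 a.2.1)
    have hm : a.2.1.1.asIdeal.IsMaximal := a.2.1.1.isMaximal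
    let _ : Field (𝓞 F ⧸ a.2.1.1.asIdeal) := Ideal.Quotient.field _
    have h1 := (hc_pow (L := 𝓞 F ⧸ a.2.1.1.asIdeal) p a.1 (by rw [hcard, a.2.1.2]) k).2
      (Nat.dvd_of_mem_divisors a.1.2) (Ideal.Quotient.mk a.2.1.1.asIdeal x)
    rw [RingHom.comp_apply, ← map_pow, h1]
  have hbij : Function.Bijective Φ := by
    constructor
    · rintro ⟨⟨f, hf⟩, ⟨v, hv⟩, ψ⟩ ⟨⟨f', hf'⟩, ⟨v', hv'⟩, ψ'⟩ hab
      have h1 : ψ.comp (Ideal.Quotient.mk v.asIdeal) = ψ'.comp (Ideal.Quotient.mk v'.asIdeal) := by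
        have h2 := congrArg Subtype.val hab
        rw [hΦ, hΦ] at h2
        exact h2
      have hker : ∀ (w : HeightOneSpectrum (𝓞 F)) (θ : 𝓞 F ⧸ w.asIdeal →+* κ),
          RingHom.ker (θ.comp (Ideal.Quotient.mk w.asIdeal)) = w.asIdeal := by
        intro w θ
        have hm : w.asIdeal.IsMaximal := w.isMaximal
        let _ : Field (𝓞 F ⧸ w.asIdeal) := Ideal.Quotient.field _
        rw [← RingHom.comap_ker, (RingHom.injective_iff_ker_eq_bot θ).1 θ.injective,
          ← RingHom.ker_eq_comap_bot, Ideal.mk_ker]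
      have h2 : v = v' := by
        apply HeightOneSpectrum.ext
        rw [← hker v ψ, h1, hker]
      subst h2
      have h3 : f = f' := Nat.pow_right_injective hp.two_le (hv.symm.trans hv')
      subst h3
      have h4 : ψ = ψ' := by
        apply Ideal.Quotient.ringHom_ext
        exact h1
      rw [h4]
    · rintro ⟨χ, hχ⟩
      have hprime : (RingHom.ker χ).IsPrime := RingHom.ker_isPrime χ
      have hbot : RingHom.ker χ ≠ ⊥ := by
        intro h1
        have h2 : Function.Injective χ := (RingHom.injective_iff_ker_eq_bot χ).2 h1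
        have h3 : Finite (𝓞 F) := Finite.of_injective _ h2
        exact not_finite (𝓞 F)
      obtain ⟨v, hv⟩ : ∃ v : HeightOneSpectrum (𝓞 F), v.asIdeal = RingHom.ker χ :=
        ⟨⟨RingHom.ker χ, hprime, hbot⟩, rfl⟩
      have hpv : ((p : ℕ) : 𝓞 F) ∈ v.asIdeal := by
        rw [hv, RingHom.mem_ker, map_natCast, CharP.cast_eq_zero]
      obtain ⟨hfin, hchar⟩ := hc_place p v hpv
      have hm : v.asIdeal.IsMaximal := v.isMaximal
      let _ : Field (𝓞 F ⧸ v.asIdeal) := Ideal.Quotient.field _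
      obtain ⟨ψ, hψ⟩ : ∃ ψ : 𝓞 F ⧸ v.asIdeal →+* κ, ψ.comp (Ideal.Quotient.mk v.asIdeal) = χ := by
        refine ⟨Ideal.Quotient.lift v.asIdeal χ (fun a ha => ?_), ?_⟩
        · rw [hv] at ha
          exact ha
        · ext a
          rfl
      obtain ⟨f, hf⟩ : ∃ f : ℕ, Nat.card (𝓞 F ⧸ v.asIdeal) = p ^ f := by
        have := Fintype.ofFinite (𝓞 F ⧸ v.asIdeal)
        obtain ⟨n, _, hn⟩ := FiniteField.card (𝓞 F ⧸ v.asIdeal) p
        exact ⟨n, by rw [Nat.card_eq_fintype_card, hn]⟩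
      have hfk : f ∣ k := by
        refine (hc_pow p f hf k).1 fun y => ?_
        obtain ⟨x, rfl⟩ := Ideal.Quotient.mk_surjective y
        apply ψ.injective
        have h1 := hχ x
        rw [← hψ, RingHom.comp_apply, ← map_pow] at h1
        exact h1
      refine ⟨⟨⟨f, Nat.mem_divisors.2 ⟨hfk, hk.ne'⟩⟩, ⟨v, by rw [← hcard, hf]⟩, ψ⟩, ?_⟩
      apply Subtype.ext
      rw [hΦ]
      exact hψ
  have hfinv : ∀ f : ↥(Nat.divisors k), Finite {v : HeightOneSpectrum (𝓞 F) //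
      Ideal.absNorm v.asIdeal = p ^ (f : ℕ)} := fun f =>
    finite_cnt F (pow_ne_zero _ hp.ne_zero)
  have hfinh : ∀ (f : ↥(Nat.divisors k))
      (v : {v : HeightOneSpectrum (𝓞 F) // Ideal.absNorm v.asIdeal = p ^ (f : ℕ)}),
      Nat.card (𝓞 F ⧸ v.1.asIdeal →+* κ) = f := by
    intro f v
    obtain ⟨hfin, hchar⟩ := hc_place p v.1 (hmem f v)
    have hm : v.1.asIdeal.IsMaximal := v.1.isMaximal
    let _ : Field (𝓞 F ⧸ v.1.asIdeal) := Ideal.Quotient.field _
    exact hc_homs p f (by rw [hcard, v.2]) (h v.1 (hmem f v))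
  have hfinh' : ∀ (f : ↥(Nat.divisors k))
      (v : {v : HeightOneSpectrum (𝓞 F) // Ideal.absNorm v.asIdeal = p ^ (f : ℕ)}),
      Finite (𝓞 F ⧸ v.1.asIdeal →+* κ) := by
    intro f v
    apply Nat.finite_of_card_ne_zero
    rw [hfinh f v]
    exact (hf0 f).ne'
  rw [← Nat.card_eq_of_bijective Φ hbij, Nat.card_sigma,
    ← Finset.sum_coe_sort (Nat.divisors k) (fun f => f * cnt F (p ^ f))]
  refine Finset.sum_congr rfl fun f _ => ?_
  have := Fintype.ofFinite {v : HeightOneSpectrum (𝓞 F) //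
      Ideal.absNorm v.asIdeal = p ^ (f : ℕ)}
  rw [Nat.card_sigma]
  simp only [hfinh f]
  rw [Finset.sum_const, Finset.card_univ, smul_eq_mul, mul_comm, cnt, Nat.card_eq_fintype_card]

end Pool.Agent.H73.AL
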