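import Mathlib

/-! # Reduction of embeddings modulo a prime

`L` is a finite Galois extension of `ℚ`, `Q` a nonzero prime ideal of `𝓞 L`, `F` a number field with
an embedding in `L`.

PLAN. Write `Γ = L ≃ₐ[ℚ] L`, acting on `𝓞 L` (`MulSemiringAction Γ (𝓞 L)`,
`Algebra.IsInvariant ℤ (𝓞 L) Γ`, see `Mathlib/NumberTheory/NumberField/...` and
`Mathlib/RingTheory/Invariant`), `κ = 𝓞 L ⧸ Q` a finite field. Fix `φ0 : F →+* L`, use it to make `L`
an `F`-algebra, `H = L ≃ₐ[F] L`; every `φ : F →+* L` is `g ∘ φ0` (`AlgHom.liftNormal`).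
`red_surj`: let `χ : 𝓞 F →+* κ`, `v = ker χ`. There is a prime `Q'` of `𝓞 L` over `v` (lying over,
via `φ0`). `κ' = 𝓞 L ⧸ Q'` is an extension of `𝓞 F ⧸ v`, of the same cardinality as `κ` (`Q'` is
conjugate to `Q` under `Γ`: both contain the same rational prime,
`Algebra.IsInvariant.exists_smul_of_under_eq`), so the embedding
`𝓞 F ⧸ v → κ` extends to an isomorphism `κ' → κ` (finite fields: extend to an algebraic closure of
`κ`; the image is the set of roots of `X ^ q - X`, that is `κ`). So `χ` extends to a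
surjection `Ψ : 𝓞 L → κ` (along `φ0`) with kernel `Q'`. Choose `g` with `g Q' = Q`; then
`Ψ ∘ g⁻¹` has kernel `Q`, so it is `α ∘ (mod Q)` with `α` an automorphism of `κ`, and `α` is
induced by some `d` in the stabilizer of `Q` (`Ideal.Quotient.stabilizerHom_surjective`). So
`Ψ x = (d g x mod Q)` and `φ = (d g) ∘ φ0`.
`red_fib`: two extensions `g`, `g'` to `𝓞 L` (`φ = g ∘ φ0`, `φ' = g' ∘ φ0`); the kernels `g⁻¹ Q`,
`g'⁻¹ Q` lie over the same prime of `𝓞 F`, so they are conjugate under `H` and we may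
change `g` by an element of `H` so that they are equal, `= Q'`. Then `(mod Q) ∘ g'` and
`(mod Q) ∘ g` both are isomorphisms `𝓞 L ⧸ Q' → κ`, differing by an automorphism of `𝓞 L ⧸ Q'`
trivial on `𝓞 F ⧸ v`, which is induced by an `h` in the stabilizer of `Q'` in `H` (the theorem
`stabilizerHom_surjective` for the group `H` over `𝓞 F`); so `g' x ≡ g h x` modulo `Q` for all
`x : 𝓞 L`; `τ = g' (g h)⁻¹` is in the inertia group and `τ ∘ φ = g' ∘ φ0 = φ'`. -/

namespace Pool.Agent.H73.AL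

open NumberField

/-- the reduction of an embedding -/
noncomputable def red {F L : Type} [Field F] [Field L] (Q : Ideal (𝓞 L)) (φ : F →+* L) :
    𝓞 F →+* 𝓞 L ⧸ Q :=
  (Ideal.Quotient.mk Q).comp (RingOfIntegers.mapRingHom φ)

open Polynomial in
/-- two homomorphisms to a domain which agree on the invariants differ by a group element -/
private theorem transitive {B Ω G : Type*} [CommRing B] [CommRing Ω] [IsDomain Ω] [Group G]
    [Finite G] [MulSemiringAction G B] (ψ ψ' : B →+* Ω)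
    (h : ∀ b : B, (∀ g : G, g • b = b) → ψ b = ψ' b) : ∃ g : G, ∀ b, ψ' b = ψ (g • b) := by
  classical
  cases nonempty_fintype G
  by_contra hcon
  push Not at hcon
  choose b hb using hcon
  let e := Fintype.equivFin G
  let p : B[X] := ∑ g : G, monomial (e g : ℕ) (b g)
  have hcoeff : ∀ g, p.coeff (e g) = b g := by
    intro g
    change (∑ g' : G, monomial (e g' : ℕ) (b g')).coeff (e g) = b g
    rw [finsetSum_coeff, Finset.sum_eq_single g]
    · rw [coeff_monomial, if_pos rfl]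
    · intro g' _ hg'
      rw [coeff_monomial, if_neg]
      intro he
      exact hg' (e.injective (Fin.ext he))
    · intro hg
      exact absurd (Finset.mem_univ g) hg
  have hc : (MulSemiringAction.charpoly G p).map (mapRingHom ψ) =
      (MulSemiringAction.charpoly G p).map (mapRingHom ψ') := by
    ext n m
    rw [coeff_map, coeff_map, coe_mapRingHom, coe_mapRingHom, coeff_map, coeff_map]
    apply h
    intro g
    have h1 := MulSemiringAction.smul_coeff_charpoly p n g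
    have h2 := congrArg (fun q : B[X] => q.coeff m) h1
    simpa only [coeff_smul] using h2
  have h0 : ((MulSemiringAction.charpoly G p).map (mapRingHom ψ)).eval (mapRingHom ψ' p) = 0 := by
    rw [hc, eval_map_apply, MulSemiringAction.eval_charpoly, map_zero]
  rw [MulSemiringAction.charpoly_eq, Polynomial.map_prod, eval_prod, Finset.prod_eq_zero_iff] at h0
  obtain ⟨g, -, hg⟩ := h0
  rw [Polynomial.map_sub, map_X, map_C, eval_sub, eval_X, eval_C, sub_eq_zero] at hg
  apply hb g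
  have h3 := congrArg (fun q : Polynomial Ω => q.coeff (e g)) hg
  simp only [coe_mapRingHom, coeff_map, coeff_smul, hcoeff] at h3
  exact h3

private theorem fixed_int {K L : Type} [Field K] [Field L] [Algebra K L] [IsGalois K L]
    [FiniteDimensional K L] (x : 𝓞 L) (h : ∀ g : L ≃ₐ[K] L, g • x = x) :
    ∃ y : 𝓞 K, RingOfIntegers.mapRingHom (algebraMap K L) y = x := by
  have h1 : ∀ g : L ≃ₐ[K] L, g (x : L) = (x : L) := by
    intro g
    have h2 := congrArg (fun z : 𝓞 L => (z : L)) (h g)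
    exact h2
  have h3 := (IsGalois.mem_bot_iff_fixed (x : L)).mpr h1
  obtain ⟨y, hy⟩ := IntermediateField.mem_bot.mp h3
  have hy' : IsIntegral ℤ y := by
    have h4 : IsIntegral ℤ (algebraMap K L y) := by
      rw [hy]
      exact x.2
    exact (isIntegral_algHom_iff (IsScalarTower.toAlgHom ℤ K L) (algebraMap K L).injective).mp h4
  refine ⟨⟨y, hy'⟩, ?_⟩
  apply RingOfIntegers.ext
  exact hy

private theorem extend_hom {R S Ω : Type} [CommRing R] [CommRing S] [Algebra R S]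
    [Algebra.IsIntegral R S] [Field Ω] [IsAlgClosed Ω]
    (hinj : Function.Injective (algebraMap R S)) (χ : R →+* Ω) :
    ∃ Ψ : S →+* Ω, ∀ x, Ψ (algebraMap R S x) = χ x := by
  haveI : (RingHom.ker χ).IsPrime := RingHom.ker_isPrime χ
  obtain ⟨Q', -, hQ', hcomap⟩ := Ideal.exists_ideal_over_prime_of_isIntegral (RingHom.ker χ)
    (⊥ : Ideal S) (by
      rw [← RingHom.ker_eq_comap_bot, (RingHom.injective_iff_ker_eq_bot _).mp hinj]
      exact bot_le)
  haveI := hQ'
  haveI : Q'.LiesOver (RingHom.ker χ) := ⟨hcomap.symm⟩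
  letI : Algebra (R ⧸ RingHom.ker χ) Ω := (RingHom.kerLift χ).toAlgebra
  haveI : Module.IsTorsionFree (R ⧸ RingHom.ker χ) Ω :=
    Module.isTorsionFree_iff_algebraMap_injective.mpr (RingHom.kerLift_injective χ)
  haveI : Algebra.IsIntegral (R ⧸ RingHom.ker χ) (S ⧸ Q') := inferInstance
  haveI : Module.IsTorsionFree (R ⧸ RingHom.ker χ) (S ⧸ Q') := inferInstance
  let f : S ⧸ Q' →ₐ[R ⧸ RingHom.ker χ] Ω := IsAlgClosed.lift
  refine ⟨f.toRingHom.comp (Ideal.Quotient.mk Q'), fun x => ?_⟩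
  exact f.commutes (Ideal.Quotient.mk _ x)

theorem red_surj {F L : Type} [Field F] [NumberField F] [Field L] [NumberField L] [IsGalois ℚ L]
    (Q : Ideal (𝓞 L)) (hQ : Q.IsPrime) (hQ0 : Q ≠ ⊥) (hne : Nonempty (F →+* L))
    (χ : 𝓞 F →+* 𝓞 L ⧸ Q) : ∃ φ : F →+* L, red Q φ = χ := by
  obtain ⟨φ0⟩ := hne
  have hmax : Q.IsMaximal := hQ.isMaximal hQ0
  letI : Field (𝓞 L ⧸ Q) := Ideal.Quotient.field Q
  let Ω := AlgebraicClosure (𝓞 L ⧸ Q)
  let ι : 𝓞 L ⧸ Q →+* Ω := algebraMap _ _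
  letI : Algebra (𝓞 F) (𝓞 L) := (RingOfIntegers.mapRingHom φ0).toAlgebra
  haveI : Algebra.IsIntegral (𝓞 F) (𝓞 L) := Algebra.IsIntegral.tower_top ℤ
  have hinj : Function.Injective (algebraMap (𝓞 F) (𝓞 L)) := by
    intro x y hxy
    apply RingOfIntegers.ext
    apply φ0.injective
    exact congrArg (fun z : 𝓞 L => (z : L)) hxy
  have hext : ∃ Ψ : 𝓞 L →+* Ω, ∀ x : 𝓞 F, Ψ (RingOfIntegers.mapRingHom φ0 x) = ι (χ x) :=
    extend_hom hinj (ι.comp χ)
  obtain ⟨Ψ, hΨ⟩ := hext
  obtain ⟨g, hg⟩ := transitive (G := L ≃ₐ[ℚ] L) (ι.comp (Ideal.Quotient.mk Q)) Ψ (by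
    intro b hb
    obtain ⟨y, rfl⟩ := fixed_int b hb
    obtain ⟨n, rfl⟩ := Rat.ringOfIntegersEquiv.symm.surjective y
    exact RingHom.congr_fun (RingHom.ext_int
      (((ι.comp (Ideal.Quotient.mk Q)).comp (RingOfIntegers.mapRingHom (algebraMap ℚ L))).comp
        (Rat.ringOfIntegersEquiv.symm : ℤ →+* 𝓞 ℚ))
      ((Ψ.comp (RingOfIntegers.mapRingHom (algebraMap ℚ L))).comp
        (Rat.ringOfIntegersEquiv.symm : ℤ →+* 𝓞 ℚ))) n)
  refine ⟨(g : L →+* L).comp φ0, ?_⟩
  ext x
  apply ι.injective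
  rw [← hΨ, hg]
  rfl

theorem red_fib {F L : Type} [Field F] [NumberField F] [Field L] [NumberField L] [IsGalois ℚ L]
    (Q : Ideal (𝓞 L)) (hQ : Q.IsPrime) (hQ0 : Q ≠ ⊥) (φ φ' : F →+* L) (h : red Q φ = red Q φ') :
    ∃ τ : L ≃ₐ[ℚ] L, (∀ x : 𝓞 L, RingOfIntegers.mapRingHom (τ : L →+* L) x - x ∈ Q) ∧
      ∀ x, φ' x = τ (φ x) := by
  letI : Algebra F L := φ.toAlgebra
  haveI : IsGalois F L := IsGalois.tower_top_of_isGalois ℚ F L
  haveI : FiniteDimensional F L := Module.Finite.of_restrictScalars_finite ℚ F L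
  let g0 : L →ₐ[ℚ] L := (φ'.toRatAlgHom).liftNormal L
  have hg0 : ∀ x, g0 (φ x) = φ' x := fun x => AlgHom.liftNormal_commutes (φ'.toRatAlgHom) L x
  let g' : L ≃ₐ[ℚ] L := AlgEquiv.ofBijective g0 (AlgHom.normal_bijective ℚ L L g0)
  have hg' : ∀ x, g' (φ x) = φ' x := hg0
  obtain ⟨h', hh⟩ := transitive (G := L ≃ₐ[F] L) (Ideal.Quotient.mk Q)
    ((Ideal.Quotient.mk Q).comp (RingOfIntegers.mapRingHom (g' : L →+* L))) (by
    intro b hb
    obtain ⟨y, rfl⟩ := fixed_int b hb
    have h1 := RingHom.congr_fun h y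
    change (Ideal.Quotient.mk Q) (RingOfIntegers.mapRingHom φ y) = _
    change (Ideal.Quotient.mk Q) (RingOfIntegers.mapRingHom φ y) = (Ideal.Quotient.mk Q)
      (RingOfIntegers.mapRingHom φ' y) at h1
    rw [h1]
    change _ = (Ideal.Quotient.mk Q) (RingOfIntegers.mapRingHom (g' : L →+* L)
      (RingOfIntegers.mapRingHom φ y))
    congr 1
    apply RingOfIntegers.ext
    exact (hg' _).symm)
  refine ⟨((h'.restrictScalars ℚ).symm).trans g', ?_, ?_⟩
  · intro x
    have h1 := hh (h'⁻¹ • x)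
    rw [smul_inv_smul] at h1
    rw [← Ideal.Quotient.eq]
    exact h1
  · intro x
    rw [← hg' x]
    change g' (φ x) = g' (h'.symm (φ x))
    congr 1
    rw [AlgEquiv.eq_symm_apply]
    exact h'.commutes x

end Pool.Agent.H73.AL
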