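import Pool.Agent.H73.AL.RelFin
import Pool.Agent.H73.AL.Burn
import Pool.Agent.H73.AL.HomRed
import Pool.Agent.H73.AL.HomCount

/-! # Related lists of fields have the same numbers of places of given norm

PLAN. `rel_count`: if `q` is not a power `p ^ f`, `f ≥ 1`, of a prime, all terms are `0` (the norm of
a nonzero prime is such a power). Otherwise fix `p`; take `L` from `rel_fin`, a prime `Q` of
`𝓞 L` containing `p` (`Ideal.exists_maximal`/`Ideal.exists_ideal_over_prime_of_isIntegral`),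
`κ = 𝓞 L ⧸ Q`, `I` the inertia group of `Q` (all `τ` with `τ x - x ∈ Q` for all `x : 𝓞 L`), `φ0` a
Frobenius element (`φ0 x ≡ x ^ p` modulo `Q` for all `x : 𝓞 L`; exists:
`stabilizerHom_surjective` or `AlgHom.IsArithFrobAt`, `exists_isArithFrobAt`). For `F` with
`Nonempty (F →+* L)` apply `burnside` with `Γ = L ≃ₐ[ℚ] L`, `X = (F →+* L)` (action by composition),
`Y = (𝓞 F →+* κ)`, `π = red Q`, `d = φ0 ^ k`, `σ χ = (y ↦ y ^ (p ^ k)) ∘ χ`:
`#I * #{χ | χ x ^ (p ^ k) = χ x} = ∑_{τ ∈ I} markL F L (φ0 ^ k * τ)`.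
With `hom_count` (the hypothesis `h` from `red_surj`-type lifting: every `v ∋ p` has a prime `Q'`
of `𝓞 L` over it along an embedding, and `𝓞 L ⧸ Q' ≅ κ` by conjugation; or from surjectivity of
`(mod Q) ∘ g` with `g Q' = Q`) we get
`#I * ∑_{f ∣ k} f * cnt F (p ^ f) = ∑_{τ ∈ I} markL F L (φ0 ^ k * τ)`, and summing over `A`, `B`:
`∑_{f ∣ k} f * (∑_{F ∈ A} cnt F (p ^ f)) = ∑_{f ∣ k} f * (∑_{F ∈ B} cnt F (p ^ f))` for all `k ≥ 1`.
Strong induction on `k` gives equality for each `f`. -/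

namespace Pool.Agent.H73.AL

open NumberField IsDedekindDomain
open scoped Pointwise

section one

variable {F L : Type} [Field F] [NumberField F] [Field L] [NumberField L]

/-- automorphisms act on embeddings -/
@[instance_reducible] private noncomputable def actL (F L : Type) [Field F] [Field L] [NumberField L] :
    MulAction (L ≃ₐ[ℚ] L) (F →+* L) where
  smul g φ := (g : L →+* L).comp φ
  one_smul _ := rfl
  mul_smul _ _ _ := rfl

private theorem map_eq_smul (τ : L ≃ₐ[ℚ] L) (x : 𝓞 L) :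
    RingOfIntegers.mapRingHom (τ : L →+* L) x = τ • x := by
  apply RingOfIntegers.ext
  rfl

private theorem frob_pow {Q : Ideal (𝓞 L)} {p : ℕ} {φ0 : L ≃ₐ[ℚ] L}
    (hφ0 : ∀ x : 𝓞 L, φ0 • x - x ^ p ∈ Q) (k : ℕ) (x : 𝓞 L) :
    φ0 ^ k • x - x ^ (p ^ k) ∈ Q := by
  induction k generalizing x with
  | zero => simp
  | succ k ih =>
    have h1 := ih (φ0 • x)
    have h2 : (φ0 • x) ^ p ^ k - (x ^ p) ^ p ^ k ∈ Q := by
      have h3 := Commute.all (φ0 • x) (x ^ p)
      exact Ideal.mem_of_dvd _ (sub_dvd_pow_sub_pow _ _ _) (hφ0 x)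
    rw [pow_succ, mul_smul]
    have h4 : x ^ (p ^ (k + 1)) = (x ^ p) ^ p ^ k := by
      rw [← pow_mul, pow_succ, mul_comm]
    rw [h4]
    have := Q.add_mem h1 h2
    rwa [sub_add_sub_cancel] at this

private theorem stab_pow {Q : Ideal (𝓞 L)} {p : ℕ} (hp : p ≠ 0) {φ0 : L ≃ₐ[ℚ] L}
    (hφ0 : ∀ x : 𝓞 L, φ0 • x - x ^ p ∈ Q) (k : ℕ) {x : 𝓞 L} (hx : x ∈ Q) :
    φ0 ^ k • x ∈ Q := by
  have h1 := frob_pow hφ0 k x
  have h2 : x ^ (p ^ k) ∈ Q := Ideal.pow_mem_of_mem _ hx _ (by positivity)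
  have := Q.add_mem h1 h2
  rwa [sub_add_cancel] at this

private theorem stab_inv {Q : Ideal (𝓞 L)} {p : ℕ} (hp : p ≠ 0) {φ0 : L ≃ₐ[ℚ] L}
    (hφ0 : ∀ x : 𝓞 L, φ0 • x - x ^ p ∈ Q) (k : ℕ) {x : 𝓞 L} (hx : x ∈ Q) :
    (φ0 ^ k)⁻¹ • x ∈ Q := by
  have h1 : ∃ n : ℕ, (φ0 ^ k)⁻¹ = φ0 ^ n := by
    have hfin : IsOfFinOrder φ0 := isOfFinOrder_of_finite φ0
    have h2 : (φ0 ^ k)⁻¹ ∈ Subgroup.zpowers φ0 :=
      Subgroup.inv_mem _ (Subgroup.pow_mem _ (Subgroup.mem_zpowers φ0) k)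
    rw [← hfin.mem_powers_iff_mem_zpowers, Submonoid.mem_powers_iff] at h2
    obtain ⟨n, hn⟩ := h2
    exact ⟨n, hn.symm⟩
  obtain ⟨n, hn⟩ := h1
  rw [hn]
  exact stab_pow hp hφ0 n hx

omit [NumberField F] in
private theorem exists_lift [IsGalois ℚ L] (Q : Ideal (𝓞 L)) (hQ : Q.IsPrime) (p : ℕ)
    (hp : p.Prime) (hpQ : (p : 𝓞 L) ∈ Q) (φ : F →+* L) (v : HeightOneSpectrum (𝓞 F))
    (hv : ((p : ℕ) : 𝓞 F) ∈ v.asIdeal) : Nonempty (𝓞 F ⧸ v.asIdeal →+* 𝓞 L ⧸ Q) := by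
  let : Algebra (𝓞 F) (𝓞 L) := (RingOfIntegers.mapRingHom φ).toAlgebra
  have : Algebra.IsIntegral (𝓞 F) (𝓞 L) := by
    have : IsScalarTower ℤ (𝓞 F) (𝓞 L) := IsScalarTower.of_algebraMap_eq fun n => by simp
    exact Algebra.IsIntegral.tower_top ℤ
  have := v.isPrime
  have hinj : Function.Injective (algebraMap (𝓞 F) (𝓞 L)) := by
    intro a b hab
    apply RingOfIntegers.ext
    apply φ.injective
    have := congrArg (fun t : 𝓞 L => (t : L)) hab
    exact this
  obtain ⟨Q', -, hQ'p, hQ'⟩ := Ideal.exists_ideal_over_prime_of_isIntegral (S := 𝓞 L) v.asIdeal ⊥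
    (by
      rw [← RingHom.ker_eq_comap_bot, (RingHom.injective_iff_ker_eq_bot _).1 hinj]
      exact bot_le)
  have hpQ' : (p : 𝓞 L) ∈ Q' := by
    have h1 : algebraMap (𝓞 F) (𝓞 L) p ∈ Q' := by
      rw [← Ideal.mem_comap, hQ']
      exact hv
    simpa using h1
  have hunder : ∀ P : Ideal (𝓞 L), P.IsPrime → (p : 𝓞 L) ∈ P →
      Ideal.under ℤ P = Ideal.span {(p : ℤ)} := by
    intro P hP hpP
    have : (Ideal.span {(p : ℤ)}).IsMaximal :=
      PrincipalIdealRing.isMaximal_of_irreducible (Nat.prime_iff_prime_int.1 hp).irreducible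
    refine (Ideal.IsMaximal.eq_of_le this (Ideal.IsPrime.ne_top (Ideal.IsPrime.under ℤ P)) ?_).symm
    rw [Ideal.span_singleton_le_iff_mem]
    change algebraMap ℤ (𝓞 L) p ∈ P
    simpa using hpP
  obtain ⟨g, hg⟩ := Algebra.IsInvariant.exists_smul_of_under_eq ℤ (𝓞 L) (L ≃ₐ[ℚ] L) Q' Q
    ((hunder Q' hQ'p hpQ').trans (hunder Q hQ hpQ).symm)
  refine ⟨Ideal.Quotient.lift v.asIdeal
    ((Ideal.Quotient.mk Q).comp ((MulSemiringAction.toRingHom (L ≃ₐ[ℚ] L) (𝓞 L) g).comp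
      (RingOfIntegers.mapRingHom φ))) ?_⟩
  intro a ha
  simp only [RingHom.comp_apply]
  rw [Ideal.Quotient.eq_zero_iff_mem]
  rw [← hQ', Ideal.mem_comap] at ha
  rw [hg]
  change g • (algebraMap (𝓞 F) (𝓞 L) a) ∈ g • Q'
  exact Ideal.smul_mem_pointwise_smul g _ _ ha

private theorem key_F [IsGalois ℚ L] (Q : Ideal (𝓞 L)) (hQ : Q.IsPrime) (hQ0 : Q ≠ ⊥) (p : ℕ)
    [hp : Fact p.Prime] (hpQ : (p : 𝓞 L) ∈ Q) (φ0 : L ≃ₐ[ℚ] L)
    (hφ0 : ∀ x : 𝓞 L, φ0 • x - x ^ p ∈ Q) (k : ℕ) (hk : 0 < k) (hne : Nonempty (F →+* L)) :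
    ((Nat.card (Q.inertia (L ≃ₐ[ℚ] L)) * ∑ f ∈ Nat.divisors k, f * cnt F (p ^ f) : ℕ) : ℤ) =
      ∑ᶠ τ : Q.inertia (L ≃ₐ[ℚ] L), markL F L (φ0 ^ k * (τ : L ≃ₐ[ℚ] L)) := by
  classical
  have : Q.IsMaximal := hQ.isMaximal hQ0
  have : Finite (𝓞 L ⧸ Q) := Ideal.finiteQuotientOfFreeOfNeBot Q hQ0
  let : Field (𝓞 L ⧸ Q) := Ideal.Quotient.field Q
  have : CharP (𝓞 L ⧸ Q) p := by
    refine (CharP.charP_iff_prime_eq_zero hp.out).2 ?_
    rw [← map_natCast (Ideal.Quotient.mk Q), Ideal.Quotient.eq_zero_iff_mem]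
    exact hpQ
  have hc := hom_count (F := F) (κ := 𝓞 L ⧸ Q) p
    (fun v hv => exists_lift Q hQ p hp.out hpQ hne.some v hv) k hk
  let := actL F L
  have hI : ∀ τ : L ≃ₐ[ℚ] L, τ ∈ Q.inertia (L ≃ₐ[ℚ] L) ↔ ∀ x : 𝓞 L, τ • x - x ∈ Q :=
    fun τ => Iff.rfl
  have hp0 : p ≠ 0 := hp.out.ne_zero
  have hb := burnside (X := F →+* L) (Y := 𝓞 F →+* 𝓞 L ⧸ Q) (Q.inertia (L ≃ₐ[ℚ] L)) (φ0 ^ k)
    (by
      intro τ hτ
      rw [hI] at hτ ⊢
      intro x
      have h1 := stab_inv hp0 hφ0 k (hτ (φ0 ^ k • x))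
      rw [smul_sub, inv_smul_smul] at h1
      rw [mul_smul, mul_smul]
      exact h1)
    (by
      intro τ hτ
      rw [hI] at hτ ⊢
      intro x
      have h1 := stab_pow hp0 hφ0 k (hτ ((φ0 ^ k)⁻¹ • x))
      rw [smul_sub, smul_inv_smul] at h1
      rw [mul_smul, mul_smul]
      exact h1)
    (red Q) (fun χ => red_surj Q hQ hQ0 hne χ)
    (by
      intro φ φ'
      constructor
      · intro he
        obtain ⟨τ, h1, h2⟩ := red_fib Q hQ hQ0 φ φ' he
        refine ⟨τ, ?_, RingHom.ext h2⟩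
        rw [hI]
        intro x
        rw [← map_eq_smul]
        exact h1 x
      · rintro ⟨τ, hτ, rfl⟩
        rw [hI] at hτ
        refine RingHom.ext fun x => ?_
        have h1 := hτ (RingOfIntegers.mapRingHom φ x)
        rw [← Ideal.Quotient.eq] at h1
        refine h1.symm.trans ?_
        change _ = Ideal.Quotient.mk Q _
        congr 1)
    (fun χ => (iterateFrobenius (𝓞 L ⧸ Q) p k).comp χ)
    (by
      intro φ
      refine RingHom.ext fun x => ?_
      have h1 := frob_pow hφ0 k (RingOfIntegers.mapRingHom φ x)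
      rw [← Ideal.Quotient.eq, map_pow] at h1
      rw [RingHom.comp_apply, iterateFrobenius_def]
      refine Eq.trans ?_ h1
      change Ideal.Quotient.mk Q _ = _
      congr 1)
  have hY : Nat.card {y : 𝓞 F →+* 𝓞 L ⧸ Q // (iterateFrobenius (𝓞 L ⧸ Q) p k).comp y = y} =
      Nat.card {χ : 𝓞 F →+* 𝓞 L ⧸ Q // ∀ x, χ x ^ (p ^ k) = χ x} := by
    refine Nat.card_congr (Equiv.subtypeEquivRight fun χ => ?_)
    rw [RingHom.ext_iff]
    simp only [RingHom.comp_apply, iterateFrobenius_def]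
  rw [hY, hc] at hb
  rw [hb]
  have hX : ∀ τ : Q.inertia (L ≃ₐ[ℚ] L),
      Nat.card {x : F →+* L // (φ0 ^ k * (τ : L ≃ₐ[ℚ] L)) • x = x} =
        Nat.card {φ : F →+* L // ∀ x, (φ0 ^ k * (τ : L ≃ₐ[ℚ] L)) (φ x) = φ x} := by
    intro τ
    refine Nat.card_congr (Equiv.subtypeEquivRight fun χ => ?_)
    rw [RingHom.ext_iff]
    rfl
  simp only [hX]
  have : Fintype (Q.inertia (L ≃ₐ[ℚ] L)) := Fintype.ofFinite _
  rw [finsum_eq_sum_of_fintype, finsum_eq_sum_of_fintype]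
  push_cast
  rfl

end one

private theorem list_sum_fin {ι : Type} (s : Finset ι) (A : List NF) (a : ι → NF → ℤ) :
    (A.map fun F => ∑ f ∈ s, a f F).sum = ∑ f ∈ s, (A.map fun F => a f F).sum := by
  induction A with
  | nil => simp
  | cons F A ih => simp [ih, Finset.sum_add_distrib]

private theorem list_sum_mul (A : List NF) (m : ℤ) (a : NF → ℤ) :
    (A.map fun F => m * a F).sum = m * (A.map a).sum := by
  induction A with
  | nil => simp
  | cons F A ih => simp [ih, mul_add]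

private theorem list_sum_congr {A : List NF} {a b : NF → ℤ} (h : ∀ F ∈ A, a F = b F) :
    (A.map a).sum = (A.map b).sum := by
  rw [List.map_congr_left h]

theorem rel_count {T : Finset ℕ} {A B : List NF} (h : Rel T A B) (q : ℕ) (hq : q ≠ 0) :
    (A.map fun F => cnt F.F q).sum = (B.map fun F => cnt F.F q).sum := by
  classical
  by_cases hpp : IsPrimePow q
  · obtain ⟨p, f, hp, hf, rfl⟩ := (isPrimePow_nat_iff q).1 hpp
    have := Fact.mk hp
    obtain ⟨L, _, _, hGal, hemb, hrel⟩ := rel_fin h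
    -- a prime over p
    have hspan : (Ideal.span {(p : ℤ)}).IsPrime :=
      (Ideal.span_singleton_prime (by exact_mod_cast hp.ne_zero)).2 (Nat.prime_iff_prime_int.1 hp)
    obtain ⟨Q, -, hQ, hQp⟩ := Ideal.exists_ideal_over_prime_of_isIntegral (S := 𝓞 L)
      (Ideal.span {(p : ℤ)}) ⊥ (by
        rw [← RingHom.ker_eq_comap_bot,
          (RingHom.injective_iff_ker_eq_bot _).1 (algebraMap ℤ (𝓞 L)).injective_int]
        exact bot_le)
    have hpQ : (p : 𝓞 L) ∈ Q := by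
      have h1 : (p : ℤ) ∈ Ideal.comap (algebraMap ℤ (𝓞 L)) Q := by
        rw [hQp]
        exact Ideal.mem_span_singleton_self _
      simpa using h1
    have hQ0 : Q ≠ ⊥ := by
      rintro rfl
      rw [Ideal.mem_bot] at hpQ
      exact hp.ne_zero (by exact_mod_cast hpQ)
    have : Finite (𝓞 L ⧸ Q) := Ideal.finiteQuotientOfFreeOfNeBot Q hQ0
    obtain ⟨φ0, hφ0⟩ := IsArithFrobAt.exists_of_isInvariant ℤ (L ≃ₐ[ℚ] L) Q
    have hcard : Nat.card (ℤ ⧸ Q.under ℤ) = p := by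
      have h1 : Q.under ℤ = Ideal.span {(p : ℤ)} := hQp
      rw [h1]
      have := Int.card_ideal_quot p
      simpa using this
    have hφ : ∀ x : 𝓞 L, φ0 • x - x ^ p ∈ Q := by
      intro x
      have h1 := hφ0 x
      rw [hcard] at h1
      exact h1
    set I := Q.inertia (L ≃ₐ[ℚ] L) with hI
    have : Fintype I := Fintype.ofFinite _
    have hIpos : 0 < Nat.card I := Nat.card_pos
    have key : ∀ k, 0 < k → ∑ f ∈ Nat.divisors k, (f : ℤ) * (A.map fun F => (cnt F.F (p ^ f) : ℤ)).sum =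
        ∑ f ∈ Nat.divisors k, (f : ℤ) * (B.map fun F => (cnt F.F (p ^ f) : ℤ)).sum := by
      intro k hk
      have h1 : ∀ C : List NF, (∀ F ∈ C, Nonempty (F.F →+* L)) →
          (Nat.card I : ℤ) * ∑ f ∈ Nat.divisors k, (f : ℤ) *
            (C.map fun F => (cnt F.F (p ^ f) : ℤ)).sum =
          ∑ τ : I, (C.map fun F => markL F.F L (φ0 ^ k * (τ : L ≃ₐ[ℚ] L))).sum := by
        intro C hC
        rw [← list_sum_fin Finset.univ C
          (fun (τ : I) F => markL F.F L (φ0 ^ k * (τ : L ≃ₐ[ℚ] L)))]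
        have h2 : ∀ F ∈ C, ∑ τ : I, markL F.F L (φ0 ^ k * (τ : L ≃ₐ[ℚ] L)) =
            (Nat.card I : ℤ) * ∑ f ∈ Nat.divisors k, (f : ℤ) * (cnt F.F (p ^ f) : ℤ) := by
          intro F hF
          have h3 := key_F (F := F.F) Q hQ hQ0 p hpQ φ0 hφ k hk (hC F hF)
          rw [finsum_eq_sum_of_fintype] at h3
          rw [← h3]
          push_cast
          rfl
        rw [list_sum_congr h2, list_sum_mul, list_sum_fin]
        congr 1
        refine Finset.sum_congr rfl fun f _ => ?_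
        rw [list_sum_mul]
      have hA := h1 A fun F hF => hemb F (List.mem_append_left _ hF)
      have hB := h1 B fun F hF => hemb F (List.mem_append_right _ hF)
      have h2 : (Nat.card I : ℤ) * ∑ f ∈ Nat.divisors k, (f : ℤ) *
            (A.map fun F => (cnt F.F (p ^ f) : ℤ)).sum = (Nat.card I : ℤ) *
            ∑ f ∈ Nat.divisors k, (f : ℤ) * (B.map fun F => (cnt F.F (p ^ f) : ℤ)).sum := by
        rw [hA, hB]
        exact Finset.sum_congr rfl fun τ _ => hrel _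
      exact mul_left_cancel₀ (by exact_mod_cast hIpos.ne') h2
    have hall : ∀ k, 0 < k → (A.map fun F => (cnt F.F (p ^ k) : ℤ)).sum =
        (B.map fun F => (cnt F.F (p ^ k) : ℤ)).sum := by
      intro k
      induction k using Nat.strong_induction_on with
      | _ k ih =>
        intro hk
        have h1 := key k hk
        rw [← Nat.cons_self_properDivisors hk.ne', Finset.sum_cons, Finset.sum_cons] at h1
        have h2 : ∑ f ∈ Nat.properDivisors k, (f : ℤ) *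
            (A.map fun F => (cnt F.F (p ^ f) : ℤ)).sum = ∑ f ∈ Nat.properDivisors k, (f : ℤ) *
            (B.map fun F => (cnt F.F (p ^ f) : ℤ)).sum := by
          refine Finset.sum_congr rfl fun f hf => ?_
          rw [Nat.mem_properDivisors] at hf
          rw [ih f hf.2 (Nat.pos_of_dvd_of_pos hf.1 hk)]
        rw [h2] at h1
        have h3 := add_right_cancel h1
        exact mul_left_cancel₀ (by exact_mod_cast hk.ne') h3
    have h1 := hall f hf
    have hcast : ∀ C : List NF, ((C.map fun F => cnt F.F (p ^ f)).sum : ℤ) =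
        (C.map fun F => (cnt F.F (p ^ f) : ℤ)).sum := by
      intro C
      induction C with
      | nil => simp
      | cons F C ih => simp [ih]
    have h2 : ((A.map fun F => cnt F.F (p ^ f)).sum : ℤ) = (B.map fun F => cnt F.F (p ^ f)).sum := by
      rw [hcast, hcast, h1]
    exact_mod_cast h2
  · have hz : ∀ F : NF, cnt F.F q = 0 := by
      intro F
      unfold cnt
      rw [Nat.card_eq_zero]
      left
      refine ⟨fun v => hpp ?_⟩
      obtain ⟨v, hv⟩ := v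
      have := v.isMaximal
      have : Finite (𝓞 F.F ⧸ v.asIdeal) := Ideal.finiteQuotientOfFreeOfNeBot v.asIdeal v.ne_bot
      let : Field (𝓞 F.F ⧸ v.asIdeal) := Ideal.Quotient.field v.asIdeal
      have : Fintype (𝓞 F.F ⧸ v.asIdeal) := Fintype.ofFinite _
      have h1 := FiniteField.isPrimePow_card (𝓞 F.F ⧸ v.asIdeal)
      rw [← hv, Ideal.absNorm_apply, Submodule.cardQuot_apply, Nat.card_eq_fintype_card]
      exact h1
    have : ∀ C : List NF, (C.map fun F => cnt F.F q).sum = 0 := by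
      intro C
      induction C with
      | nil => rfl
      | cons F C ih => simp [ih, hz F]
    rw [this, this]

end Pool.Agent.H73.AL
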