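import Pool.Agent.H73.DU.RatNice

/-! # Marks of number fields, relations between number fields -/

namespace Pool.Agent.H73.AL

open Pool.Agent.H73.DU

/-- a number field -/
structure NF where
  F : Type
  [fld : Field F]
  [nf : NumberField F]

attribute [instance] NF.fld NF.nf

/-- the absolute Galois group acts on the embeddings -/
noncomputable instance actEmb (F : Type) [Field F] : MulAction GQ (F →+* AlgebraicClosure ℚ) where
  smul g φ := (g : AlgebraicClosure ℚ →+* AlgebraicClosure ℚ).comp φ
  one_smul _ := rfl
  mul_smul _ _ _ := rfl

theorem smul_emb (F : Type) [Field F] (g : GQ) (φ : F →+* AlgebraicClosure ℚ) (x : F) :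
    (g • φ) x = g (φ x) := rfl

/-- the marks of a number field: `mark F U` is the number of embeddings of `F` in the field of
invariants of `U` -/
noncomputable def mark (F : Type) [Field F] [NumberField F] : Subgroup GQ → ℤ :=
  pch GQ (F →+* AlgebraicClosure ℚ)

/-- relation between two lists of number fields: the sums of the marks agree at the cyclic
subgroups of the absolute Galois group and at the subgroups of the decomposition groups at the
primes of `T` -/
def Rel (T : Finset ℕ) (A B : List NF) : Prop :=
  ∀ U ∈ famT T, (A.map fun F => mark F.F U).sum = (B.map fun F => mark F.F U).sum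

/-- number of embeddings of `F` in `L` fixed by an automorphism of `L` -/
noncomputable def markL (F L : Type) [Field F] [Field L] [NumberField L] (γ : L ≃ₐ[ℚ] L) : ℤ :=
  (Nat.card {φ : F →+* L // ∀ x, γ (φ x) = φ x} : ℤ)

end Pool.Agent.H73.AL
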