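import Pool.Agent.H73.AL.LocMark

/-! # The algebra attached to a finite set with an action of the Galois group

PLAN. `gro_field`: the map `ev : k ⊗ F → gro (F →+* Ω)`, `ev (a ⊗ x) = (φ ↦ a * φ x)` is a well
defined homomorphism of `k`-algebras (`Algebra.TensorProduct.lift`, or `productMap`). Injective:
let `b` be a
`ℚ`-basis of `F`; `ev (∑ a_j ⊗ b_j) = 0` means `∑ a_j φ(b_j) = 0` for all `φ`; the matrix
`(φ (b_j))` is invertible (`Algebra.discr_ne_zero`, `Algebra.embeddingsMatrix`, linear independence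
of characters) so `a_j = 0`. Surjective: let `f ∈ gro`; there are unique `c_j : Ω` with
`f φ = ∑ c_j φ(b_j)` for all `φ` (same matrix, `|Hom(F,Ω)| = [F:ℚ]`); for `σ` in the Galois group,
`σ (f (σ⁻¹ φ)) = f φ` gives `∑ σ(c_j) φ(b_j) = ∑ c_j φ(b_j)`, so `σ c_j = c_j`, and `c_j ∈ k` because
`Ω / k` is Galois (`InfiniteGalois` or `IsGalois.mem_bot_iff_fixed`-type lemma; characteristic
zero). (`F →+* Ω` and `F →ₐ[ℚ] Ω` are the same.)
`gro_sum`: `f ↦ (f ∘ inl, f ∘ inr)`. `gro_iso`: `f ↦ f ∘ e⁻¹`. -/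

namespace Pool.Agent.H73.AL

open scoped TensorProduct

/-- equivariant functions from a set with an action of the Galois group to the big field -/
def gro (k Ω X : Type) [Field k] [Field Ω] [Algebra k Ω] [MulAction (Ω ≃ₐ[k] Ω) X] :
    Subalgebra k (X → Ω) where
  carrier := {f | ∀ (σ : Ω ≃ₐ[k] Ω) x, f (σ • x) = σ (f x)}
  mul_mem' := by
    intro a b ha hb σ x
    rw [Pi.mul_apply, Pi.mul_apply, map_mul, ha, hb]
  add_mem' := by
    intro a b ha hb σ x
    rw [Pi.add_apply, Pi.add_apply, map_add, ha, hb]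
  algebraMap_mem' := by
    intro r σ x
    change algebraMap k Ω r = σ (algebraMap k Ω r)
    rw [σ.commutes]

private theorem groAlg_mem {k Ω X : Type} [Field k] [Field Ω] [Algebra k Ω]
    [MulAction (Ω ≃ₐ[k] Ω) X] {f : X → Ω} :
    f ∈ gro k Ω X ↔ ∀ (σ : Ω ≃ₐ[k] Ω) x, f (σ • x) = σ (f x) := Iff.rfl

private noncomputable def groAlgMat (Ω : Type) [Field Ω] {F ι : Type} [Field F]
    (b : ι → F) (e : ι ≃ (F →+* Ω)) : Matrix ι ι Ω :=
  Matrix.of fun i j => e i (b j)

private theorem groAlgMat_unit (Ω : Type) [Field Ω] [Algebra ℚ Ω] [IsAlgClosed Ω] {F ι : Type}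
    [Field F] [NumberField F] [Fintype ι] [DecidableEq ι] (b : Module.Basis ι ℚ F)
    (e : ι ≃ (F →+* Ω)) : IsUnit (groAlgMat Ω b e).det := by
  have h1 := Algebra.discr_eq_det_embeddingsMatrixReindex_pow_two ℚ Ω b
    (e.trans (RingHom.equivRatAlgHom F Ω))
  have h2 := Algebra.discr_not_zero_of_basis ℚ b
  have h3 : (Algebra.embeddingsMatrixReindex ℚ Ω b
      (e.trans (RingHom.equivRatAlgHom F Ω))) = (groAlgMat Ω b e).transpose := by
    ext i j
    rfl
  rw [h3, Matrix.det_transpose] at h1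
  rw [isUnit_iff_ne_zero]
  intro h0
  rw [h0] at h1
  apply h2
  have h4 : (algebraMap ℚ Ω) (Algebra.discr ℚ b) = 0 := by
    rw [h1]
    ring
  exact (algebraMap ℚ Ω).injective (by rw [h4, map_zero])

private theorem groAlgMat_inj (Ω : Type) [Field Ω] {ι : Type} [Fintype ι] [DecidableEq ι]
    (M : Matrix ι ι Ω) (hM : IsUnit M.det) {v w : ι → Ω} (h : ∀ i, ∑ j, M i j * v j = ∑ j, M i j * w j) :
    v = w := by
  have h1 : M.mulVec v = M.mulVec w := funext h
  have h2 := congrArg (fun v => M⁻¹.mulVec v) h1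
  simp only [Matrix.mulVec_mulVec, Matrix.nonsing_inv_mul _ hM, Matrix.one_mulVec] at h2
  exact h2

private theorem groAlgMat_surj (Ω : Type) [Field Ω] {ι : Type} [Fintype ι] [DecidableEq ι]
    (M : Matrix ι ι Ω) (hM : IsUnit M.det) (v : ι → Ω) :
    ∃ c : ι → Ω, ∀ i, ∑ j, M i j * c j = v i := by
  refine ⟨M⁻¹.mulVec v, fun i => ?_⟩
  have h1 : M.mulVec (M⁻¹.mulVec v) = v := by
    rw [Matrix.mulVec_mulVec, Matrix.mul_nonsing_inv _ hM, Matrix.one_mulVec]
  exact congrFun h1 i

private noncomputable def groAlgEv (k Ω : Type) [Field k] [Field Ω] [Algebra ℚ k] [Algebra k Ω]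
    [Algebra ℚ Ω] [IsScalarTower ℚ k Ω] (F : Type) [Field F] [Algebra ℚ F] :
    (k ⊗[ℚ] F) →ₐ[k] ((F →+* Ω) → Ω) :=
  Algebra.TensorProduct.lift (Algebra.ofId k _)
    (RingHom.toRatAlgHom (RingHom.pi fun φ : F →+* Ω => φ)) fun _ _ => Commute.all _ _

private theorem groAlgEv_tmul (k Ω : Type) [Field k] [Field Ω] [Algebra ℚ k] [Algebra k Ω]
    [Algebra ℚ Ω] [IsScalarTower ℚ k Ω] (F : Type) [Field F] [Algebra ℚ F] (a : k) (x : F)
    (φ : F →+* Ω) :
    groAlgEv k Ω F (a ⊗ₜ x) φ = algebraMap k Ω a * φ x := rfl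

private theorem groAlg_aux (k Ω : Type) [Field k] [Field Ω] [Algebra ℚ k] [Algebra k Ω]
    [Algebra ℚ Ω] [IsScalarTower ℚ k Ω] [CharZero Ω] [IsAlgClosed Ω] [IsGalois k Ω]
    (F : Type) [Field F] [NumberField F] :
    Nonempty ((k ⊗[ℚ] F) ≃ₐ[k] gro k Ω (F →+* Ω)) := by
  classical
  let b := Module.finBasis ℚ F
  have hcard : Nat.card (F →+* Ω) = Module.finrank ℚ F := by
    rw [Nat.card_eq_fintype_card]
    exact NumberField.Embeddings.card F Ω
  let e : Fin (Module.finrank ℚ F) ≃ (F →+* Ω) :=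
    (Finite.equivFinOfCardEq hcard).symm
  have hU := groAlgMat_unit Ω b e
  let B := Algebra.TensorProduct.basis k b
  have hev : ∀ (z : k ⊗[ℚ] F) (φ : F →+* Ω), groAlgEv k Ω F z φ =
      ∑ j, φ (b j) * algebraMap k Ω (B.repr z j) := by
    intro z φ
    conv_lhs => rw [← B.sum_repr z]
    rw [map_sum, Finset.sum_apply]
    apply Finset.sum_congr rfl
    intro j _
    rw [map_smul, Algebra.TensorProduct.basis_apply, Pi.smul_apply, groAlgEv_tmul, map_one, one_mul,
      Algebra.smul_def, mul_comm]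
  have hmem : ∀ z : k ⊗[ℚ] F, groAlgEv k Ω F z ∈ gro k Ω (F →+* Ω) := by
    intro z
    induction z using TensorProduct.induction_on with
    | zero =>
      rw [map_zero]
      exact zero_mem _
    | tmul a x =>
      intro σ φ
      rw [groAlgEv_tmul, groAlgEv_tmul, map_mul, AlgEquiv.commutes]
      rfl
    | add x y hx hy =>
      rw [map_add]
      exact add_mem hx hy
  refine ⟨AlgEquiv.ofBijective ((groAlgEv k Ω F).codRestrict (gro k Ω (F →+* Ω)) hmem) ⟨?_, ?_⟩⟩
  · rw [injective_iff_map_eq_zero]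
    intro z hz
    have hz' : groAlgEv k Ω F z = 0 := congrArg Subtype.val hz
    have h2 : (fun j => algebraMap k Ω (B.repr z j)) = (fun _ => (0 : Ω)) := by
      apply groAlgMat_inj Ω (groAlgMat Ω b e) hU
      intro i
      have h3 := hev z (e i)
      rw [hz'] at h3
      simp only [mul_zero, Finset.sum_const_zero]
      exact h3.symm
    apply B.repr.injective
    ext j
    have h4 : algebraMap k Ω (B.repr z j) = 0 := congrFun h2 j
    rw [map_zero, Finsupp.zero_apply]
    exact (algebraMap k Ω).injective (by rw [h4, map_zero])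
  · rintro ⟨f, hf⟩
    obtain ⟨c, hc⟩ := groAlgMat_surj Ω (groAlgMat Ω b e) hU (fun i => f (e i))
    have hfe : ∀ φ : F →+* Ω, f φ = ∑ j, φ (b j) * c j := by
      intro φ
      obtain ⟨i, rfl⟩ := e.surjective φ
      exact (hc i).symm
    have hfix : ∀ (σ : Ω ≃ₐ[k] Ω) j, σ (c j) = c j := by
      intro σ j
      have h5 : (fun j => σ (c j)) = c := by
        apply groAlgMat_inj Ω (groAlgMat Ω b e) hU
        intro i
        have h6 := hf σ (σ⁻¹ • e i)
        rw [smul_inv_smul, hfe (e i), hfe (σ⁻¹ • e i), map_sum] at h6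
        refine Eq.trans ?_ h6.symm
        apply Finset.sum_congr rfl
        intro j _
        rw [map_mul]
        congr 1
        have h7 : σ • (σ⁻¹ • e i) = e i := smul_inv_smul _ _
        exact (congrArg (fun φ : F →+* Ω => φ (b j)) h7).symm
      exact congrFun h5 j
    have hck : ∀ j, c j ∈ Set.range (algebraMap k Ω) := by
      intro j
      rw [InfiniteGalois.mem_range_algebraMap_iff_fixed]
      exact fun σ => hfix σ j
    choose d hd using hck
    refine ⟨∑ j, d j • B j, Subtype.ext ?_⟩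
    funext φ
    change groAlgEv k Ω F (∑ j, d j • B j) φ = f φ
    rw [hev, hfe]
    apply Finset.sum_congr rfl
    intro j _
    rw [B.repr_sum_self, hd]

theorem gro_field (k : Type) [Field k] [CharZero k] [Algebra ℚ k] (F : Type) [Field F]
    [NumberField F] :
    Nonempty ((k ⊗[ℚ] F) ≃ₐ[k] gro k (AlgebraicClosure k) (F →+* AlgebraicClosure k)) :=
  haveI : CharZero (AlgebraicClosure k) := inferInstance
  groAlg_aux k (AlgebraicClosure k) F

theorem gro_iso {k Ω X Y : Type} [Field k] [Field Ω] [Algebra k Ω] [MulAction (Ω ≃ₐ[k] Ω) X]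
    [MulAction (Ω ≃ₐ[k] Ω) Y] (e : X ≃ Y) (he : ∀ (g : Ω ≃ₐ[k] Ω) x, e (g • x) = g • e x) :
    Nonempty (gro k Ω X ≃ₐ[k] gro k Ω Y) := by
  have he' : ∀ (g : Ω ≃ₐ[k] Ω) y, e.symm (g • y) = g • e.symm y := by
    intro g y
    apply e.injective
    rw [he, e.apply_symm_apply, e.apply_symm_apply]
  refine ⟨AlgEquiv.ofRingEquiv (f :=
    { toFun := fun f => ⟨fun y => f.1 (e.symm y), fun σ y =>
        (congrArg f.1 (he' σ y)).trans (f.2 σ _)⟩
      invFun := fun f => ⟨fun x => f.1 (e x), fun σ x =>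
        (congrArg f.1 (he σ x)).trans (f.2 σ _)⟩
      left_inv := fun f => Subtype.ext (funext fun x => by simp)
      right_inv := fun f => Subtype.ext (funext fun y => by simp)
      map_mul' := fun f g => rfl
      map_add' := fun f g => rfl }) fun r => rfl⟩

/-- the action on a disjoint sum -/
instance actSum (G X Y : Type) [Monoid G] [MulAction G X] [MulAction G Y] :
    MulAction G (X ⊕ Y) where
  smul g z := Sum.map (g • ·) (g • ·) z
  one_smul z := by
    rcases z with x | y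
    · exact congrArg Sum.inl (one_smul G x)
    · exact congrArg Sum.inr (one_smul G y)
  mul_smul g h z := by
    rcases z with x | y
    · exact congrArg Sum.inl (mul_smul g h x)
    · exact congrArg Sum.inr (mul_smul g h y)

theorem gro_sum (k Ω X Y : Type) [Field k] [Field Ω] [Algebra k Ω] [MulAction (Ω ≃ₐ[k] Ω) X]
    [MulAction (Ω ≃ₐ[k] Ω) Y] :
    Nonempty (gro k Ω (X ⊕ Y) ≃ₐ[k] (gro k Ω X × gro k Ω Y)) := by
  refine ⟨AlgEquiv.ofRingEquiv (f :=
    { toFun := fun f => (⟨fun x => f.1 (Sum.inl x), fun σ x => f.2 σ (Sum.inl x)⟩,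
        ⟨fun y => f.1 (Sum.inr y), fun σ y => f.2 σ (Sum.inr y)⟩)
      invFun := fun p => ⟨Sum.elim p.1.1 p.2.1, fun σ z => by
        rcases z with x | y
        · exact p.1.2 σ x
        · exact p.2.2 σ y⟩
      left_inv := fun f => Subtype.ext (funext fun z => by rcases z with x | y <;> rfl)
      right_inv := fun p => rfl
      map_mul' := fun f g => rfl
      map_add' := fun f g => rfl }) fun r => rfl⟩

theorem gro_empty (k Ω X : Type) [Field k] [Field Ω] [Algebra k Ω] [MulAction (Ω ≃ₐ[k] Ω) X]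
    [IsEmpty X] : Nonempty (gro k Ω X ≃ₐ[k] PUnit) := by
  refine ⟨AlgEquiv.ofRingEquiv (f :=
    { toFun := fun _ => PUnit.unit
      invFun := fun _ => 0
      left_inv := fun f => Subtype.ext (funext fun x => isEmptyElim x)
      right_inv := fun _ => rfl
      map_mul' := fun f g => rfl
      map_add' := fun f g => rfl }) fun r => rfl⟩

end Pool.Agent.H73.AL
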