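import Pool.Agent.H73.AL.Final
import Pool.Agent.HWR.Final

/-! # The same without finite order -/

namespace Pool.Agent.H73.AL

open NumberField IsDedekindDomain Pool.Agent.HWR Pool.Agent.QD Pool.Agent.H73.DU

variable {T : Finset ℕ} (D : LocData T)

/-- Hasse-Weil without finite order -/
def HWo (a : ℕ → ℝ) (F : Type) [Field F] [NumberField F] : Prop :=
  ∃ Lam : ℂ → ℂ, Differentiable ℂ Lam ∧ (∀ s : ℂ, Lam s = D.w F * Lam (2 - s)) ∧
    ∀ s : ℂ, 3 / 2 < s.re → Lam s = D.Lam a F s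

theorem list_HWo {a : ℕ → ℝ} (C : List NF) (hC : ∀ F ∈ C, HWo D a F.F) :
    ∃ P : ℂ → ℂ, Differentiable ℂ P ∧
      (∀ s, P s = (C.map fun F => D.w F.F).prod * P (2 - s)) ∧
      (∀ s : ℂ, 3 / 2 < s.re → P s = (C.map fun F => D.Lam a F.F s).prod) := by
  induction C with
  | nil => exact ⟨fun _ => 1, differentiable_const _, fun s => by simp, fun s _ => by simp⟩
  | cons F C ih =>
    obtain ⟨P, h1, h3, h4⟩ := ih fun F' hF' => hC F' (List.mem_cons_of_mem _ hF')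
    obtain ⟨Q, g1, g3, g4⟩ := hC F List.mem_cons_self
    refine ⟨fun s => Q s * P s, g1.mul h1, fun s => ?_, fun s hs => ?_⟩
    · change Q s * P s = _ * (Q (2 - s) * P (2 - s))
      rw [List.map_cons, List.prod_cons, g3 s, h3 s]
      ring
    · change Q s * P s = _
      rw [List.map_cons, List.prod_cons, g4 s hs, h4 s hs]

theorem HWo_one (hTp : ∀ p ∈ T, p.Prime) (hT : ∀ p : ℕ, p.Prime → p < 101 → p ∈ T) {a : ℕ → ℝ}
    (ha : ∀ q : ℕ, |a q| ≤ 2 * Real.sqrt q) (H : HWo D a ℚ) (F : Type) [Field F] [NumberField F]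
    (h : Module.finrank ℚ F = 1) : HWo D a F := by
  have hr := rel_one T F h
  have hw : D.w F = D.w ℚ := by simpa using rel_w D hr
  obtain ⟨L, h1, h3, h4⟩ := H
  refine ⟨L, h1, fun s => by rw [hw, h3 s], fun s hs => ?_⟩
  have h5 : D.Lam a F s = D.Lam a ℚ s := by simpa using rel_Lam D hTp hT ha hr hs
  rw [h5, h4 s hs]

/-- meromorphic continuation and functional equation, as a quotient of two entire functions -/
theorem alg_MERo (hTp : ∀ p ∈ T, p.Prime) (hT : ∀ p : ℕ, p.Prime → p < 101 → p ∈ T) {a : ℕ → ℝ}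
    (ha : ∀ q : ℕ, |a q| ≤ 2 * Real.sqrt q) (M : ℕ) (hM : M ≠ 0) (HQ : HWo D a ℚ)
    (H : ∀ (F : Type) [Field F] [NumberField F], M ∣ Module.finrank ℚ F → HWo D a F)
    (K : Type) [Field K] [NumberField K] :
    ∃ f g : ℂ → ℂ, Differentiable ℂ f ∧ Differentiable ℂ g ∧
      (∀ s : ℂ, 3 / 2 < s.re → g s ≠ 0) ∧
      (∀ s : ℂ, 3 / 2 < s.re → g s * D.Lam a K s = f s) ∧
      ∀ s : ℂ, f s * g (2 - s) = D.w K * (f (2 - s) * g s) := by
  obtain ⟨A, B, hAB, h⟩ := alg_marks T ⟨K⟩ M hM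
  have H' : ∀ F ∈ A ++ B, HWo D a F.F := fun F hF =>
    (hAB F hF).elim (HWo_one D hTp hT ha HQ F.F) (H F.F)
  obtain ⟨g, g1, g3, g4⟩ := list_HWo D A fun F hF => H' F (List.mem_append.2 (Or.inl hF))
  obtain ⟨f, f1, f3, f4⟩ := list_HWo D B fun F hF => H' F (List.mem_append.2 (Or.inr hF))
  refine ⟨f, g, f1, g1, fun s hs => ?_, fun s hs => ?_, fun s => ?_⟩
  · rw [g4 s hs]
    apply List.prod_ne_zero
    intro h0
    obtain ⟨F, _, hF⟩ := List.mem_map.1 h0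
    exact Lam_ne D hTp hT ha F.F hs hF
  · have h1 := rel_Lam D hTp hT ha h hs
    rw [List.map_cons, List.prod_cons, ← g4 s hs, ← f4 s hs] at h1
    rw [mul_comm]
    exact h1
  · have h1 := rel_w D h
    rw [List.map_cons, List.prod_cons] at h1
    rw [f3 s, g3 s, ← h1]
    ring

/-- the Euler product of an elliptic curve over `ℚ` is of the form `LT` -/
theorem exists_LT (A B : ℤ) (T : Finset ℕ) (hT : ∀ p : ℕ, p.Prime → p < 101 → p ∈ T)
    (hbad : ∀ p : ℕ, p.Prime → (p : ℤ) ∣ 4 * A ^ 3 + 27 * B ^ 2 → p ∈ T) :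
    ∃ a : ℕ → ℝ, (∀ q : ℕ, |a q| ≤ 2 * Real.sqrt q) ∧
      ∀ (F : Type) [Field F] [NumberField F], HWR.LE A B F T = LT F a T := by
  obtain ⟨a, ha, ha'⟩ := exists_a A B
  have h2 : 2 ∈ T := hT 2 Nat.prime_two (by norm_num)
  refine ⟨a, ha, fun F _ _ => ?_⟩
  funext s
  unfold HWR.LE HWR.LT
  congr 1
  funext v
  unfold efacE efac
  rw [ha' T h2 hbad F v.1 v.2]

end Pool.Agent.H73.AL
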