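import Pool.Agent.H73.AL.Defs

/-! # Marks at the subgroups of a local Galois group

PLAN. `Ω = AlgebraicClosure ℚ_[l]`, `Γ = Ω ≃ₐ[ℚ_[l]] Ω`, `i = emb l`. For `U : Subgroup Γ` let
`U' : Subgroup GQ` be the set of all `g` such that there is `σ ∈ U` with `i (g x) = σ (i x)` for all
`x` (a subgroup, contained in `decomp ℚ_[l] (emb l)`; so `U' ∈ famT T` by `Or.inr` with `a = 1`,
`cj 1 U' = U'` is `DU.cj_one`). `φ ↦ i ∘ φ` is a bijection from
`F →+* AlgebraicClosure ℚ` to `F →+* Ω` (injective since `i` is; both have `[F : ℚ]` elements: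
`NumberField.Embeddings.card`). `φ` is fixed by `U'` iff `i ∘ φ` is fixed by `U`: if `σ ∈ U` then
there is `g` with `i (g x) = σ (i x)` (`σ` maps the image of `i`, which is the set of elements of
`Ω` algebraic over `ℚ`, onto itself; `g = i⁻¹ σ i`); conversely clear. -/

namespace Pool.Agent.H73.AL

open Pool.Agent.H73.DU

/-- the local Galois group acts on the embeddings -/
noncomputable instance actLoc (F k Ω : Type) [Field F] [Field k] [Field Ω] [Algebra k Ω] :
    MulAction (Ω ≃ₐ[k] Ω) (F →+* Ω) where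
  smul g φ := (g : Ω →+* Ω).comp φ
  one_smul _ := rfl
  mul_smul _ _ _ := rfl

private theorem alg_cl' (inst : Algebra ℚ (AlgebraicClosure ℚ)) :
    IsAlgClosure ℚ (AlgebraicClosure ℚ) := by
  have h : inst = AlgebraicClosure.instAlgebra ℚ := Subsingleton.elim _ _
  subst h
  infer_instance

private theorem ext_loc {Ω : Type} [Field Ω] [CharZero Ω] (i : AlgebraicClosure ℚ →+* Ω)
    (σ : Ω ≃+* Ω) : ∃ g : GQ, ∀ x, i (g x) = σ (i x) := by
  have : IsAlgClosure ℚ (AlgebraicClosure ℚ) := alg_cl' inferInstance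
  have : Normal ℚ (AlgebraicClosure ℚ) := IsAlgClosure.normal ℚ _
  let _ : Algebra (AlgebraicClosure ℚ) Ω := i.toAlgebra
  let _ : Algebra ℚ Ω := DivisionRing.toRatAlgebra
  have : IsScalarTower ℚ (AlgebraicClosure ℚ) Ω :=
    IsScalarTower.of_algebraMap_eq' (Subsingleton.elim _ _)
  let σ' : Ω ≃ₐ[ℚ] Ω := AlgEquiv.ofRingEquiv (f := σ) (fun r => by
    rw [eq_ratCast, map_ratCast])
  refine ⟨σ'.restrictNormal (AlgebraicClosure ℚ), fun x => ?_⟩
  exact σ'.restrictNormal_commutes (AlgebraicClosure ℚ) x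

theorem loc_mark {T : Finset ℕ} (l : ℕ) [hl : Fact l.Prime] (hlT : l ∈ T)
    (U : Subgroup (AlgebraicClosure ℚ_[l] ≃ₐ[ℚ_[l]] AlgebraicClosure ℚ_[l])) :
    ∃ U' ∈ famT T, ∀ (F : Type) [Field F] [NumberField F],
      pch _ (F →+* AlgebraicClosure ℚ_[l]) U = mark F U' := by
  classical
  set i := emb l with hi
  have hinj : Function.Injective i := i.injective
  let U' : Subgroup GQ :=
    { carrier := {g | ∃ σ ∈ U, ∀ x, i (g x) = σ (i x)}
      mul_mem' := by
        rintro a b ⟨σ, hσU, hσ⟩ ⟨τ, hτU, hτ⟩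
        refine ⟨σ * τ, U.mul_mem hσU hτU, fun x => ?_⟩
        change i (a (b x)) = σ (τ (i x))
        rw [hσ, hτ]
      one_mem' := ⟨1, U.one_mem, fun _ => rfl⟩
      inv_mem' := by
        rintro a ⟨σ, hσU, hσ⟩
        refine ⟨σ⁻¹, U.inv_mem hσU, fun x => ?_⟩
        apply σ.injective
        rw [← hσ]
        change i (a (a.symm x)) = σ (σ.symm (i x))
        rw [AlgEquiv.apply_symm_apply, AlgEquiv.apply_symm_apply] }
  have hU' : ∀ g : GQ, g ∈ U' ↔ ∃ σ ∈ U, ∀ x, i (g x) = σ (i x) := fun g => Iff.rfl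
  refine ⟨U', Or.inr ⟨l, hl, 1, hlT, ?_⟩, ?_⟩
  · rw [cj_one]
    rintro g ⟨σ, _, h⟩
    exact ⟨σ, h⟩
  · intro F _ _
    unfold mark pch
    congr 1
    let f : (F →+* AlgebraicClosure ℚ) → (F →+* AlgebraicClosure ℚ_[l]) := fun φ => i.comp φ
    have hf : Function.Injective f := by
      intro φ ψ h
      refine RingHom.ext fun x => hinj ?_
      exact congrArg (fun z : F →+* AlgebraicClosure ℚ_[l] => z x) h
    have hbij : Function.Bijective f := by
      rw [Fintype.bijective_iff_injective_and_card]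
      refine ⟨hf, ?_⟩
      rw [NumberField.Embeddings.card, NumberField.Embeddings.card]
    symm
    refine Nat.card_congr ((Equiv.ofBijective f hbij).subtypeEquiv fun φ => ?_)
    change (∀ u ∈ U', u • φ = φ) ↔ (∀ u ∈ U, u • (i.comp φ) = i.comp φ)
    constructor
    · intro h σ hσ
      obtain ⟨g, hg⟩ := ext_loc i (σ : AlgebraicClosure ℚ_[l] ≃+* AlgebraicClosure ℚ_[l])
      have h1 := h g ⟨σ, hσ, hg⟩
      refine RingHom.ext fun x => ?_
      change σ (i (φ x)) = i (φ x)
      have h2 : g (φ x) = φ x := congrArg (fun z : F →+* AlgebraicClosure ℚ => z x) h1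
      have h3 := hg (φ x)
      rw [h2] at h3
      exact h3.symm
    · rintro h g ⟨σ, hσ, hg⟩
      refine RingHom.ext fun x => hinj ?_
      change i (g (φ x)) = i (φ x)
      rw [hg]
      exact congrArg (fun z : F →+* AlgebraicClosure ℚ_[l] => z x) (h σ hσ)

end Pool.Agent.H73.AL
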