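import Mathlib

/-! # Local generators of rings of integers

PLAN. Let `p` be the rational prime in `Q`, `κ = 𝓞 L ⧸ Q` a finite field with a generator `c` of
`κˣ` (so `c ≠ 0` and `F_p[c] = κ`). Let `g ∈ ℤ[X]` be a lift of the minimal polynomial of `c` over
`F_p`; `g'(c) ≠ 0` in `κ` (separable). Choose `π ∈ Q`, `π ∉ Q ^ 2`. For a lift `x0` of `c`, either
`g(x0) ∉ Q ^ 2` or `g(x0 + π) ∉ Q ^ 2`, since `g(x0 + π) ≡ g(x0) + g'(x0) π` modulo `Q ^ 2`
(Taylor). So we have `x1 ≡ c` modulo `Q` with `g(x1) ∈ Q`, `g(x1) ∉ Q ^ 2`; by the Chinese remainder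
theorem there is `x ≡ x1` modulo `Q ^ 2` with `x ∈ Q'` for all the other primes `Q' ≠ Q` containing
`p` (finitely many). Let `R = Algebra.adjoin ℤ {x}`, `q = Q ∩ R` (`Ideal.comap`).
`Q` is the only prime of `𝓞 L` over `q`: if `Q' ∩ R = q`, `Q' ≠ Q`, then `p ∈ Q'`, so `x ∈ Q'`,
`x ∈ q ⊆ Q`, but `c ≠ 0`. Hence `q 𝓞 L = Q`: its prime divisors are primes containing `q`, `q` is
maximal (`R ⧸ q` is a finite domain), so they lie over `q`, so only `Q`; and `q 𝓞 L ∋ g(x) ∉ Q ^ 2`.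
Every `y : 𝓞 L` is congruent modulo `Q` to an element of `R` (as `F_p[c] = κ`). So
`𝓞 L = R + q 𝓞 L` as `R`-modules, `N = 𝓞 L ⧸ R` is a finitely generated `R`-module with
`N ≤ q N`. Nakayama (`Submodule.exists_sub_one_mem_and_smul_eq_zero_of_fg_of_le_smul`): there is
`s ∈ R`, `s - 1 ∈ q`, `s N = 0`. -/

namespace Pool.Agent.H73.AL

open NumberField

theorem exists_mono (L : Type) [Field L] [NumberField L] (Q : Ideal (𝓞 L)) (hQ : Q.IsPrime)
    (hQ0 : Q ≠ ⊥) :
    ∃ x s : 𝓞 L, s ∉ Q ∧ ∀ y : 𝓞 L, s * y ∈ Algebra.adjoin ℤ ({x} : Set (𝓞 L)) := by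
  classical
  have hQm : Q.IsMaximal := hQ.isMaximal hQ0
  letI : Field (𝓞 L ⧸ Q) := Ideal.Quotient.field Q
  have hfin : Finite (𝓞 L ⧸ Q) := Ideal.finiteQuotientOfFreeOfNeBot Q hQ0
  letI : Fintype (𝓞 L ⧸ Q) := Fintype.ofFinite _
  -- the cardinality
  set n := Nat.card (𝓞 L ⧸ Q) - 1 with hn
  have hcard : 1 < Nat.card (𝓞 L ⧸ Q) := Finite.one_lt_card
  have hn1 : 1 ≤ n := by omega
  have hcn : Nat.card (𝓞 L ⧸ Q) = n + 1 := by omega
  have hN0 : ((n + 1 : ℕ) : 𝓞 L) ∈ Q := by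
    rw [← hcn, ← Ideal.Quotient.eq_zero_iff_mem, map_natCast, Nat.card_eq_fintype_card]
    exact Nat.cast_card_eq_zero _
  have hnq : ((n : ℕ) : 𝓞 L) ∉ Q := by
    intro h
    have h1 : ((n + 1 : ℕ) : 𝓞 L) - ((n : ℕ) : 𝓞 L) = 1 := by push_cast; ring
    exact hQ.ne_top ((Ideal.eq_top_iff_one _).2 (h1 ▸ Q.sub_mem hN0 h))
  obtain ⟨c, hc⟩ := IsCyclic.exists_generator (α := (𝓞 L ⧸ Q)ˣ)
  obtain ⟨x0, hx0⟩ := Ideal.Quotient.mk_surjective (c : 𝓞 L ⧸ Q)
  have hpow : ∀ x : 𝓞 L, Ideal.Quotient.mk Q x = c → x ^ n - 1 ∈ Q := by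
    intro x hx
    rw [← Ideal.Quotient.eq_zero_iff_mem, map_sub, map_pow, hx, map_one, sub_eq_zero,
      hn, Nat.card_eq_fintype_card]
    exact FiniteField.pow_card_sub_one_eq_one _ c.ne_zero
  have hnotQ : ∀ x : 𝓞 L, Ideal.Quotient.mk Q x = c → x ∉ Q := by
    intro x hx h
    rw [← Ideal.Quotient.eq_zero_iff_mem, hx] at h
    exact c.ne_zero h
  -- a uniformizer
  obtain ⟨π, hπ, hπ2⟩ : ∃ π ∈ Q, π ∉ Q ^ 2 := by
    have : ¬ Q ≤ Q ^ 2 := fun h => (Ideal.pow_right_strictAnti Q hQ0 hQ.ne_top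
      (show 1 < 2 by norm_num)).not_ge (by simpa using h)
    exact Set.not_subset.1 this
  -- powers of `Q`
  have hprim : ∀ a b : 𝓞 L, a ∉ Q → a * b ∈ Q ^ 2 → b ∈ Q ^ 2 := by
    intro a b ha hab
    have hcop : IsCoprime (Ideal.span {a}) (Q ^ 2) := by
      refine IsCoprime.pow_right ?_
      rw [Ideal.isCoprime_iff_sup_eq, sup_comm]
      refine hQm.1.2 _ (lt_of_le_of_ne le_sup_left fun h => ha ?_)
      rw [h]
      exact Ideal.mem_sup_right (Ideal.mem_span_singleton_self a)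
    have h1 : Q ^ 2 ∣ Ideal.span {a} * Ideal.span {b} := by
      rw [Ideal.span_singleton_mul_span_singleton, Ideal.dvd_span_singleton]
      exact hab
    exact Ideal.dvd_span_singleton.1 (hcop.symm.dvd_of_dvd_mul_left h1)
  -- correct the lift
  obtain ⟨x1, hx1, hx1'⟩ : ∃ x1 : 𝓞 L, Ideal.Quotient.mk Q x1 = c ∧ x1 ^ n - 1 ∉ Q ^ 2 := by
    by_cases h : x0 ^ n - 1 ∈ Q ^ 2
    · refine ⟨x0 + π, ?_, fun h' => ?_⟩
      · rw [map_add, hx0, Ideal.Quotient.eq_zero_iff_mem.2 hπ, add_zero]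
      · obtain ⟨k, hk⟩ := Polynomial.powAddExpansion x0 π n
        rw [hk] at h'
        have h2 : k * π ^ 2 ∈ Q ^ 2 := Ideal.mul_mem_left _ _ (Ideal.pow_mem_pow hπ 2)
        have h3 : (n : 𝓞 L) * x0 ^ (n - 1) * π ∈ Q ^ 2 := by
          have h4 := Ideal.sub_mem _ (Ideal.sub_mem _ h' h) h2
          have h5 : x0 ^ n + ↑n * x0 ^ (n - 1) * π + k * π ^ 2 - 1 - (x0 ^ n - 1) - k * π ^ 2 =
            (n : 𝓞 L) * x0 ^ (n - 1) * π := by ring
          rwa [h5] at h4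
        refine hπ2 (hprim _ _ ?_ h3)
        intro h4
        rcases hQ.mem_or_mem h4 with h5 | h5
        · exact hnq h5
        · exact hnotQ x0 hx0 (hQ.mem_of_pow_mem _ h5)
    · exact ⟨x0, hx0, h⟩
  -- the other primes over the cardinality
  have hm0 : Ideal.span {((n + 1 : ℕ) : 𝓞 L)} ≠ ⊥ := by
    rw [Ne, Ideal.span_singleton_eq_bot]
    exact_mod_cast Nat.succ_ne_zero n
  have hQu : ¬ IsUnit Q := by
    rw [Ideal.isUnit_iff]
    exact hQ.ne_top
  obtain ⟨J, hJ, hJQ⟩ := (FiniteMultiplicity.of_not_isUnit hQu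
    (show Ideal.span {((n + 1 : ℕ) : 𝓞 L)} ≠ 0 from hm0)).exists_eq_pow_mul_and_not_dvd
  have hJQ' : IsCoprime (Q ^ 2) J := by
    refine IsCoprime.pow_left ?_
    rw [Ideal.isCoprime_iff_sup_eq]
    refine hQm.1.2 _ (lt_of_le_of_ne le_sup_left fun h => hJQ ?_)
    rw [Ideal.dvd_iff_le, h]
    exact le_sup_right
  obtain ⟨u, hu, v, hv, huv⟩ := Ideal.isCoprime_iff_exists.1 hJQ'
  -- the element
  set x := x1 * v with hxdef
  have hxx1 : x - x1 ∈ Q ^ 2 := by
    have : x - x1 = -(x1 * u) := by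
      rw [hxdef]
      linear_combination x1 * huv
    rw [this]
    exact neg_mem (Ideal.mul_mem_left _ _ hu)
  have hQ2 : Q ^ 2 ≤ Q := Ideal.pow_le_self two_ne_zero
  have hxc : Ideal.Quotient.mk Q x = c := by
    rw [← hx1, Ideal.Quotient.mk_eq_mk_iff_sub_mem]
    exact hQ2 hxx1
  have hxJ : x ∈ J := Ideal.mul_mem_left _ _ hv
  have hgx : x ^ n - 1 ∉ Q ^ 2 := by
    intro h
    apply hx1'
    have h1 : x ^ n - x1 ^ n ∈ Q ^ 2 := Ideal.mem_of_dvd _ (sub_dvd_pow_sub_pow x x1 n) hxx1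
    have h2 := Ideal.sub_mem _ h h1
    have h3 : x ^ n - 1 - (x ^ n - x1 ^ n) = x1 ^ n - 1 := by ring
    rwa [h3] at h2
  -- the order
  set R := Algebra.adjoin ℤ ({x} : Set (𝓞 L)) with hR
  have hxR : x ∈ R := Algebra.subset_adjoin (Set.mem_singleton x)
  let q : Ideal R := Q.comap (algebraMap R (𝓞 L))
  have hmq : ((n + 1 : ℕ) : R) ∈ q := by
    change algebraMap R (𝓞 L) _ ∈ Q
    rw [map_natCast]
    exact hN0
  have hgq : (⟨x, hxR⟩ : R) ^ n - 1 ∈ q := by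
    change algebraMap R (𝓞 L) _ ∈ Q
    rw [map_sub, map_pow, map_one]
    exact hpow x hxc
  set I := q.map (algebraMap R (𝓞 L)) with hI
  have hIQ : I ≤ Q := Ideal.map_comap_le
  have hmI : ((n + 1 : ℕ) : 𝓞 L) ∈ I := by
    have := Ideal.mem_map_of_mem (algebraMap R (𝓞 L)) hmq
    rwa [map_natCast] at this
  have hgI : x ^ n - 1 ∈ I := by
    have := Ideal.mem_map_of_mem (algebraMap R (𝓞 L)) hgq
    rwa [map_sub, map_pow, map_one] at this
  have hIeq : I = Q := by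
    obtain ⟨J', hJ'⟩ := Ideal.dvd_iff_le.2 hIQ
    have hJt : J' = ⊤ := by
      by_contra hne
      obtain ⟨P, hP, hJP⟩ := Ideal.exists_le_maximal J' hne
      have hIP : I ≤ P := by
        rw [hJ']
        exact Ideal.mul_le_right.trans hJP
      have hPQ : P = Q := by
        by_contra hPQ
        have h1 := (Ideal.span_singleton_le_iff_mem P).2 (hIP hmI)
        rw [hJ] at h1
        rcases hP.isPrime.mul_le.1 h1 with h2 | h2
        · exact hPQ (hQm.eq_of_le hP.ne_top (Ideal.IsPrime.le_of_pow_le h2)).symm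
        · have h3 : x ∈ P := h2 hxJ
          have h4 := Ideal.sub_mem _ (Ideal.pow_mem_of_mem P h3 n hn1) (hIP hgI)
          rw [sub_sub_cancel] at h4
          exact hP.ne_top ((Ideal.eq_top_iff_one _).2 h4)
      apply hgx
      rw [sq]
      have h5 : I ≤ Q * Q := by
        rw [hJ']
        exact Ideal.mul_mono_right (hPQ ▸ hJP)
      exact h5 hgI
    rw [hJ', hJt, Ideal.mul_top]
  -- Nakayama
  have hfinR : Module.Finite R (𝓞 L) := Module.Finite.of_restrictScalars_finite ℤ R (𝓞 L)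
  let N : Submodule R (𝓞 L) := LinearMap.range (Algebra.linearMap R (𝓞 L))
  have hNak := Submodule.exists_sub_one_mem_and_smul_eq_zero_of_fg_of_le_smul q
    (⊤ : Submodule R (𝓞 L ⧸ N)) Module.Finite.fg_top (by
      intro z _
      obtain ⟨y, rfl⟩ := Submodule.Quotient.mk_surjective N z
      -- approximate
      obtain ⟨r, hr⟩ : ∃ r : R, y - algebraMap R (𝓞 L) r ∈ Q := by
        by_cases hy : y ∈ Q
        · exact ⟨0, by simpa using hy⟩
        · have hy' : Ideal.Quotient.mk Q y ≠ 0 := fun h => hy (Ideal.Quotient.eq_zero_iff_mem.1 h)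
          obtain ⟨k, hk⟩ := (Submonoid.mem_powers_iff _ _).1
            (mem_powers_iff_mem_zpowers.2 (hc (Units.mk0 _ hy')))
          refine ⟨⟨x, hxR⟩ ^ k, ?_⟩
          rw [← Ideal.Quotient.mk_eq_mk_iff_sub_mem, map_pow, map_pow]
          have h6 : algebraMap R (𝓞 L) ⟨x, hxR⟩ = x := rfl
          rw [h6, hxc]
          have h7 := congrArg Units.val hk
          rw [Units.val_pow_eq_pow_val, Units.val_mk0] at h7
          exact h7.symm
      have h8 : (Submodule.Quotient.mk y : 𝓞 L ⧸ N) =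
          Submodule.Quotient.mk (y - algebraMap R (𝓞 L) r) := by
        rw [Submodule.Quotient.eq]
        refine ⟨r, ?_⟩
        rw [Algebra.linearMap_apply]
        ring
      rw [h8]
      rw [← hIeq, hI] at hr
      -- elements of the extended ideal
      have h9 : ∀ w ∈ q.map (algebraMap R (𝓞 L)), (Submodule.Quotient.mk w : 𝓞 L ⧸ N) ∈
          q • (⊤ : Submodule R (𝓞 L ⧸ N)) := by
        intro w hw
        have h10 : w ∈ (q • (⊤ : Submodule R (𝓞 L)) : Submodule R (𝓞 L)) := by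
          rw [Ideal.smul_top_eq_map]
          exact hw
        have h11 := Submodule.mem_map_of_mem (f := N.mkQ) h10
        rw [Submodule.map_smul''] at h11
        exact Submodule.smul_mono le_rfl le_top h11
      exact h9 _ hr)
  obtain ⟨s, hs1, hs2⟩ := hNak
  refine ⟨x, algebraMap R (𝓞 L) s, ?_, ?_⟩
  · intro h
    have h1 : algebraMap R (𝓞 L) s - 1 ∈ Q := by
      have : algebraMap R (𝓞 L) (s - 1) ∈ Q := hs1
      rwa [map_sub, map_one] at this
    have h2 := Ideal.sub_mem _ h h1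
    rw [sub_sub_cancel] at h2
    exact hQ.ne_top ((Ideal.eq_top_iff_one _).2 h2)
  · intro y
    have h1 := hs2 (Submodule.Quotient.mk y) trivial
    rw [← Submodule.Quotient.mk_smul, Submodule.Quotient.mk_eq_zero] at h1
    obtain ⟨r, hr⟩ := h1
    rw [Algebra.linearMap_apply, Algebra.smul_def] at hr
    rw [← hr]
    exact r.2

end Pool.Agent.H73.AL
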