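import Pool.Agent.H73.AL.Defs

/-! # Passage to a finite Galois extension

PLAN. Take for `L` a finite Galois extension of `ℚ` inside `AlgebraicClosure ℚ` which contains the
images of all embeddings of all the fields of `A ++ B` (finitely many finite extensions:
`IntermediateField.normalClosure` of the compositum of the images; each image is
`IntermediateField`-like: the range of `φ` is a finite extension of `ℚ`). Then composition with the
inclusion gives a bijection from `F →+* L` to `F →+* AlgebraicClosure ℚ`, an automorphism `γ` of `L`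
lifts to `g : GQ` (`AlgEquiv.liftNormal`), and `γ (φ x) = φ x` for all `x` iff
`g • (incl ∘ φ) = incl ∘ φ`; so `markL F L γ = mark F (zpowers g)` (`DU.fx_zpowers`), and
`zpowers g ∈ famT T` (it is cyclic, `Or.inl ⟨g, rfl⟩`). -/

namespace Pool.Agent.H73.AL

open Pool.Agent.H73.DU

private theorem alg_cl' (inst : Algebra ℚ (AlgebraicClosure ℚ)) :
    IsAlgClosure ℚ (AlgebraicClosure ℚ) := by
  have h : inst = AlgebraicClosure.instAlgebra ℚ := Subsingleton.elim _ _
  subst h
  infer_instance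

private theorem normQ : Normal ℚ (AlgebraicClosure ℚ) := by
  have : IsAlgClosure ℚ (AlgebraicClosure ℚ) := alg_cl' inferInstance
  exact IsAlgClosure.normal ℚ _

private theorem lift_aut (L : Type) [Field L] [NumberField L] (ι : L →+* AlgebraicClosure ℚ)
    (γ : L ≃ₐ[ℚ] L) : ∃ g : GQ, ∀ x, g (ι x) = ι (γ x) := by
  let := ι.toAlgebra
  have : IsScalarTower ℚ L (AlgebraicClosure ℚ) :=
    IsScalarTower.of_algebraMap_eq' (Subsingleton.elim _ _)
  have := normQ
  exact ⟨γ.liftNormal (AlgebraicClosure ℚ), fun x => γ.liftNormal_commutes (AlgebraicClosure ℚ) x⟩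

private theorem exists_factor {F L : Type} [Field F] [Field L] (ι : L →+* AlgebraicClosure ℚ)
    (ψ : F →+* AlgebraicClosure ℚ) (h : ∀ x, ψ x ∈ ι.range) : ∃ φ : F →+* L, ι.comp φ = ψ := by
  let e : L ≃+* ι.range := RingEquiv.ofBijective ι.rangeRestrict
    ⟨fun a b hab => ι.injective (congrArg Subtype.val hab), ι.rangeRestrict_surjective⟩
  refine ⟨e.symm.toRingHom.comp (ψ.codRestrict ι.range h), ?_⟩
  ext x
  obtain ⟨y, hy⟩ := e.surjective (ψ.codRestrict ι.range h x)
  have h1 : e.symm (ψ.codRestrict ι.range h x) = y := by rw [← hy, RingEquiv.symm_apply_apply]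
  show ι (e.symm (ψ.codRestrict ι.range h x)) = ψ x
  rw [h1]
  have h2 := congrArg Subtype.val hy
  exact h2

private theorem mark_eq {F L : Type} [Field F] [NumberField F] [Field L] [NumberField L]
    (ι : L →+* AlgebraicClosure ℚ) (hι : ∀ ψ : F →+* AlgebraicClosure ℚ, ∀ x, ψ x ∈ ι.range)
    (γ : L ≃ₐ[ℚ] L) (g : GQ) (hg : ∀ x, g (ι x) = ι (γ x)) :
    markL F L γ = mark F (Subgroup.zpowers g) := by
  unfold markL mark pch
  congr 1
  refine Nat.card_congr (Equiv.ofBijective (fun φ => ⟨ι.comp φ.1, ?_⟩) ⟨?_, ?_⟩)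
  · rw [fx_zpowers]
    ext x
    rw [smul_emb]
    show g (ι (φ.1 x)) = ι (φ.1 x)
    rw [hg, φ.2]
  · intro φ φ' h
    have h1 : ι.comp φ.1 = ι.comp φ'.1 := congrArg Subtype.val h
    refine Subtype.ext (RingHom.ext fun x => ι.injective ?_)
    exact RingHom.congr_fun h1 x
  · rintro ⟨ψ, hψ⟩
    obtain ⟨φ, hφ⟩ := exists_factor ι ψ (hι ψ)
    rw [fx_zpowers] at hψ
    refine ⟨⟨φ, fun x => ι.injective ?_⟩, Subtype.ext hφ⟩
    have h1 := smul_emb F g ψ x
    rw [hψ, ← hφ] at h1
    rw [← hg]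
    exact h1.symm

private theorem exists_L (l : List NF) : ∃ (L : Type) (_ : Field L) (_ : NumberField L)
    (ι : L →+* AlgebraicClosure ℚ), IsGalois ℚ L ∧
      ∀ F ∈ l, ∀ ψ : F.F →+* AlgebraicClosure ℚ, ∀ x, ψ x ∈ ι.range := by
  have := normQ
  let R : (i : Fin l.length) × ((l.get i).F →+* AlgebraicClosure ℚ) →
      IntermediateField ℚ (AlgebraicClosure ℚ) := fun p => p.2.toRatAlgHom.fieldRange
  have : ∀ p, FiniteDimensional ℚ (R p) := fun p =>
    (AlgEquiv.ofInjectiveField p.2.toRatAlgHom).toLinearEquiv.finiteDimensional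
  let E : IntermediateField ℚ (AlgebraicClosure ℚ) := ⨆ p, R p
  have : FiniteDimensional ℚ E := IntermediateField.finiteDimensional_iSup_of_finite
  let L : IntermediateField ℚ (AlgebraicClosure ℚ) := IntermediateField.normalClosure ℚ E (AlgebraicClosure ℚ)
  have : FiniteDimensional ℚ L := normalClosure.is_finiteDimensional ℚ E (AlgebraicClosure ℚ)
  have : Normal ℚ L := normalClosure.normal ℚ E (AlgebraicClosure ℚ)
  have hg : IsGalois ℚ L := {}
  have : NumberField L := { to_charZero := inferInstance, to_finiteDimensional := by convert (inferInstance : FiniteDimensional ℚ L) }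
  refine ⟨L, inferInstance, this, L.val.toRingHom, ?_, ?_⟩
  · convert hg
  · intro F hF ψ x
    obtain ⟨i, rfl⟩ := List.get_of_mem hF
    have h1 : ψ x ∈ R ⟨i, ψ⟩ := ⟨x, rfl⟩
    have h2 : ψ x ∈ E := (le_iSup R ⟨i, ψ⟩) h1
    have h3 : ψ x ∈ L := (IntermediateField.le_normalClosure E) h2
    exact ⟨⟨ψ x, h3⟩, rfl⟩

theorem rel_fin {T : Finset ℕ} {A B : List NF} (h : Rel T A B) :
    ∃ (L : Type) (_ : Field L) (_ : NumberField L), IsGalois ℚ L ∧
      (∀ F ∈ A ++ B, Nonempty (F.F →+* L)) ∧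
      ∀ γ : L ≃ₐ[ℚ] L, (A.map fun F => markL F.F L γ).sum = (B.map fun F => markL F.F L γ).sum := by
  obtain ⟨L, i1, i2, ι, hG, hL⟩ := exists_L (A ++ B)
  refine ⟨L, i1, i2, hG, fun F hF => ?_, fun γ => ?_⟩
  · obtain ⟨ψ⟩ : Nonempty (F.F →+* AlgebraicClosure ℚ) := inferInstance
    obtain ⟨φ, -⟩ := exists_factor ι ψ (hL F hF ψ)
    exact ⟨φ⟩
  · obtain ⟨g, hg⟩ := lift_aut L ι γ
    have h1 := h (Subgroup.zpowers g) (Or.inl ⟨g, rfl⟩)
    rw [List.map_congr_left (g := fun F : NF => mark F.F (Subgroup.zpowers g)) fun F hF =>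
        mark_eq ι (hL F (List.mem_append_left _ hF)) γ g hg,
      List.map_congr_left (g := fun F : NF => mark F.F (Subgroup.zpowers g)) fun F hF =>
        mark_eq ι (hL F (List.mem_append_right _ hF)) γ g hg]
    exact h1

end Pool.Agent.H73.AL
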